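import Pool.Agent.N824.CJ.Exact

/-!
# Exact two-forms with compactly supported primitives
-/

set_option autoImplicit false
set_option maxSynthPendingDepth 3

open Set Filter Topology Metric Function MeasureTheory
open scoped Manifold ContDiff Convolution

set_option linter.unusedSectionVars false

noncomputable section

namespace Pool.Agent.N824.CJ

open Pool.Agent.Y522 Pool.Agent.Y954.SH Pool.Agent.N824.CR Pool.Agent.N824.CN
open Pool.Agent.Y501.SY (Form IsSmooth IsD IsClosedForm pb dfdg fdg dd SmoothFun Pair)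

variable {n : ℕ} {X : Type} [TopologicalSpace X] [ChartedSpace (E n) X]

/-- a compactly supported smooth one-form is a sum of forms `f dg` -/
theorem global_pairK [IsManifold (𝓡 n) ∞ X] [T2Space X] [LocallyCompactSpace X]
    [SecondCountableTopology X] {α : Form n X 1} (hα : IsSmooth α) {K : Set X}
    (hK : IsCompact K) (hαK : ∀ x, x ∉ K → α x = 0) : ∃ η : Form n X 2, Pair α η := by
  classical
  choose α' η' hP hev using fun x => local_pair hα x
  have hV : ∀ x, ∃ V : Set X, IsOpen V ∧ x ∈ V ∧ ∀ y ∈ V, α' x y = α y := by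
    intro x
    obtain ⟨V, hV, hVo, hx⟩ := _root_.eventually_nhds_iff.1 (hev x)
    exact ⟨V, hVo, hx, hV⟩
  choose V hVo hVx hVα using hV
  obtain ⟨t, ht⟩ := hK.elim_finite_subcover V hVo
    (fun x _ => mem_iUnion.2 ⟨x, hVx x⟩)
  have ht' : K ⊆ ⋃ i : t, V i := by
    intro x hx
    obtain ⟨i, hi⟩ := mem_iUnion.1 (ht hx)
    obtain ⟨hi1, hi2⟩ := mem_iUnion.1 hi
    exact mem_iUnion.2 ⟨⟨i, hi1⟩, hi2⟩
  obtain ⟨f, hf⟩ := SmoothPartitionOfUnity.exists_isSubordinate (𝓡 n) hK.isClosed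
    (fun i : t => V i) (fun i => hVo i) ht'
  have hsm := fun i : t => (hP i).smulFun (u := fun x => f i x) (f i).contMDiff
  choose α'' η'' hP'' h1 h2 using hsm
  refine ⟨∑ i, η'' i, ?_⟩
  have hαs : α = ∑ i, α'' i := by
    funext x
    ext v
    rw [Finset.sum_apply, ContinuousAlternatingMap.sum_apply]
    have hv : ![v 0] = v := by
      funext i
      fin_cases i
      rfl
    have h3 : ∀ i : t, α'' i x v = f i x * α x v := by
      intro i
      have h4 := h1 i x (v 0)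
      rw [hv] at h4
      rw [h4]
      by_cases hx : x ∈ V i
      · rw [hVα i x hx]
      · have h5 : f i x = 0 := by
          by_contra h
          exact hx (hf i (subset_tsupport _ h))
        rw [h5, zero_mul, zero_mul]
    simp only [h3]
    rw [← Finset.sum_mul]
    by_cases hx : x ∈ K
    · have h6 : ∑ i, f i x = 1 := by
        rw [← finsum_eq_sum_of_fintype]
        exact f.sum_eq_one hx
      rw [h6, one_mul]
    · rw [hαK x hx]
      simp
  rw [hαs]
  exact Pair.sum _ fun i _ => hP'' i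

/-- an exact two-form with a compactly supported primitive is a sum of forms `da ∧ db` with
compactly supported functions `a`, `b` -/
theorem exact_pairsK [IsManifold (𝓡 n) ∞ X] [T2Space X] [LocallyCompactSpace X]
    [SecondCountableTopology X] {α : Form n X 1} {η : Form n X 2} (hα : IsSmooth α)
    (hη : IsD α η) {K K1 K2 : Set X} (hK : IsCompact K) (hK1 : IsCompact K1) (h01 : K ⊆ interior K1)
    (h12 : K1 ⊆ interior K2) (hαK : ∀ x, x ∉ K → α x = 0) :
    ∃ (N : ℕ) (a b : Fin N → X → ℝ), (∀ j, SmoothFun (d := n) (a j)) ∧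
      (∀ j, SmoothFun (d := n) (b j)) ∧ (∀ x, x ∉ K2 → ∀ j, a j x = 0 ∧ b j x = 0) ∧
      η = ∑ j, dfdg (d := n) (a j) (b j) := by
  obtain ⟨η', hP⟩ := global_pairK hα hK hαK
  obtain ⟨N, a, b, ha, hb, h1, -⟩ := Pair_sum hP
  obtain ⟨χ, hχ1, hχ0, -⟩ := exists_contMDiffMap_one_nhds_of_subset_interior (n := (⊤ : ℕ∞)) (𝓡 n)
    hK.isClosed h01
  obtain ⟨ψ, hψ1, hψ0, -⟩ := exists_contMDiffMap_one_nhds_of_subset_interior (n := (⊤ : ℕ∞)) (𝓡 n)
    hK1.isClosed h12
  have hχs : ContMDiff (𝓡 n) 𝓘(ℝ, ℝ) ∞ χ := χ.contMDiff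
  have hψs : ContMDiff (𝓡 n) 𝓘(ℝ, ℝ) ∞ ψ := ψ.contMDiff
  have ha' : ∀ j, SmoothFun (d := n) (fun x => χ x * a j x) := fun j =>
    ContMDiff.mul hχs (ha j)
  have hb' : ∀ j, SmoothFun (d := n) (fun x => ψ x * b j x) := fun j =>
    ContMDiff.mul hψs (hb j)
  have hP' : Pair (∑ j, fdg (d := n) (fun x => χ x * a j x) (fun x => ψ x * b j x))
      (∑ j, dfdg (d := n) (fun x => χ x * a j x) (fun x => ψ x * b j x)) :=
    Pair.sum _ fun j _ => Pair.gen _ _ (ha' j) (hb' j)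
  have hαe : α = ∑ j, fdg (d := n) (fun x => χ x * a j x) (fun x => ψ x * b j x) := by
    funext x
    ext v
    have e1 : (∑ j, fdg (d := n) (fun x => χ x * a j x) (fun x => ψ x * b j x)) x v =
        ∑ j, (χ x * a j x) * dd (d := n) (fun x => ψ x * b j x) x (v 0) := by
      rw [Finset.sum_apply, ContinuousAlternatingMap.sum_apply]
      rfl
    have e2 : α x v = ∑ j, a j x * dd (d := n) (b j) x (v 0) := by
      rw [h1, Finset.sum_apply, ContinuousAlternatingMap.sum_apply]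
      rfl
    rw [e1]
    by_cases hx : x ∈ K1
    · have h3 : ∀ j, dd (d := n) (fun x => ψ x * b j x) x = dd (d := n) (b j) x := by
        intro j
        show mfderiv (𝓡 n) 𝓘(ℝ, ℝ) (fun x => ψ x * b j x) x = mfderiv (𝓡 n) 𝓘(ℝ, ℝ) (b j) x
        refine Filter.EventuallyEq.mfderiv_eq (I := 𝓡 n) (I' := 𝓘(ℝ, ℝ)) ?_
        filter_upwards [eventually_nhdsSet_iff_forall.1 hψ1 x hx] with y hy
        rw [hy, one_mul]
      simp only [h3]
      have h4 : ∑ j, χ x * a j x * dd (d := n) (b j) x (v 0) = χ x * α x v := by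
        rw [e2, Finset.mul_sum]
        exact Finset.sum_congr rfl fun j _ => mul_assoc _ _ _
      rw [h4]
      by_cases hxK : x ∈ K
      · rw [hχ1.self_of_nhdsSet x hxK, one_mul]
      · rw [hαK x hxK]
        simp
    · rw [hαK x fun h => hx (interior_subset (h01 h)), Finset.sum_eq_zero]
      · rfl
      · intro j _
        rw [hχ0 x hx, zero_mul, zero_mul]
  have h2 := (hP'.props Pool.Agent.Y484.SY.t_GEN).2.2.1
  rw [← hαe] at h2
  refine ⟨N, _, _, ha', hb', fun x hx j => ⟨?_, ?_⟩, IsD_unique hη h2⟩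
  · rw [hχ0 x fun h => hx (interior_subset (h12 h)), zero_mul]
  · rw [hψ0 x hx, zero_mul]

/-- a distance for which all smooth parametrizations of points of a compact set are
bi-Lipschitz -/
theorem exists_distK [T2Space X] [IsManifold (𝓡 n) ∞ X] {K : Set X} (hK : IsCompact K) :
    ∃ d : X → X → ℝ, ∀ A : E n → X, LD n A 0 → A 0 ∈ K → ∃ κ ρ : ℝ, 1 ≤ κ ∧ 0 < ρ ∧
      ∀ p q, ‖p‖ < ρ → ‖q‖ < ρ →
        d (A p) (A q) ≤ κ * ‖p - q‖ ∧ ‖p - q‖ ≤ κ * d (A p) (A q) := by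
  classical
  have f : ∀ x : X, SmoothBumpFunction (𝓡 n) x := fun x => Classical.choice inferInstance
  have hV : ∀ x, ∃ V : Set X, IsOpen V ∧ x ∈ V ∧
      ∀ y ∈ V, f x y = 1 ∧ y ∈ (chartAt (E n) x).source := by
    intro x
    have h1 : ∀ᶠ y in 𝓝 x, f x y = 1 ∧ y ∈ (chartAt (E n) x).source :=
      (f x).eventuallyEq_one.and ((chartAt (E n) x).open_source.mem_nhds (mem_chart_source _ _))
    obtain ⟨V, hV, hVo, hx⟩ := _root_.eventually_nhds_iff.1 h1
    exact ⟨V, hVo, hx, hV⟩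
  choose V hVo hVx hVf using hV
  obtain ⟨t, ht⟩ := hK.elim_finite_subcover V hVo (fun x _ => mem_iUnion.2 ⟨x, hVx x⟩)
  obtain ⟨e, he⟩ : ∃ e : X → (t → E n), e = fun y (i : t) => f i y • chartAt (E n) (i : X) y := ⟨_, rfl⟩
  have hes : ContMDiff (𝓡 n) 𝓘(ℝ, t → E n) ∞ e := by
    rw [he, contMDiff_pi_space]
    intro i
    exact (f i).contMDiff_smul contMDiffOn_chart
  refine ⟨fun x y => ‖e x - e y‖, fun A hA hAK => ?_⟩
  have hg : ContDiffAt ℝ ∞ (fun z => e (A z)) 0 := by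
    have h1 : ContMDiffAt (𝓡 n) 𝓘(ℝ, t → E n) ∞ (e ∘ A) 0 :=
      hes.contMDiffAt.comp 0 hA.contMDiffAt
    exact contMDiffAt_iff_contDiffAt.1 h1
  obtain ⟨x, hxt, hxV⟩ : ∃ x, ∃ h : x ∈ t, A 0 ∈ V x := by
    obtain ⟨i, hi⟩ := mem_iUnion.1 (ht hAK)
    obtain ⟨hi1, hi2⟩ := mem_iUnion.1 hi
    exact ⟨i, hi1, hi2⟩
  have hDinj : Injective (fderiv ℝ (fun z => e (A z)) 0) := by
    obtain ⟨c, hc⟩ : ∃ c, c = chartAt (E n) x := ⟨_, rfl⟩
    have hc1 : ContMDiffOn (𝓡 n) (𝓡 n) ∞ c c.source := by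
      rw [hc]
      exact contMDiffOn_chart
    have hc2 : ContMDiffOn (𝓡 n) (𝓡 n) ∞ c.symm c.target := by
      rw [hc]
      exact contMDiffOn_chart_symm
    have hs : A 0 ∈ c.source := by rw [hc]; exact (hVf x _ hxV).2
    have hLc : LD n (fun z => c z) (A 0) :=
      ⟨{ toPartialEquiv := c.toPartialEquiv
         open_source := c.open_source
         open_target := c.open_target
         contMDiffOn_toFun := hc1
         contMDiffOn_invFun := hc2 }, hs, fun _ _ => rfl⟩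
    have hcomp : LD n (fun z => c (A z)) 0 := hLc.comp_fun hA
    have hi1 : Injective (mfderiv (𝓡 n) (𝓡 n) (fun z => c (A z)) 0) := hcomp.mfderiv_injective
    have e1 : (fun z => e (A z) ⟨x, hxt⟩) =ᶠ[𝓝 0] fun z => c (A z) := by
      filter_upwards [hA.continuousAt.preimage_mem_nhds ((hVo x).mem_nhds hxV)] with z hz
      rw [he]
      show f x (A z) • chartAt (E n) x (A z) = c (A z)
      rw [(hVf x _ hz).1, one_smul, hc]
    have e2 : fderiv ℝ (fun z => e (A z) ⟨x, hxt⟩) 0 = fderiv ℝ (fun z => c (A z)) 0 :=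
      e1.fderiv_eq
    have e3 : fderiv ℝ (fun z => e (A z) ⟨x, hxt⟩) 0 =
        (ContinuousLinearMap.proj (R := ℝ) (φ := fun _ : t => E n) ⟨x, hxt⟩).comp
          (fderiv ℝ (fun z => e (A z)) 0) := by
      have h1 := (ContinuousLinearMap.proj (R := ℝ) (φ := fun _ : t => E n)
        ⟨x, hxt⟩).hasFDerivAt.comp (x := 0) (hg.differentiableAt (by simp)).hasFDerivAt
      exact h1.fderiv
    intro v w hvw
    apply hi1
    have e4 : mfderiv (𝓡 n) (𝓡 n) (fun z => c (A z)) 0 = fderiv ℝ (fun z => c (A z)) 0 :=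
      mfderiv_eq_fderiv
    rw [e4, ← e2, e3]
    exact congrArg (fun u : t → E n => u ⟨x, hxt⟩) hvw
  obtain ⟨c, hc, hcl⟩ := exists_lower (fderiv ℝ (fun z => e (A z)) 0).toLinearMap hDinj
  obtain ⟨D, hD⟩ : ∃ D, D = fderiv ℝ (fun z => e (A z)) 0 := ⟨_, rfl⟩
  have hcl' : ∀ v, c * ‖v‖ ≤ ‖D v‖ := fun v => by rw [hD]; exact hcl v
  have hst : HasStrictFDerivAt (fun z => e (A z)) D 0 := by
    rw [hD]
    exact hg.hasStrictFDerivAt (by simp)
  have e2 : ∀ᶠ z : E n × E n in 𝓝 (0, 0),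
      ‖e (A z.1) - e (A z.2) - D (z.1 - z.2)‖ ≤ c / 2 * ‖z.1 - z.2‖ :=
    hst.isLittleO.def (by positivity)
  rw [nhds_prod_eq, Filter.eventually_prod_self_iff'] at e2
  obtain ⟨t, ht, htt⟩ := e2
  obtain ⟨ρ, hρ, hb⟩ := Metric.mem_nhds_iff.1 ht
  refine ⟨max 1 (max (2 / c) (‖D‖ + c / 2)), ρ, le_max_left _ _, hρ, fun p q hp hq => ?_⟩
  have h1 := htt p (hb (mem_ball_zero_iff.2 hp)) q (hb (mem_ball_zero_iff.2 hq))
  have h2 := hcl' (p - q)
  have h3 : ‖D (p - q)‖ ≤ ‖D‖ * ‖p - q‖ := D.le_opNorm _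
  have h4 : ‖e (A p) - e (A q)‖ ≤ ‖D (p - q)‖ + c / 2 * ‖p - q‖ := by
    calc ‖e (A p) - e (A q)‖ = ‖D (p - q) + (e (A p) - e (A q) - D (p - q))‖ := by
          congr 1; abel
      _ ≤ _ := (norm_add_le _ _).trans (by gcongr)
  have h5 : ‖D (p - q)‖ ≤ ‖e (A p) - e (A q)‖ + c / 2 * ‖p - q‖ := by
    calc ‖D (p - q)‖ = ‖(e (A p) - e (A q)) - (e (A p) - e (A q) - D (p - q))‖ := by
          congr 1; abel
      _ ≤ _ := (norm_sub_le _ _).trans (by gcongr)
  have hn := norm_nonneg (p - q)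
  constructor
  · calc ‖e (A p) - e (A q)‖ ≤ (‖D‖ + c / 2) * ‖p - q‖ := by linarith
      _ ≤ _ := by
        gcongr
        exact (le_max_right _ _).trans (le_max_right _ _)
  · calc ‖p - q‖ ≤ 2 / c * ‖e (A p) - e (A q)‖ := by
          rw [div_mul_eq_mul_div, le_div_iff₀ hc]
          linarith
      _ ≤ _ := by
        gcongr
        exact (le_max_left _ _).trans (le_max_right _ _)

end Pool.Agent.N824.CJ
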