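import Pool.Agent.N824.CJ.Symp
import Pool.Agent.N824.CN.Proj

/-!
# Smooth maps are affine in the mean
-/

set_option autoImplicit false
set_option maxSynthPendingDepth 3

open Set Filter Topology Metric Function MeasureTheory
open scoped Manifold ContDiff Convolution

set_option linter.unusedSectionVars false

noncomputable section

namespace Pool.Agent.N824.CJ

open Pool.Agent.Y522 Pool.Agent.Y954.SH Pool.Agent.N824.CR Pool.Agent.N824.CN
open Pool.Agent.Y501.SY (Form IsSmooth IsD IsClosedForm pb dfdg fdg dd SmoothFun End inChart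
  IsAlmostComplex TamesAt)

variable {n : ℕ} {X : Type} [TopologicalSpace X] [ChartedSpace (E n) X]

/-- an injective linear map is bounded below -/
theorem exists_lower {V W : Type} [NormedAddCommGroup V] [NormedSpace ℝ V] [FiniteDimensional ℝ V]
    [NormedAddCommGroup W] [NormedSpace ℝ W] (D : V →ₗ[ℝ] W) (h : Injective D) :
    ∃ c : ℝ, 0 < c ∧ ∀ v, c * ‖v‖ ≤ ‖D v‖ := by
  obtain ⟨K, hK, hD⟩ := D.exists_antilipschitzWith (LinearMap.ker_eq_bot.2 h)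
  refine ⟨(K : ℝ)⁻¹, by positivity, fun v => ?_⟩
  have h1 := hD.le_mul_dist v 0
  rw [map_zero, dist_zero_right, dist_zero_right] at h1
  rw [inv_mul_le_iff₀ (by positivity)]
  exact h1

/-- a distance for which all smooth parametrizations are bi-Lipschitz -/
theorem exists_dist [T2Space X] [CompactSpace X] [IsManifold (𝓡 n) ∞ X] :
    ∃ d : X → X → ℝ, ∀ A : E n → X, LD n A 0 → ∃ κ ρ : ℝ, 1 ≤ κ ∧ 0 < ρ ∧
      ∀ p q, ‖p‖ < ρ → ‖q‖ < ρ →
        d (A p) (A q) ≤ κ * ‖p - q‖ ∧ ‖p - q‖ ≤ κ * d (A p) (A q) := by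
  obtain ⟨M, e, he, -, hinj⟩ := exists_embedding_euclidean_of_compact (I := 𝓡 n) (M := X)
  refine ⟨fun x y => ‖e x - e y‖, fun A hA => ?_⟩
  have hg : ContDiffAt ℝ ∞ (fun z => e (A z)) 0 := by
    have h1 : ContMDiffAt (𝓡 n) (𝓡 M) ∞ (e ∘ A) 0 := he.contMDiffAt.comp 0 hA.contMDiffAt
    exact contMDiffAt_iff_contDiffAt.1 h1
  have hDinj : Injective (fderiv ℝ (fun z => e (A z)) 0) := by
    have h1 : mfderiv (𝓡 n) (𝓡 M) (e ∘ A) 0 =
        (mfderiv (𝓡 n) (𝓡 M) e (A 0)).comp (mfderiv (𝓡 n) (𝓡 n) A 0) :=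
      mfderiv_comp 0 (he.mdifferentiableAt (by simp)) hA.mdifferentiableAt
    have h2 : fderiv ℝ (fun z => e (A z)) 0 = mfderiv (𝓡 n) (𝓡 M) (e ∘ A) 0 :=
      mfderiv_eq_fderiv.symm
    rw [h2, h1]
    intro v w hvw
    exact hA.mfderiv_injective (hinj (A 0) hvw)
  obtain ⟨c, hc, hcl⟩ := exists_lower (fderiv ℝ (fun z => e (A z)) 0).toLinearMap hDinj
  obtain ⟨D, hD⟩ : ∃ D, D = fderiv ℝ (fun z => e (A z)) 0 := ⟨_, rfl⟩
  have hcl' : ∀ v, c * ‖v‖ ≤ ‖D v‖ := fun v => by rw [hD]; exact hcl v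
  have hst : HasStrictFDerivAt (fun z => e (A z)) D 0 := by
    rw [hD]
    exact hg.hasStrictFDerivAt (by simp)
  have e2 : ∀ᶠ z : E n × E n in 𝓝 (0, 0),
      ‖e (A z.1) - e (A z.2) - D (z.1 - z.2)‖ ≤ c / 2 * ‖z.1 - z.2‖ :=
    hst.isLittleO.def (by positivity)
  rw [nhds_prod_eq, Filter.eventually_prod_self_iff'] at e2
  obtain ⟨t, ht, htt⟩ := e2
  obtain ⟨ρ, hρ, hb⟩ := Metric.mem_nhds_iff.1 ht
  refine ⟨max 1 (max (2 / c) (‖D‖ + c / 2)), ρ, le_max_left _ _, hρ, fun p q hp hq => ?_⟩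
  have h1 := htt p (hb (mem_ball_zero_iff.2 hp)) q (hb (mem_ball_zero_iff.2 hq))
  have h2 := hcl' (p - q)
  have h3 : ‖D (p - q)‖ ≤ ‖D‖ * ‖p - q‖ := D.le_opNorm _
  have h4 : ‖e (A p) - e (A q)‖ ≤ ‖D (p - q)‖ + c / 2 * ‖p - q‖ := by
    calc ‖e (A p) - e (A q)‖ = ‖D (p - q) + (e (A p) - e (A q) - D (p - q))‖ := by
          congr 1; abel
      _ ≤ _ := (norm_add_le _ _).trans (by gcongr)
  have h5 : ‖D (p - q)‖ ≤ ‖e (A p) - e (A q)‖ + c / 2 * ‖p - q‖ := by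
    calc ‖D (p - q)‖ = ‖(e (A p) - e (A q)) - (e (A p) - e (A q) - D (p - q))‖ := by
          congr 1; abel
      _ ≤ _ := (norm_sub_le _ _).trans (by gcongr)
  have hn := norm_nonneg (p - q)
  constructor
  · calc ‖e (A p) - e (A q)‖ ≤ (‖D‖ + c / 2) * ‖p - q‖ := by linarith
      _ ≤ _ := by
        gcongr
        exact (le_max_right _ _).trans (le_max_right _ _)
  · calc ‖p - q‖ ≤ 2 / c * ‖e (A p) - e (A q)‖ := by
          rw [div_mul_eq_mul_div, le_div_iff₀ hc]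
          linarith
      _ ≤ _ := by
        gcongr
        exact (le_max_left _ _).trans (le_max_right _ _)

/-- smooth maps are affine in the mean -/
theorem conv_core [IsManifold (𝓡 n) ∞ X] {N : ℕ} (C : ℝ) (ω₀ : Form n X 2)
    {F : X → Fin N → ℝ × ℝ} (hF : ∀ x, ContMDiffAt (𝓡 n) 𝓘(ℝ, Fin N → ℝ × ℝ) ∞ F x)
    (T : Rel n X) {A : E n → X} (hA : LD n A 0) {κ : ℝ} (hκ : 1 ≤ κ) {m ρ₀ : ℝ} (hm : 0 < m)
    (hρ₀ : 0 < ρ₀)
    (hpos : ∀ p, ‖p‖ < ρ₀ → ∀ v : E n, v ≠ 0 → ∃ w : E n,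
      T (A p) (mfderiv (𝓡 n) (𝓡 n) A p v) (mfderiv (𝓡 n) (𝓡 n) A p w) ∧
      m * (‖v‖ * ‖w‖) <
        pb A (ω₀ + ∑ j, dfdg (d := n) (fun x => (F x j).1) (fun x => (F x j).2)) p ![v, w]) :
    ∃ (ρ : ℝ) (τ : ℝ → ℝ), 0 < ρ ∧ Tendsto τ (𝓝[>] 0) (𝓝 0) ∧
      ∀ p, ‖p‖ < ρ → ∀ r, 0 < r → r < ρ → ∃ (L : E n →L[ℝ] (Fin N → ℝ × ℝ)) (δ : ℝ), 0 ≤ δ ∧
        ‖L‖ * r ≤ δ * τ r ∧ AM n (fun z => F (A z)) p κ r δ L ∧ QS n N C ω₀ T A p L κ δ := by
  obtain ⟨h, hh⟩ : ∃ h : E n → Fin N → ℝ × ℝ, h = fun z => F (A z) := ⟨_, rfl⟩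
  have hsm : ∀ᶠ p in 𝓝 (0 : E n), LD n A p ∧ ContDiffAt ℝ ∞ h p := by
    filter_upwards [hA.eventually] with p hp
    refine ⟨hp, ?_⟩
    have h1 : ContMDiffAt (𝓡 n) 𝓘(ℝ, Fin N → ℝ × ℝ) ∞ (F ∘ A) p := (hF (A p)).comp p hp.contMDiffAt
    rw [hh]
    exact contMDiffAt_iff_contDiffAt.1 h1
  obtain ⟨ρ2, hρ2, hb2⟩ := Metric.mem_nhds_iff.1 hsm
  obtain ⟨ρ1, Cq, hρ1, hCq, hd1, hq1⟩ := quad_ballW hsm.self_of_nhds.2 one_pos
  obtain ⟨Bd, hBd⟩ : ∃ Bd, Bd = ‖fderiv ℝ h 0‖ + 1 := ⟨_, rfl⟩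
  have hBd0 : 0 ≤ Bd := by rw [hBd]; positivity
  obtain ⟨Cd, hCd⟩ : ∃ Cd, Cd = Cq * κ ^ (2 * n + 4) * VB n + Bd := ⟨_, rfl⟩
  have hVB := VB_nonneg (n := n)
  have hCd0 : 0 ≤ Cd := by rw [hCd]; positivity
  have hsq : Tendsto Real.sqrt (𝓝[>] 0) (𝓝 0) := by
    have h1 : Tendsto Real.sqrt (𝓝 0) (𝓝 (Real.sqrt 0)) := Real.continuous_sqrt.continuousAt
    rw [Real.sqrt_zero] at h1
    exact h1.mono_left nhdsWithin_le_nhds
  have hlim : Tendsto (fun r : ℝ => |C| * κ ^ (4 * n + 4) * ((Cd * Real.sqrt r) *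
      (Bd + Cd * Real.sqrt r))) (𝓝 0) (𝓝 0) := by
    have h1 : Continuous (fun r : ℝ => |C| * κ ^ (4 * n + 4) * ((Cd * Real.sqrt r) *
      (Bd + Cd * Real.sqrt r))) := by fun_prop
    have h2 := h1.tendsto 0
    simpa using h2
  obtain ⟨ρ3, hρ3, hb3⟩ := Metric.mem_nhds_iff.1 (hlim.eventually_lt_const hm)
  have hκ2 : 0 < 1 + κ ^ 2 := by positivity
  obtain ⟨ρ, hρ⟩ : ∃ ρ, ρ = min (min ρ₀ 1) (min ρ3 (min ρ1 ρ2 / (1 + κ ^ 2))) := ⟨_, rfl⟩
  have hρ0 : 0 < ρ := by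
    rw [hρ]
    have : 0 < min ρ1 ρ2 := lt_min hρ1 hρ2
    exact lt_min (lt_min hρ₀ one_pos) (lt_min hρ3 (by positivity))
  have c1 : ρ ≤ ρ₀ := by rw [hρ]; exact (min_le_left _ _).trans (min_le_left _ _)
  have c2 : ρ ≤ 1 := by rw [hρ]; exact (min_le_left _ _).trans (min_le_right _ _)
  have c3 : ρ ≤ ρ3 := by rw [hρ]; exact (min_le_right _ _).trans (min_le_left _ _)
  have c4 : ρ * (1 + κ ^ 2) ≤ min ρ1 ρ2 := by
    have : ρ ≤ min ρ1 ρ2 / (1 + κ ^ 2) := by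
      rw [hρ]; exact (min_le_right _ _).trans (min_le_right _ _)
    rwa [le_div_iff₀ hκ2] at this
  refine ⟨ρ, Real.sqrt, hρ0, hsq, fun p hp r hr hrρ => ?_⟩
  have hball : ∀ q, ‖q - p‖ ≤ κ ^ 2 * r → ‖q‖ < min ρ1 ρ2 := by
    intro q hq
    have h1 : κ ^ 2 * r ≤ κ ^ 2 * ρ := by gcongr
    calc ‖q‖ = ‖(q - p) + p‖ := by congr 1; abel
      _ ≤ ‖q - p‖ + ‖p‖ := norm_add_le _ _
      _ < ρ * (1 + κ ^ 2) := by nlinarith
      _ ≤ _ := c4
  have hs0 : 0 < Real.sqrt r := Real.sqrt_pos.2 hr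
  have hss : Real.sqrt r * Real.sqrt r = r := Real.mul_self_sqrt hr.le
  have hsr : r ≤ Real.sqrt r := by
    have h1 : Real.sqrt r ≤ 1 := Real.sqrt_le_one.2 (by linarith)
    nlinarith
  have hpp : ‖p‖ < min ρ1 ρ2 := hball p (by simp; positivity)
  have hL : ‖fderiv ℝ h p‖ ≤ Bd := by
    have h1 := hd1 p (by
      rw [sub_zero]
      exact hpp.trans_le (min_le_left _ _))
    rw [hBd]
    calc ‖fderiv ℝ h p‖ = ‖(fderiv ℝ h p - fderiv ℝ h 0) + fderiv ℝ h 0‖ := by congr 1; abel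
      _ ≤ _ := (norm_add_le _ _).trans (by linarith)
  refine ⟨fderiv ℝ h p, Cd * Real.sqrt r, by positivity, ?_, ⟨?_, h p, ?_⟩, ?_⟩
  · calc ‖fderiv ℝ h p‖ * r ≤ Cd * r := by
          gcongr
          rw [hCd]
          have : 0 ≤ Cq * κ ^ (2 * n + 4) * VB n := by positivity
          linarith
      _ = Cd * Real.sqrt r * Real.sqrt r := by rw [mul_assoc, hss]
  · rw [← hh]
    refine ContinuousOn.integrableOn_compact (isCompact_closedBall _ _) fun q hq => ?_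
    rw [mem_closedBall, dist_eq_norm] at hq
    exact (hb2 (mem_ball_zero_iff.2 ((hball q hq).trans_le
      (min_le_right _ _)))).2.continuousAt.continuousWithinAt
  · have hk : 0 < κ ^ 2 * r := by positivity
    have h1 : ∀ q, ‖q - p‖ ≤ κ ^ 2 * r →
        ‖h q - h p - fderiv ℝ h p (q - p)‖ ≤ Cq * (κ ^ 2 * r) * (κ ^ 2 * r) := by
      intro q hq
      refine (hq1 p (κ ^ 2 * r) (fun q hq => ?_) q hq).trans ?_
      · rw [sub_zero]
        exact (hball q hq).trans_le (min_le_left _ _)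
      · gcongr
    have h2 : ∫ q in closedBall p (κ ^ 2 * r), ‖h q - h p - fderiv ℝ h p (q - p)‖ ≤
        Cq * (κ ^ 2 * r) * (κ ^ 2 * r) * ((κ ^ 2 * r) ^ n * VB n) := by
      have h3 : ‖∫ q in closedBall p (κ ^ 2 * r), ‖h q - h p - fderiv ℝ h p (q - p)‖‖ ≤
          Cq * (κ ^ 2 * r) * (κ ^ 2 * r) *
            (volume : Measure (E n)).real (closedBall p (κ ^ 2 * r)) := by
        refine norm_setIntegral_le_of_norm_le_const measure_closedBall_lt_top fun q hq => ?_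
        rw [mem_closedBall, dist_eq_norm] at hq
        rw [norm_norm]
        exact h1 q hq
      rw [vol_cb p hk] at h3
      exact (le_abs_self _).trans h3
    rw [← hh]
    refine h2.trans ?_
    have e1 : Cq * (κ ^ 2 * r) * (κ ^ 2 * r) * ((κ ^ 2 * r) ^ n * VB n) =
        (Cq * κ ^ (2 * n + 4) * VB n) * r * r ^ (n + 1) := by
      rw [mul_pow, ← pow_mul, pow_succ, pow_add]
      ring
    rw [e1]
    have h5 : Cq * κ ^ (2 * n + 4) * VB n ≤ Cd := by rw [hCd]; linarith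
    gcongr
  · intro v hv
    obtain ⟨w, hT, hw⟩ := hpos p (hp.trans_le c1) v hv
    refine ⟨w, hT, ?_⟩
    have hAp := (hb2 (mem_ball_zero_iff.2 (hpp.trans_le (min_le_right _ _)))).1
    rw [Pool.Agent.Y501.SY.pb_add, Pi.add_apply, ContinuousAlternatingMap.add_apply,
      pb_std hF hAp v w, ← hh] at hw
    refine lt_of_le_of_lt ?_ hw
    have h1 := hb3 (mem_ball_zero_iff.2 (by
      rw [Real.norm_of_nonneg hr.le]
      exact hrρ.trans_le c3))
    have h2 : |C| * κ ^ (4 * n + 4) * (Cd * Real.sqrt r * (Bd + Cd * Real.sqrt r)) < m := h1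
    have h3 : C * κ ^ (4 * n + 4) * (Cd * Real.sqrt r * (‖fderiv ℝ h p‖ + Cd * Real.sqrt r)) ≤
        m := by
      refine le_trans ?_ h2.le
      have := le_abs_self C
      gcongr
    gcongr

lemma upd1 (v w x : E n) : update ![v, w] 1 x = ![v, x] := by
  funext i
  fin_cases i <;> rfl

lemma upd0 (v w x : E n) : update ![v, w] 0 x = ![x, w] := by
  funext i
  fin_cases i <;> rfl

/-- a nondegenerate form is uniformly nondegenerate -/
theorem unif {β : E n [⋀^Fin 2]→L[ℝ] ℝ} (h : ∀ v : E n, v ≠ 0 → ∃ w : E n, 0 < β ![v, w]) :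
    ∃ m : ℝ, 0 < m ∧ ∀ v : E n, v ≠ 0 → ∃ w : E n, m * (‖v‖ * ‖w‖) < β ![v, w] := by
  obtain ⟨Λ, hΛ⟩ : ∃ Λ : E n →ₗ[ℝ] (E n →L[ℝ] ℝ), ∀ v w, Λ v w = β ![v, w] := by
    refine ⟨?_, ?_⟩
    · refine
        { toFun := fun v => LinearMap.toContinuousLinearMap
            { toFun := fun w => β ![v, w]
              map_add' := fun w w' => ?_
              map_smul' := fun c w => ?_ }
          map_add' := fun v v' => ?_
          map_smul' := fun c v => ?_ }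
      · have h1 := β.map_update_add ![v, w] 1 w w'
        rwa [upd1, upd1, upd1] at h1
      · have h1 := β.map_update_smul ![v, w] 1 c w
        rwa [upd1, upd1] at h1
      · ext w
        have h1 := β.map_update_add ![v, w] 0 v v'
        rwa [upd0, upd0, upd0] at h1
      · ext w
        have h1 := β.map_update_smul ![v, w] 0 c v
        rwa [upd0, upd0] at h1
    · intro v w
      rfl
  have hinj : Injective Λ := by
    rw [← LinearMap.ker_eq_bot, LinearMap.ker_eq_bot']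
    intro v hv
    by_contra hv0
    obtain ⟨w, hw⟩ := h v hv0
    rw [← hΛ, hv] at hw
    simp at hw
  obtain ⟨c, hc, hcl⟩ := exists_lower Λ hinj
  refine ⟨c / 2, by positivity, fun v hv => ?_⟩
  have hvn : 0 < ‖v‖ := norm_pos_iff.2 hv
  by_contra hcon
  push Not at hcon
  have h1 : ‖Λ v‖ ≤ c / 2 * ‖v‖ := by
    refine ContinuousLinearMap.opNorm_le_bound _ (by positivity) fun w => ?_
    rw [Real.norm_eq_abs, abs_le]
    have h2 := hcon w
    have h3 := hcon (-w)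
    rw [← hΛ] at h2 h3
    rw [map_neg, norm_neg] at h3
    constructor
    · nlinarith
    · nlinarith
  have h2 := hcl v
  nlinarith

theorem pb_contAt {σ : Form n X 2} (hσ : IsSmooth σ) {A : E n → X} (hA : LD n A 0) :
    ContinuousAt (pb A σ) 0 := by
  obtain ⟨U, hU, hUo, hpU⟩ := _root_.eventually_nhds_iff.1 hA.eventually
  have hAU : ContMDiffOn (𝓡 n) (𝓡 n) ∞ A U := fun z hz =>
    (hU z hz).contMDiffAt.contMDiffWithinAt
  exact ((hσ U A hUo hAU).continuousOn).continuousAt (hUo.mem_nhds hpU)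

lemma alt_bound (β : E n [⋀^Fin 2]→L[ℝ] ℝ) (v w : E n) : |β ![v, w]| ≤ ‖β‖ * (‖v‖ * ‖w‖) := by
  have h := β.le_opNorm ![v, w]
  rw [Real.norm_eq_abs] at h
  simpa [Fin.prod_univ_two] using h

/-- nondegenerate forms are uniformly nondegenerate near a point -/
theorem pos_top {σ : Form n X 2} (hσ : IsSmooth σ) {A : E n → X} (hA : LD n A 0)
    (h : ∀ (x : X) (v : TangentSpace (𝓡 n) x), v ≠ 0 → ∃ w : TangentSpace (𝓡 n) x,
      0 < σ x ![v, w]) [IsManifold (𝓡 n) ∞ X] :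
    ∃ m ρ : ℝ, 0 < m ∧ 0 < ρ ∧ ∀ p, ‖p‖ < ρ → ∀ v : E n, v ≠ 0 → ∃ w : E n,
      True ∧ m * (‖v‖ * ‖w‖) < pb A σ p ![v, w] := by
  have h0 : ∀ v : E n, v ≠ 0 → ∃ w : E n, 0 < pb A σ 0 ![v, w] := by
    intro v hv
    have hv' : mfderiv (𝓡 n) (𝓡 n) A 0 v ≠ 0 := by
      intro h1
      apply hv
      apply hA.mfderiv_injective
      exact h1.trans (ContinuousLinearMap.map_zero _).symm
    obtain ⟨w', hw'⟩ := h (A 0) _ hv'
    obtain ⟨w, rfl⟩ : ∃ w : E n, mfderiv (𝓡 n) (𝓡 n) A 0 w = w' := by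
      have h := hA.mfderivToContinuousLinearEquiv_coe (by simp)
      refine ⟨(hA.mfderivToContinuousLinearEquiv (by simp)).symm w', ?_⟩
      rw [← h]
      exact (hA.mfderivToContinuousLinearEquiv (by simp)).apply_symm_apply w'
    refine ⟨w, ?_⟩
    have e2 : (fun i => mfderiv (𝓡 n) (𝓡 n) A 0 ((![v, w] : Fin 2 → E n) i)) =
        ![mfderiv (𝓡 n) (𝓡 n) A 0 v, mfderiv (𝓡 n) (𝓡 n) A 0 w] := by
      funext i
      fin_cases i <;> rfl
    rw [← e2] at hw'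
    exact hw'
  obtain ⟨m, hm, hmw⟩ := unif h0
  have hc := pb_contAt hσ hA
  have h1 : ∀ᶠ p in 𝓝 (0 : E n), ‖pb A σ p - pb A σ 0‖ < m / 2 := by
    have h2 : Tendsto (fun p => ‖pb A σ p - pb A σ 0‖) (𝓝 0) (𝓝 ‖pb A σ 0 - pb A σ 0‖) :=
      (hc.sub continuousAt_const).norm
    rw [sub_self, norm_zero] at h2
    exact h2.eventually_lt_const (by positivity)
  obtain ⟨ρ, hρ, hb⟩ := Metric.mem_nhds_iff.1 h1
  refine ⟨m / 2, ρ, by positivity, hρ, fun p hp v hv => ?_⟩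
  obtain ⟨w, hw⟩ := hmw v hv
  refine ⟨w, trivial, ?_⟩
  have h2 : ‖pb A σ p - pb A σ 0‖ < m / 2 := hb (mem_ball_zero_iff.2 hp)
  have h3 := alt_bound (pb A σ p - pb A σ 0) v w
  have h4 : (pb A σ p - pb A σ 0) ![v, w] = pb A σ p ![v, w] - pb A σ 0 ![v, w] := rfl
  rw [h4] at h3
  have h5 := (abs_le.1 h3).1
  have h6 : ‖pb A σ p - pb A σ 0‖ * (‖v‖ * ‖w‖) ≤ m / 2 * (‖v‖ * ‖w‖) := by gcongr
  linarith

/-- the parametrization given by the chart at `x` -/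
def par (n : ℕ) {X : Type} [TopologicalSpace X] [ChartedSpace (E n) X] (x : X) (z : E n) : X :=
  (chartAt (E n) x).symm (z + chartAt (E n) x x)

theorem par_zero (x : X) : par n x 0 = x := by
  unfold par
  rw [zero_add]
  exact (chartAt (E n) x).left_inv (mem_chart_source _ _)

theorem par_LD [IsManifold (𝓡 n) ∞ X] (x : X) : LD n (par n x) 0 := by
  obtain ⟨c, hc⟩ : ∃ c, c = chartAt (E n) x := ⟨_, rfl⟩
  have hcs : x ∈ c.source := by rw [hc]; exact mem_chart_source _ _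
  have hc1 : ContMDiffOn (𝓡 n) (𝓡 n) ∞ c c.source := by
    rw [hc]
    exact contMDiffOn_chart
  have hc2 : ContMDiffOn (𝓡 n) (𝓡 n) ∞ c.symm c.target := by
    rw [hc]
    exact contMDiffOn_chart_symm
  have hLc : LD n (fun z => c.symm z) (c x) :=
    ⟨{ toPartialEquiv := c.symm.toPartialEquiv
       open_source := c.symm.open_source
       open_target := c.symm.open_target
       contMDiffOn_toFun := hc2
       contMDiffOn_invFun := hc1 }, c.map_source hcs, fun _ _ => rfl⟩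
  have h1 : LD n (fun z => c.symm (z + c x)) 0 := by
    refine LD.comp_fun (g := fun z => c.symm z) (f := fun z => z + c x) ?_ (LD_add_const _ _)
    rw [zero_add]
    exact hLc
  rw [hc] at h1
  exact h1

/-- the derivative of the parametrization intertwines `J` and its local expression -/
theorem par_J [IsManifold (𝓡 n) ∞ X] (J : End n X) (x : X) {p : E n}
    (hp : p + chartAt (E n) x x ∈ (chartAt (E n) x).target) (v : E n) :
    mfderiv (𝓡 n) (𝓡 n) (par n x) p (inChart J x (p + chartAt (E n) x x) v) =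
      J (par n x p) (mfderiv (𝓡 n) (𝓡 n) (par n x) p v) := by
  obtain ⟨c, hc⟩ : ∃ c, c = chartAt (E n) x := ⟨_, rfl⟩
  obtain ⟨q, hq⟩ : ∃ q, q = p + c x := ⟨_, rfl⟩
  have hc2 : ContMDiffOn (𝓡 n) (𝓡 n) ∞ c.symm c.target := by
    rw [hc]
    exact contMDiffOn_chart_symm
  have hc1 : ContMDiffOn (𝓡 n) (𝓡 n) ∞ c c.source := by
    rw [hc]
    exact contMDiffOn_chart
  have hqt : q ∈ c.target := by rw [hq, hc]; exact hp
  have hd2 : MDifferentiableAt (𝓡 n) (𝓡 n) c.symm q :=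
    ((hc2 q hqt).contMDiffAt (c.open_target.mem_nhds hqt)).mdifferentiableAt (by simp)
  have hqs : c.symm q ∈ c.source := c.map_target hqt
  have hd1 : MDifferentiableAt (𝓡 n) (𝓡 n) c (c.symm q) :=
    ((hc1 _ hqs).contMDiffAt (c.open_source.mem_nhds hqs)).mdifferentiableAt (by simp)
  have ht : HasMFDerivAt (𝓡 n) (𝓡 n) (fun z : E n => z + c x) p
      (ContinuousLinearMap.id ℝ (E n)) :=
    ((hasFDerivAt_id p).add_const (c x)).hasMFDerivAt
  have hder : ∀ u : E n, mfderiv (𝓡 n) (𝓡 n) (par n x) p u =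
      mfderiv (𝓡 n) (𝓡 n) c.symm q u := by
    intro u
    have h1 : HasMFDerivAt (𝓡 n) (𝓡 n) c.symm (p + c x) (mfderiv (𝓡 n) (𝓡 n) c.symm (p + c x)) := by
      rw [← hq]
      exact hd2.hasMFDerivAt
    have h2 := (HasMFDerivAt.comp p h1 ht).mfderiv
    have h3 : par n x = c.symm ∘ fun z : E n => z + c x := by
      funext z
      rw [hc]
      rfl
    rw [h3, h2, ← hq]
    rfl
  have hp' : par n x p = c.symm q := by rw [hc, hq, hc]; rfl
  have hcomp : ∀ u : TangentSpace (𝓡 n) (c.symm q), mfderiv (𝓡 n) (𝓡 n) c.symm q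
      (mfderiv (𝓡 n) (𝓡 n) c (c.symm q) u) = u := by
    intro u
    have h1 : HasMFDerivAt (𝓡 n) (𝓡 n) c.symm (c (c.symm q))
        (mfderiv (𝓡 n) (𝓡 n) c.symm q) := by
      rw [c.right_inv hqt]
      exact hd2.hasMFDerivAt
    have h2 := HasMFDerivAt.comp (c.symm q) h1 hd1.hasMFDerivAt
    have h3 : HasMFDerivAt (𝓡 n) (𝓡 n) (c.symm ∘ c) (c.symm q)
        (ContinuousLinearMap.id ℝ (TangentSpace (𝓡 n) (c.symm q))) := by
      refine (hasMFDerivAt_id (c.symm q)).congr_of_eventuallyEq ?_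
      filter_upwards [c.open_source.mem_nhds hqs] with y hy
      exact c.left_inv hy
    have h4 := h2.mfderiv.symm.trans h3.mfderiv
    exact congrArg (fun L => L u) h4
  subst hc
  subst hq
  exact (hder _).trans ((hcomp _).trans
    (congrArg (J ((chartAt (E n) x).symm (p + chartAt (E n) x x))) (hder v).symm))

/-- taming forms are uniformly taming near a point -/
theorem pos_J [IsManifold (𝓡 n) ∞ X] {σ : Form n X 2} (hσ : IsSmooth σ) {J : End n X}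
    (hJ : IsAlmostComplex J) (x : X) (h : TamesAt σ J x) :
    ∃ m ρ : ℝ, 0 < m ∧ 0 < ρ ∧ ∀ p, ‖p‖ < ρ → ∀ v : E n, v ≠ 0 → ∃ w : E n,
      mfderiv (𝓡 n) (𝓡 n) (par n x) p w = J (par n x p) (mfderiv (𝓡 n) (𝓡 n) (par n x) p v) ∧
      m * (‖v‖ * ‖w‖) < pb (par n x) σ p ![v, w] := by
  obtain ⟨Jp, hJp⟩ : ∃ Jp : E n → E n →L[ℝ] E n, Jp = fun p =>
    inChart J x (p + chartAt (E n) x x) := ⟨_, rfl⟩
  have hA := par_LD (n := n) x
  have hct : chartAt (E n) x x ∈ (chartAt (E n) x).target := mem_chart_target _ _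
  have hcJ : ContinuousAt Jp 0 := by
    have h1 : ContinuousAt (inChart J x) (0 + chartAt (E n) x x) := by
      rw [zero_add]
      exact (hJ.cont x).continuousAt ((chartAt (E n) x).open_target.mem_nhds hct)
    have h2 : ContinuousAt (fun p : E n => p + chartAt (E n) x x) 0 := by fun_prop
    rw [hJp]
    exact ContinuousAt.comp (f := fun p : E n => p + chartAt (E n) x x) h1 h2
  have hev : ∀ᶠ p in 𝓝 (0 : E n), p + chartAt (E n) x x ∈ (chartAt (E n) x).target := by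
    have h2 : ContinuousAt (fun p : E n => p + chartAt (E n) x x) 0 := by fun_prop
    refine h2.preimage_mem_nhds ((chartAt (E n) x).open_target.mem_nhds ?_)
    rw [zero_add]
    exact hct
  have hcσ := pb_contAt hσ hA
  -- positivity at 0
  have h0 : ∀ v : E n, v ≠ 0 → 0 < pb (par n x) σ 0 ![v, Jp 0 v] := by
    intro v hv
    have hv' : mfderiv (𝓡 n) (𝓡 n) (par n x) 0 v ≠ 0 := by
      intro h1
      apply hv
      apply hA.mfderiv_injective
      exact h1.trans (ContinuousLinearMap.map_zero _).symm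
    have hx : TamesAt σ J (par n x 0) := by rw [par_zero]; exact h
    have h3 := hx _ hv'
    have h4 := par_J J x (p := 0) hev.self_of_nhds v
    rw [← h4] at h3
    have e2 : (fun i => mfderiv (𝓡 n) (𝓡 n) (par n x) 0 ((![v, Jp 0 v] : Fin 2 → E n) i)) =
        ![mfderiv (𝓡 n) (𝓡 n) (par n x) 0 v, mfderiv (𝓡 n) (𝓡 n) (par n x) 0
          (inChart J x (0 + chartAt (E n) x x) v)] := by
      funext i
      rw [hJp]
      fin_cases i <;> rfl
    rw [← e2] at h3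
    exact h3
  -- compactness of the unit sphere
  obtain ⟨β, hβ⟩ : ∃ β, β = pb (par n x) σ 0 := ⟨_, rfl⟩
  obtain ⟨J0, hJ0⟩ : ∃ J0, J0 = Jp 0 := ⟨_, rfl⟩
  rw [← hβ, ← hJ0] at h0
  have hgc : Continuous fun v : E n => β ![v, J0 v] := by
    refine β.cont.comp (continuous_pi fun i => ?_)
    fin_cases i
    · exact continuous_id
    · exact J0.continuous
  obtain ⟨m, hm, hmv⟩ : ∃ m : ℝ, 0 < m ∧ ∀ v : E n, ‖v‖ = 1 → m ≤ β ![v, J0 v] := by
    rcases (sphere (0 : E n) 1).eq_empty_or_nonempty with he | hne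
    · refine ⟨1, one_pos, fun v hv => ?_⟩
      have : v ∈ sphere (0 : E n) 1 := mem_sphere_zero_iff_norm.2 hv
      rw [he] at this
      exact absurd this (notMem_empty v)
    · obtain ⟨v0, hv0, hmin⟩ := (isCompact_sphere (0 : E n) 1).exists_isMinOn hne
        hgc.continuousOn
      refine ⟨_, h0 v0 ?_, fun v hv => hmin (mem_sphere_zero_iff_norm.2 hv)⟩
      rw [mem_sphere_zero_iff_norm] at hv0
      rintro rfl
      simp at hv0
  have hmv' : ∀ v : E n, m * ‖v‖ ^ 2 ≤ β ![v, J0 v] := by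
    intro v
    by_cases hv : v = 0
    · rw [hv, norm_zero]
      have h1 : β ![0, J0 0] = 0 := β.map_coord_zero 0 rfl
      rw [h1]
      simp
    · have hvn : 0 < ‖v‖ := norm_pos_iff.2 hv
      have h1 := hmv (‖v‖⁻¹ • v) (by
        rw [norm_smul, norm_inv, norm_norm, inv_mul_cancel₀ hvn.ne'])
      have h2 : β ![‖v‖⁻¹ • v, J0 (‖v‖⁻¹ • v)] = ‖v‖⁻¹ * (‖v‖⁻¹ * β ![v, J0 v]) := by
        rw [map_smul]
        have k1 := β.map_update_smul ![v, ‖v‖⁻¹ • J0 v] 0 ‖v‖⁻¹ v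
        rw [upd0, upd0] at k1
        have k2 := β.map_update_smul ![v, J0 v] 1 ‖v‖⁻¹ (J0 v)
        rw [upd1, upd1] at k2
        rw [k1, k2]
        simp
      rw [h2] at h1
      have h3 : ‖v‖ ^ 2 * m ≤ ‖v‖ ^ 2 * (‖v‖⁻¹ * (‖v‖⁻¹ * β ![v, J0 v])) := by gcongr
      have h4 : ‖v‖ ^ 2 * (‖v‖⁻¹ * (‖v‖⁻¹ * β ![v, J0 v])) = β ![v, J0 v] := by field_simp
      linarith
  -- perturbation
  obtain ⟨b, hb⟩ : ∃ b, b = ‖J0‖ + 1 := ⟨_, rfl⟩
  have hb0 : 0 < b := by rw [hb]; positivity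
  have hlim : Tendsto (fun p => ‖pb (par n x) σ p - β‖ * b + ‖β‖ * ‖Jp p - J0‖) (𝓝 0) (𝓝 0) := by
    have k1 : Tendsto (fun p => ‖pb (par n x) σ p - β‖) (𝓝 0) (𝓝 ‖β - β‖) := by
      have := (hcσ.sub (continuousAt_const (y := β))).norm
      rw [hβ] at this ⊢
      exact this
    have k2 : Tendsto (fun p => ‖Jp p - J0‖) (𝓝 0) (𝓝 ‖J0 - J0‖) := by
      have := (hcJ.sub (continuousAt_const (y := J0))).norm
      rw [hJ0] at this ⊢
      exact this
    have k3 := (k1.mul_const b).add (k2.const_mul ‖β‖)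
    simpa using k3
  have hev2 : ∀ᶠ p in 𝓝 (0 : E n), ‖Jp p‖ < b := by
    have k2 : Tendsto (fun p => ‖Jp p‖) (𝓝 0) (𝓝 ‖Jp 0‖) := hcJ.norm
    rw [← hJ0] at k2
    exact k2.eventually_lt_const (by rw [hb]; linarith)
  obtain ⟨ρ, hρ, hbρ⟩ := Metric.mem_nhds_iff.1
    ((hlim.eventually_lt_const (show 0 < m / 2 by positivity)).and (hev.and hev2))
  refine ⟨m / (4 * b), ρ, by positivity, hρ, fun p hp v hv => ?_⟩
  obtain ⟨c1, c2, c3⟩ := hbρ (mem_ball_zero_iff.2 hp)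
  refine ⟨Jp p v, ?_, ?_⟩
  · rw [hJp]
    exact par_J J x c2 v
  · have hvn : 0 < ‖v‖ := norm_pos_iff.2 hv
    have hw : ‖Jp p v‖ ≤ b * ‖v‖ := (ContinuousLinearMap.le_opNorm _ _).trans (by gcongr)
    have e1 : pb (par n x) σ p ![v, Jp p v] = β ![v, J0 v] +
        ((pb (par n x) σ p - β) ![v, Jp p v] + β ![v, (Jp p - J0) v]) := by
      have k1 : (pb (par n x) σ p - β) ![v, Jp p v] =
          pb (par n x) σ p ![v, Jp p v] - β ![v, Jp p v] := rfl
      have k2 : β ![v, Jp p v] = β ![v, J0 v] + β ![v, (Jp p - J0) v] := by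
        have k3 := β.map_update_add ![v, J0 v] 1 (J0 v) ((Jp p - J0) v)
        rw [upd1, upd1, upd1] at k3
        rw [← k3]
        have k4 : J0 v + (Jp p - J0) v = Jp p v := by
          rw [sub_apply, add_sub_cancel]
        rw [k4]
      rw [k1, k2]
      ring
    have k1 := alt_bound (pb (par n x) σ p - β) v (Jp p v)
    have k2 := alt_bound β v ((Jp p - J0) v)
    have k3 : ‖(Jp p - J0) v‖ ≤ ‖Jp p - J0‖ * ‖v‖ := ContinuousLinearMap.le_opNorm _ _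
    have k4 : ‖pb (par n x) σ p - β‖ * (‖v‖ * ‖Jp p v‖) ≤
        ‖pb (par n x) σ p - β‖ * (‖v‖ * (b * ‖v‖)) := by gcongr
    have k5 : ‖β‖ * (‖v‖ * ‖(Jp p - J0) v‖) ≤ ‖β‖ * (‖v‖ * (‖Jp p - J0‖ * ‖v‖)) := by gcongr
    have k6 := (abs_le.1 k1).1
    have k7 := (abs_le.1 k2).1
    have k8 := hmv' v
    have k9 : (‖pb (par n x) σ p - β‖ * b + ‖β‖ * ‖Jp p - J0‖) * ‖v‖ ^ 2 ≤ m / 2 * ‖v‖ ^ 2 := by
      gcongr
    have k10 : m / (4 * b) * (‖v‖ * ‖Jp p v‖) ≤ m / 4 * ‖v‖ ^ 2 := by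
      calc m / (4 * b) * (‖v‖ * ‖Jp p v‖) ≤ m / (4 * b) * (‖v‖ * (b * ‖v‖)) := by gcongr
        _ = m / 4 * ‖v‖ ^ 2 := by field_simp
    have k11 : 0 < m * ‖v‖ ^ 2 := by positivity
    rw [e1]
    nlinarith

end Pool.Agent.N824.CJ
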