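import Pool.Agent.N824.CJ.Exact

/-!
# Symplectic forms and maps which are affine in the mean: the characterization
-/

set_option autoImplicit false
set_option maxSynthPendingDepth 3

open Set Filter Topology Metric Function MeasureTheory
open scoped Manifold ContDiff Convolution

set_option linter.unusedSectionVars false

noncomputable section

namespace Pool.Agent.N824.CJ

open Pool.Agent.Y522 Pool.Agent.Y954.SH Pool.Agent.N824.CR Pool.Agent.N824.CN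
open Pool.Agent.Y501.SY (Form IsSmooth IsD IsClosedForm pb dfdg fdg dd SmoothFun Pair End
  IsAlmostComplex TamesAt)

variable {n : ℕ} {X : Type} [TopologicalSpace X] [ChartedSpace (E n) X]

/-- `σ` is a closed smooth form which differs from `ω₀` by an exact form. -/
def InClass (ω₀ σ : Form n X 2) : Prop :=
  IsSmooth σ ∧ IsClosedForm σ ∧ ∃ (α : Form n X 1) (η : Form n X 2), IsSmooth α ∧ IsD α η ∧
    σ = ω₀ + η

/-- the coarse condition -/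
def Coarse (n : ℕ) {X : Type} [TopologicalSpace X] [ChartedSpace (E n) X] (C : ℕ → ℝ)
    (ω₀ : Form n X 2) (T : Rel n X) : Prop :=
  ∃ (N : ℕ) (d : X → X → ℝ) (S : Set ℝ) (f : ℝ → X → Fin N → ℝ × ℝ),
    (0 : ℝ) ∈ closure (S ∩ Ioi 0) ∧ ∀ x, CRegJ n d S f (QS n N (C N) ω₀ T) x

theorem QS.mono {N : ℕ} {C C' : ℝ} (h : C ≤ C') {ω₀ : Form n X 2} {T : Rel n X} {A : E n → X}
    {p : E n} {L : E n →L[ℝ] (Fin N → ℝ × ℝ)} {κ δ : ℝ} (hδ : 0 ≤ δ)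
    (hQ : QS n N C' ω₀ T A p L κ δ) : QS n N C ω₀ T A p L κ δ := by
  intro v hv
  obtain ⟨w, hT, hw⟩ := hQ v hv
  refine ⟨w, hT, lt_of_le_of_lt ?_ hw⟩
  have h1 : 0 ≤ κ ^ (4 * n + 4) := by
    have : 4 * n + 4 = 2 * (2 * n + 2) := by ring
    rw [this, pow_mul]
    positivity
  gcongr

theorem CRegJ.mono {W : Type} [NormedAddCommGroup W] [NormedSpace ℝ W] {d : X → X → ℝ}
    {S : Set ℝ} {F : ℝ → X → W} {Q Q' : (E n → X) → E n → (E n →L[ℝ] W) → ℝ → ℝ → Prop} {x : X}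
    (h : CRegJ n d S F Q x) (hQ : ∀ A p L κ δ, 0 ≤ δ → Q A p L κ δ → Q' A p L κ δ) :
    CRegJ n d S F Q' x := by
  obtain ⟨A, κ, ρ, τ, h1, h2, h3, h4, h5, h6, h7⟩ := h
  refine ⟨A, κ, ρ, τ, h1, h2, h3, h4, h5, h6, fun p hp r hr h0 hrρ => ?_⟩
  obtain ⟨L, δ, k1, k2, k3, k4⟩ := h7 p hp r hr h0 hrρ
  exact ⟨L, δ, k1, k2, k3, hQ _ _ _ _ _ k1 k4⟩

/-- from the coarse condition to smooth forms -/
theorem forward [T2Space X] [CompactSpace X] [IsManifold (𝓡 n) ∞ X] {C : ℕ → ℝ}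
    (hC : ∀ N, 4 * N * CJ n ^ 2 ≤ C N) {ω₀ : Form n X 2} (hs : IsSmooth ω₀)
    (hc : IsClosedForm ω₀) {T : Rel n X} (h : Coarse n C ω₀ T) :
    ∃ σ : Form n X 2, InClass ω₀ σ ∧ ∀ (x : X) (v : TangentSpace (𝓡 n) x), v ≠ 0 →
      ∃ w : TangentSpace (𝓡 n) x, T x v w ∧ 0 < σ x ![v, w] := by
  obtain ⟨N, d, S, f, hS, hf⟩ := h
  obtain ⟨a, b, ha, hb, hpos⟩ := sympF N ω₀ T d S hS f fun x =>
    (hf x).mono fun A p L κ δ hδ hQ => hQ.mono (hC N) hδ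
  have hP : Pair (∑ j, fdg (d := n) (a j) (b j)) (∑ j, dfdg (d := n) (a j) (b j)) :=
    Pair.sum _ fun j _ => Pair.gen _ _ (ha j) (hb j)
  obtain ⟨p1, p2, p3, p4⟩ := hP.props Pool.Agent.Y484.SY.t_GEN
  refine ⟨_, ⟨hs.add p2, ?_, _, _, p1, p3, rfl⟩, hpos⟩
  have := Pool.Agent.Y501.SY.IsD.add hc p4 hs p2
  rwa [add_zero] at this

/-- from smooth forms to the coarse condition -/
theorem backward [T2Space X] [CompactSpace X] [IsManifold (𝓡 n) ∞ X] (C : ℕ → ℝ)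
    {ω₀ σ : Form n X 2} (h : InClass ω₀ σ) {T : Rel n X}
    (hT : ∀ x : X, ∃ A : E n → X, A 0 = x ∧ LD n A 0 ∧ ∃ m ρ : ℝ, 0 < m ∧ 0 < ρ ∧
      ∀ p, ‖p‖ < ρ → ∀ v : E n, v ≠ 0 → ∃ w : E n,
      T (A p) (mfderiv (𝓡 n) (𝓡 n) A p v) (mfderiv (𝓡 n) (𝓡 n) A p w) ∧
      m * (‖v‖ * ‖w‖) < pb A σ p ![v, w]) :
    Coarse n C ω₀ T := by
  obtain ⟨-, -, α, η, hα, hη, rfl⟩ := h
  obtain ⟨N, a, b, ha, hb, rfl⟩ := exact_pairs hα hη
  obtain ⟨d, hd⟩ := exists_dist (n := n) (X := X)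
  have hF : ∀ x, ContMDiffAt (𝓡 n) 𝓘(ℝ, Fin N → ℝ × ℝ) ∞
      (fun x => (fun j => (a j x, b j x) : Fin N → ℝ × ℝ)) x := by
    intro x
    exact contMDiffAt_pi_space.2 fun j => ((ha j).prodMk_space (hb j)) x
  refine ⟨N, d, univ, fun _ x j => (a j x, b j x), ?_, fun x => ?_⟩
  · rw [univ_inter, closure_Ioi]
    exact self_mem_Ici
  · obtain ⟨A, hA0, hA, m, ρ₀, hm, hρ₀, hpos⟩ := hT x
    obtain ⟨κ, ρ1, hκ, hρ1, hAd⟩ := hd A hA
    obtain ⟨ρ2, τ, hρ2, hτ, hmain⟩ := conv_core (C N) ω₀ hF T hA hκ hm hρ₀ hpos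
    refine ⟨A, κ, min ρ1 ρ2, τ, hA0, hA, hκ, lt_min hρ1 hρ2, hτ, fun p q hp hq =>
      hAd p q (hp.trans_le (min_le_left _ _)) (hq.trans_le (min_le_left _ _)),
      fun p hp r _ h0 hr => ?_⟩
    exact hmain p (hp.trans_le (min_le_right _ _)) r h0 (hr.trans_le (min_le_right _ _))

/-- nondegenerate forms -/
def Nondeg (σ : Form n X 2) : Prop :=
  ∀ (x : X) (v : TangentSpace (𝓡 n) x), (∀ w : TangentSpace (𝓡 n) x, σ x ![v, w] = 0) → v = 0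

theorem nondeg_iff (σ : Form n X 2) : Nondeg σ ↔ ∀ (x : X) (v : TangentSpace (𝓡 n) x), v ≠ 0 →
    ∃ w : TangentSpace (𝓡 n) x, 0 < σ x ![v, w] := by
  constructor
  · intro h x v hv
    by_contra hcon
    push Not at hcon
    apply hv
    apply h x v
    intro w
    have h1 := hcon w
    have h2 := hcon ((-1 : ℝ) • w)
    have h3 : σ x ![v, (-1 : ℝ) • w] = (-1 : ℝ) • σ x ![v, w] := by
      have k1 := (σ x).map_update_smul ![v, w] 1 (-1 : ℝ) w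
      have u1 : ∀ y : TangentSpace (𝓡 n) x, update ![v, w] 1 y = ![v, y] := fun y => by
        funext i
        fin_cases i <;> rfl
      rwa [u1, u1] at k1
    rw [h3, smul_eq_mul] at h2
    linarith
  · intro h x v hv
    by_contra hv0
    obtain ⟨w, hw⟩ := h x v hv0
    rw [hv w] at hw
    exact lt_irrefl _ hw

/-- the characterization -/
theorem mainS (n : ℕ) (C : ℕ → ℝ) (hC : ∀ N, 4 * N * CJ n ^ 2 ≤ C N) (X : Type)
    [TopologicalSpace X] [ChartedSpace (E n) X] [IsManifold (𝓡 n) ∞ X] [CompactSpace X]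
    [T2Space X] (ω₀ : Form n X 2) (hs : IsSmooth ω₀) (hc : IsClosedForm ω₀) :
    ((∃ σ : Form n X 2, InClass ω₀ σ ∧ Nondeg σ) ↔ Coarse n C ω₀ fun _ _ _ => True) ∧
    ∀ J : End n X, IsAlmostComplex J →
      ((∃ σ : Form n X 2, InClass ω₀ σ ∧ ∀ x, TamesAt σ J x) ↔
        Coarse n C ω₀ fun x v w => w = J x v) := by
  refine ⟨⟨?_, ?_⟩, fun J hJ => ⟨?_, ?_⟩⟩
  · rintro ⟨σ, hσ, hnd⟩
    refine backward C hσ fun x => ?_
    obtain ⟨A, hA0, hA⟩ := exists_param (n := n) x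
    exact ⟨A, hA0, hA, pos_top hσ.1 hA ((nondeg_iff σ).1 hnd)⟩
  · intro h
    obtain ⟨σ, hσ, hpos⟩ := forward hC hs hc h
    refine ⟨σ, hσ, (nondeg_iff σ).2 fun x v hv => ?_⟩
    obtain ⟨w, -, hw⟩ := hpos x v hv
    exact ⟨w, hw⟩
  · rintro ⟨σ, hσ, htm⟩
    refine backward C hσ fun x => ?_
    exact ⟨par n x, par_zero x, par_LD x, pos_J hσ.1 hJ x (htm x)⟩
  · intro h
    obtain ⟨σ, hσ, hpos⟩ := forward hC hs hc h
    refine ⟨σ, hσ, fun x v hv => ?_⟩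
    obtain ⟨w, rfl, hw⟩ := hpos x v hv
    exact hw

end Pool.Agent.N824.CJ
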