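import Pool.Agent.N824.CJ.Pub
import Pool.Agent.N824.CJ.FinalS

/-!
# Comparison of the definitions over `ES n` with the working definitions
-/

set_option autoImplicit false
set_option maxSynthPendingDepth 3

open Set Filter Topology Metric MeasureTheory
open scoped Manifold ContDiff

noncomputable section

namespace Pool.Agent.N824.CJP

open Pool.Agent.Y501 Pool.Agent.Y501.SYP

section

variable {d : ℕ} {X : Type} [TopologicalSpace X] [ChartedSpace (ES d) X]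

/-- the same charted space over `EuclideanSpace ℝ (Fin d)` -/
abbrev cs (d : ℕ) (X : Type) [TopologicalSpace X] [h : ChartedSpace (ES d) X] :
    ChartedSpace (SY.E d) X := h

attribute [local instance] cs

theorem smooth_iff {k : ℕ} (σ : Form (ES d) X k) :
    IsSmooth σ ↔ SY.IsSmooth (d := d) (X := X) σ :=
  ⟨fun h U φ hU hφ => h U φ ⟨hU, hφ⟩, fun h U φ hφ => h U φ hφ.1 hφ.2⟩

theorem isD_iff {k : ℕ} (α : Form (ES d) X k) (η : Form (ES d) X (k + 1)) :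
    IsD α η ↔ SY.IsD (d := d) (X := X) α η :=
  ⟨fun h U φ hU hφ => h U φ ⟨hU, hφ⟩, fun h U φ hφ => h U φ hφ.1 hφ.2⟩

theorem closed_iff {k : ℕ} (σ : Form (ES d) X k) :
    IsClosedForm σ ↔ SY.IsClosedForm (d := d) (X := X) σ :=
  ⟨fun h U φ hU hφ p hp => h U φ ⟨hU, hφ⟩ p hp, fun h U φ hφ p hp => h U φ hφ.1 hφ.2 p hp⟩

theorem ac_of (J : End (ES d) X) (hJ : IsAlmostComplex J) :
    SY.IsAlmostComplex (d := d) (X := X) J := by
  refine ⟨hJ.sq, fun x₀ => ?_⟩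
  rw [continuousOn_clm_apply]
  exact fun v => hJ.cont x₀ v

/-- the same manifold over `EuclideanSpace ℝ (Fin d)` -/
theorem mf (d : ℕ) (X : Type) [TopologicalSpace X] [ChartedSpace (ES d) X]
    [h : IsManifold 𝓘(ℝ, ES d) ∞ X] : IsManifold (𝓡 d) ∞ X := h

attribute [local instance] mf

theorem inClass_iff (ω₀ σ : Form (ES d) X 2) :
    InClass ω₀ σ ↔ CJ.InClass (n := d) (X := X) ω₀ σ := by
  constructor
  · rintro ⟨h1, h2, α, η, h3, h4, h5⟩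
    exact ⟨(smooth_iff σ).1 h1, (closed_iff σ).1 h2, α, η, (smooth_iff α).1 h3,
      (isD_iff α η).1 h4, h5⟩
  · rintro ⟨h1, h2, α, η, h3, h4, h5⟩
    exact ⟨(smooth_iff σ).2 h1, (closed_iff σ).2 h2, α, η, (smooth_iff α).2 h3,
      (isD_iff α η).2 h4, h5⟩

theorem nondeg_iff (σ : Form (ES d) X 2) : Nondeg σ ↔ CJ.Nondeg (n := d) (X := X) σ := Iff.rfl

theorem coarse_iff (C : ℕ → ℝ) (ω₀ : Form (ES d) X 2) (T : Rel (ES d) X) :
    HasCoarse d (vol d) C ω₀ T ↔ CJ.Coarse (n := d) (X := X) C ω₀ T := by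
  constructor
  · rintro ⟨N, dd, S, f, hS, hf⟩
    refine ⟨N, dd, S, f, hS, fun x => ?_⟩
    obtain ⟨A, κ, ρ, τ, ⟨h1, h2, h3, h4, h5⟩, h6, h7⟩ := hf x
    refine ⟨A, κ, ρ, τ, h1, h2, h3, h4, h6, h5, fun p hp r hr h0 hrρ => ?_⟩
    obtain ⟨L, δ, k1, k2, k3, k4⟩ := h7 p hp r hr h0 hrρ
    exact ⟨L, δ, k1, k2, k3, k4⟩
  · rintro ⟨N, dd, S, f, hS, hf⟩
    refine ⟨N, dd, S, f, hS, fun x => ?_⟩
    obtain ⟨A, κ, ρ, τ, h1, h2, h3, h4, h6, h5, h7⟩ := hf x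
    refine ⟨A, κ, ρ, τ, ⟨h1, h2, h3, h4, h5⟩, h6, fun p hp r hr h0 hrρ => ?_⟩
    obtain ⟨L, δ, k1, k2, k3, k4⟩ := h7 p hp r hr h0 hrρ
    exact ⟨L, δ, k1, k2, k3, k4⟩

/-- the characterization -/
theorem mainP (n : ℕ) (C : ℕ → ℝ) (hC : ∀ N, 4 * N * CJ.CJ n ^ 2 ≤ C N) (X : Type)
    [TopologicalSpace X] [ChartedSpace (ES n) X] [IsManifold 𝓘(ℝ, ES n) ∞ X] [CompactSpace X]
    [T2Space X] (ω₀ : Form (ES n) X 2) (hs : IsSmooth ω₀) (hc : IsClosedForm ω₀) :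
    ((∃ σ : Form (ES n) X 2, InClass ω₀ σ ∧ Nondeg σ) ↔
      HasCoarse n (vol n) C ω₀ (allPairs (ES n) X)) ∧
    ∀ J : End (ES n) X, IsAlmostComplex J →
      ((∃ σ : Form (ES n) X 2, InClass ω₀ σ ∧ ∀ x, TamesAt σ J x) ↔
        HasCoarse n (vol n) C ω₀ (complexPairs J)) := by
  obtain ⟨h1, h2⟩ := CJ.mainS n C hC X ω₀ ((smooth_iff ω₀).1 hs) ((closed_iff ω₀).1 hc)
  refine ⟨?_, fun J hJ => ?_⟩
  · rw [coarse_iff]
    refine Iff.trans ?_ h1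
    exact exists_congr fun σ => and_congr (inClass_iff ω₀ σ) (nondeg_iff σ)
  · rw [coarse_iff]
    refine Iff.trans ?_ (h2 J (ac_of J hJ))
    exact exists_congr fun σ => and_congr (inClass_iff ω₀ σ) Iff.rfl

end

end Pool.Agent.N824.CJP
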