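import Pool.Agent.N824.CJ.GlobR

/-!
# Symplectic forms from maps which are affine in the mean: relative and fibrewise version
-/

set_option autoImplicit false
set_option maxSynthPendingDepth 3

open Set Filter Topology Metric Function MeasureTheory
open scoped Manifold ContDiff Convolution

set_option linter.unusedSectionVars false

noncomputable section

namespace Pool.Agent.N824.CJ

open Pool.Agent.Y522 Pool.Agent.Y954.SH Pool.Agent.N824.CR Pool.Agent.N824.CN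
open Pool.Agent.Y501.SY (Form IsSmooth IsD IsClosedForm pb dfdg fdg dd SmoothFun Pair)

variable {n : ℕ} {X : Type} [TopologicalSpace X] [ChartedSpace (E n) X]

/-- tangent vectors -/
abbrev Vec (n : ℕ) (X : Type) [TopologicalSpace X] [ChartedSpace (E n) X] : Type :=
  (x : X) → TangentSpace (𝓡 n) x → Prop

/-- the relation for the vectors in `V` -/
def QV (n N : ℕ) (C : ℝ) {X : Type} [TopologicalSpace X] [ChartedSpace (E n) X]
    (ω₀ : Form n X 2) (V : Vec n X) (T : Rel n X) (A : E n → X) (p : E n)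
    (L : E n →L[ℝ] (Fin N → ℝ × ℝ)) (κ δ : ℝ) : Prop :=
  ∀ v : E n, v ≠ 0 → V (A p) (mfderiv (𝓡 n) (𝓡 n) A p v) → ∃ w : E n,
    T (A p) (mfderiv (𝓡 n) (𝓡 n) A p v) (mfderiv (𝓡 n) (𝓡 n) A p w) ∧
    C * κ ^ (4 * n + 4) * (δ * (‖L‖ + δ)) * (‖v‖ * ‖w‖) < pb A ω₀ p ![v, w] + stdF L v w

/-- positivity at a point -/
def PosAt (σ : Form n X 2) (V : Vec n X) (T : Rel n X) (x : X) : Prop :=
  ∀ v : TangentSpace (𝓡 n) x, v ≠ 0 → V x v → ∃ w : TangentSpace (𝓡 n) x, T x v w ∧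
    0 < σ x ![v, w]

theorem posAt_of_reg [IsManifold (𝓡 n) ∞ X] {N : ℕ} {ω₀ : Form n X 2} {V : Vec n X}
    {T : Rel n X} {F : X → Fin N → ℝ × ℝ}
    (hF : ∀ x, ContMDiffAt (𝓡 n) 𝓘(ℝ, Fin N → ℝ × ℝ) ∞ F x) {x : X}
    (h : RegJ n (QV n N (4 * N * CJ n ^ 2) ω₀ V T) F x) :
    PosAt (ω₀ + ∑ j, dfdg (d := n) (fun x => (F x j).1) (fun x => (F x j).2)) V T x := by
  intro v' hv' hV'
  obtain ⟨A, p, L, κ, δ, rfl, hA, hκ, hδ, hQ, hcl⟩ := h
  obtain ⟨v, rfl⟩ : ∃ v : E n, mfderiv (𝓡 n) (𝓡 n) A p v = v' := by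
    have h := hA.mfderivToContinuousLinearEquiv_coe (by simp)
    refine ⟨(hA.mfderivToContinuousLinearEquiv (by simp)).symm v', ?_⟩
    rw [← h]
    exact (hA.mfderivToContinuousLinearEquiv (by simp)).apply_symm_apply v'
  have hv : v ≠ 0 := by
    rintro rfl
    exact hv' (map_zero _)
  obtain ⟨w, hT, hw⟩ := hQ v hv hV'
  refine ⟨mfderiv (𝓡 n) (𝓡 n) A p w, hT, ?_⟩
  have e1 : (ω₀ + ∑ j, dfdg (d := n) (fun x => (F x j).1) (fun x => (F x j).2)) (A p)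
      ![mfderiv (𝓡 n) (𝓡 n) A p v, mfderiv (𝓡 n) (𝓡 n) A p w] =
      pb A ω₀ p ![v, w] + stdF (fderiv ℝ (fun z => F (A z)) p) v w := by
    rw [← pb_std hF hA v w]
    have e2 : (fun i => mfderiv (𝓡 n) (𝓡 n) A p ((![v, w] : Fin 2 → E n) i)) =
        ![mfderiv (𝓡 n) (𝓡 n) A p v, mfderiv (𝓡 n) (𝓡 n) A p w] := by
      funext i
      fin_cases i <;> rfl
    rw [← e2]
    rfl
  rw [e1]
  have h1 := stdF_close hcl v w
  obtain ⟨k, hk⟩ : ∃ k, k = CJ n * κ ^ (2 * n + 2) := ⟨_, rfl⟩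
  have hk1 : 1 ≤ k := by
    rw [hk]
    have h2 : 1 ≤ κ ^ (2 * n + 2) := one_le_pow₀ hκ
    have h3 := CJ_one (n := n)
    nlinarith
  rw [← hk] at h1
  have e3 : 4 * (N : ℝ) * CJ n ^ 2 * κ ^ (4 * n + 4) = 4 * N * k ^ 2 := by
    rw [hk, mul_pow, ← pow_mul]
    have : (2 * n + 2) * 2 = 4 * n + 4 := by ring
    rw [this]
    ring
  rw [e3] at hw
  have hL := norm_nonneg L
  have h4 : k * δ * (2 * ‖L‖ + k * δ) ≤ 2 * (k ^ 2 * (δ * (‖L‖ + δ))) := by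
    have h5 : k * δ * (2 * ‖L‖ + k * δ) = 2 * (k * (δ * ‖L‖)) + k ^ 2 * (δ * δ) := by ring
    have h6 : k * (δ * ‖L‖) ≤ k ^ 2 * (δ * ‖L‖) := by
      have : k ≤ k ^ 2 := by nlinarith
      gcongr
    have h7 : 0 ≤ k ^ 2 * (δ * δ) := by positivity
    have h8 : 2 * (k ^ 2 * (δ * (‖L‖ + δ))) = 2 * (k ^ 2 * (δ * ‖L‖)) + 2 * (k ^ 2 * (δ * δ)) := by
      ring
    linarith
  have h9 : 2 * N * (k * δ * (2 * ‖L‖ + k * δ)) * (‖v‖ * ‖w‖) ≤
      4 * N * k ^ 2 * (δ * (‖L‖ + δ)) * (‖v‖ * ‖w‖) := by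
    have : (4 : ℝ) * N * k ^ 2 * (δ * (‖L‖ + δ)) = 2 * N * (2 * (k ^ 2 * (δ * (‖L‖ + δ)))) := by
      ring
    rw [this]
    gcongr
  linarith

/-- the sum `∑ da ∧ db` vanishes where the functions vanish near the point -/
theorem dfdg_zero {f g : X → ℝ} {x : X} (hf : f =ᶠ[𝓝 x] fun _ => 0) :
    dfdg (d := n) f g x = 0 := by
  have h1 : dd (d := n) f x = 0 := by
    show mfderiv (𝓡 n) 𝓘(ℝ, ℝ) f x = 0
    rw [hf.mfderiv_eq]
    exact mfderiv_const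
  ext v
  have h2 : dfdg (d := n) f g x v = dd (d := n) f x (v 0) * dd g x (v 1) -
      dd (d := n) f x (v 1) * dd g x (v 0) :=
    Pool.Agent.Y501.SY.wedge_apply (V := E n) _ _ _
  rw [h2, h1]
  simp

/-- the relative theorem -/
theorem sympR [T2Space X] [LocallyCompactSpace X] [SecondCountableTopology X]
    [IsManifold (𝓡 n) ∞ X] (N : ℕ) {C : ℝ} (hC : 4 * N * CJ n ^ 2 ≤ C)
    (ω₀ : Form n X 2) (V : Vec n X) (T : Rel n X) (d : X → X → ℝ) (S : Set ℝ)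
    (hS : (0 : ℝ) ∈ closure (S ∩ Ioi 0)) (U Z : Set X) (hU : IsOpen U)
    (hZ : IsClosed Z) (hZU : Z ⊆ U) (hK : IsCompact Uᶜ) (f : ℝ → X → Fin N → ℝ × ℝ)
    (hf0 : ∀ r ∈ S, ∀ x ∈ U, f r x = 0) (hω : ∀ x ∈ U, PosAt ω₀ V T x)
    (hf : ∀ x, x ∉ U → CRegJ n d S f (QV n N C ω₀ V T) x) :
    ∃ (a b : Fin N → X → ℝ) (K : Set X), IsCompact K ∧ Disjoint K Z ∧
      (∀ j, SmoothFun (d := n) (a j)) ∧ (∀ j, SmoothFun (d := n) (b j)) ∧
      (∀ x, x ∉ K → ∀ j, a j x = 0 ∧ b j x = 0) ∧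
      ∀ x, PosAt (ω₀ + ∑ j, dfdg (d := n) (a j) (b j)) V T x := by
  have hf' : ∀ x, x ∉ U → CRegJ n d S f (QV n N (4 * N * CJ n ^ 2) ω₀ V T) x := by
    intro x hx
    refine (hf x hx).mono fun A p L κ δ hδ hQ v hv hV => ?_
    obtain ⟨w, hT, hw⟩ := hQ v hv hV
    refine ⟨w, hT, lt_of_le_of_lt ?_ hw⟩
    have h1 : 0 ≤ κ ^ (4 * n + 4) := by
      have : 4 * n + 4 = 2 * (2 * n + 2) := by ring
      rw [this, pow_mul]
      positivity
    gcongr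
  obtain ⟨F, K, hKc, hKZ, hK0, hF, hreg⟩ := globJR f d _ S hS U Z hU hZ hZU hK hf0 hf'
  have hFc : ContMDiff (𝓡 n) 𝓘(ℝ, Fin N → ℝ × ℝ) ∞ F := fun x => hF x
  refine ⟨fun j x => (F x j).1, fun j x => (F x j).2, K, hKc, hKZ, fun j => ?_, fun j => ?_,
    fun x hx j => ?_, fun x => ?_⟩
  · exact ((ContinuousLinearMap.fst ℝ ℝ ℝ).comp
      (ContinuousLinearMap.proj (R := ℝ) (φ := fun _ : Fin N => ℝ × ℝ) j)).contDiff.contMDiff.comp
      hFc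
  · exact ((ContinuousLinearMap.snd ℝ ℝ ℝ).comp
      (ContinuousLinearMap.proj (R := ℝ) (φ := fun _ : Fin N => ℝ × ℝ) j)).contDiff.contMDiff.comp
      hFc
  · beta_reduce
    rw [hK0 x hx]
    exact ⟨rfl, rfl⟩
  · rcases hreg x with h | ⟨hxU, h0⟩
    · exact posAt_of_reg hF h
    · have h1 : ∀ j : Fin N, dfdg (d := n) (fun x => (F x j).1) (fun x => (F x j).2) x = 0 := by
        intro j
        refine dfdg_zero ?_
        filter_upwards [h0] with y hy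
        rw [hy]
        rfl
      intro v hv hV
      obtain ⟨w, hT, hw⟩ := hω x hxU v hv hV
      refine ⟨w, hT, ?_⟩
      have h2 : (ω₀ + ∑ j, dfdg (d := n) (fun x => (F x j).1) (fun x => (F x j).2)) x = ω₀ x := by
        rw [Pi.add_apply, Finset.sum_apply, Finset.sum_eq_zero fun j _ => h1 j, add_zero]
      rw [h2]
      exact hw

end Pool.Agent.N824.CJ
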