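import Pool.Agent.N824.CJ.FinalS
import Pool.Agent.N824.CJ.SympR
import Pool.Agent.N824.CJ.ExactR

/-!
# Extension of symplectic forms and maps which are affine in the mean
-/

set_option autoImplicit false
set_option maxSynthPendingDepth 3

open Set Filter Topology Metric Function MeasureTheory
open scoped Manifold ContDiff Convolution

set_option linter.unusedSectionVars false

noncomputable section

namespace Pool.Agent.N824.CJ

open Pool.Agent.Y522 Pool.Agent.Y954.SH Pool.Agent.N824.CR Pool.Agent.N824.CN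
open Pool.Agent.Y501.SY (Form IsSmooth IsD IsClosedForm pb dfdg fdg dd SmoothFun Pair End
  IsAlmostComplex TamesAt)

variable {n : ℕ} {X : Type} [TopologicalSpace X] [ChartedSpace (E n) X]

/-- `σ` is a closed smooth form which differs from `ω₀` by the derivative of a one-form with
compact support disjoint from `Z`. -/
def InClassR (Z : Set X) (ω₀ σ : Form n X 2) : Prop :=
  IsSmooth σ ∧ IsClosedForm σ ∧ ∃ (α : Form n X 1) (η : Form n X 2) (K : Set X), IsSmooth α ∧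
    IsD α η ∧ IsCompact K ∧ Disjoint K Z ∧ (∀ x, x ∉ K → α x = 0) ∧ σ = ω₀ + η

/-- the relative coarse condition -/
def CoarseR (n : ℕ) {X : Type} [TopologicalSpace X] [ChartedSpace (E n) X] (C : ℕ → ℝ)
    (Z : Set X) (ω₀ : Form n X 2) (T : Rel n X) : Prop :=
  ∃ (U : Set X) (N : ℕ) (d : X → X → ℝ) (S : Set ℝ) (f : ℝ → X → Fin N → ℝ × ℝ),
    IsOpen U ∧ Z ⊆ U ∧ IsCompact Uᶜ ∧ (0 : ℝ) ∈ closure (S ∩ Ioi 0) ∧
    (∀ r ∈ S, ∀ x ∈ U, f r x = 0) ∧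
    (∀ x ∈ U, ∀ v : TangentSpace (𝓡 n) x, v ≠ 0 → ∃ w : TangentSpace (𝓡 n) x, T x v w ∧
      0 < ω₀ x ![v, w]) ∧
    ∀ x, x ∉ U → CRegJ n d S f (QS n N (C N) ω₀ T) x

/-- from the coarse condition to smooth forms -/
theorem forwardR [T2Space X] [LocallyCompactSpace X] [SecondCountableTopology X]
    [IsManifold (𝓡 n) ∞ X] {C : ℕ → ℝ}
    (hC : ∀ N, 4 * N * CJ n ^ 2 ≤ C N) {Z : Set X} (hZ : IsClosed Z) {ω₀ : Form n X 2}
    (hs : IsSmooth ω₀) (hc : IsClosedForm ω₀) {T : Rel n X} (h : CoarseR n C Z ω₀ T) :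
    ∃ σ : Form n X 2, InClassR Z ω₀ σ ∧ ∀ (x : X) (v : TangentSpace (𝓡 n) x), v ≠ 0 →
      ∃ w : TangentSpace (𝓡 n) x, T x v w ∧ 0 < σ x ![v, w] := by
  obtain ⟨U, N, d, S, f, hU, hZU, hUc, hS, hf0, hω, hf⟩ := h
  obtain ⟨a, b, K, hK, hKZ, ha, hb, hab, hpos⟩ := sympR N (hC N) ω₀ (fun _ _ => True) T d S hS
    U Z hU hZ hZU hUc f hf0 (fun x hx v hv _ => hω x hx v hv) fun x hx =>
      (hf x hx).mono fun A p L κ δ hδ hQ v hv _ => hQ v hv
  have hP : Pair (∑ j, fdg (d := n) (a j) (b j)) (∑ j, dfdg (d := n) (a j) (b j)) :=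
    Pair.sum _ fun j _ => Pair.gen _ _ (ha j) (hb j)
  obtain ⟨p1, p2, p3, p4⟩ := hP.props Pool.Agent.Y484.SY.t_GEN
  refine ⟨_, ⟨hs.add p2, ?_, _, _, K, p1, p3, hK, hKZ, fun x hx => ?_, rfl⟩,
    fun x v hv => hpos x v hv trivial⟩
  · have := Pool.Agent.Y501.SY.IsD.add hc p4 hs p2
    rwa [add_zero] at this
  · rw [Finset.sum_apply]
    refine Finset.sum_eq_zero fun j _ => ?_
    ext v
    show a j x * dd (d := n) (b j) x (v 0) = 0
    rw [(hab x hx j).1, zero_mul]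

/-- from smooth forms to the coarse condition -/
theorem backwardR [T2Space X] [LocallyCompactSpace X] [SecondCountableTopology X]
    [IsManifold (𝓡 n) ∞ X] (C : ℕ → ℝ) {Z : Set X} (hZ : IsClosed Z)
    {ω₀ σ : Form n X 2} (h : InClassR Z ω₀ σ) {T : Rel n X}
    (hT : ∀ x : X, ∃ A : E n → X, A 0 = x ∧ LD n A 0 ∧ ∃ m ρ : ℝ, 0 < m ∧ 0 < ρ ∧
      ∀ p, ‖p‖ < ρ → ∀ v : E n, v ≠ 0 → ∃ w : E n,
      T (A p) (mfderiv (𝓡 n) (𝓡 n) A p v) (mfderiv (𝓡 n) (𝓡 n) A p w) ∧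
      m * (‖v‖ * ‖w‖) < pb A σ p ![v, w])
    (hT' : ∀ (x : X) (v : TangentSpace (𝓡 n) x), v ≠ 0 → ∃ w : TangentSpace (𝓡 n) x,
      T x v w ∧ 0 < σ x ![v, w]) :
    CoarseR n C Z ω₀ T := by
  obtain ⟨-, -, α, η, K, hα, hη, hK, hKZ, hαK, rfl⟩ := h
  obtain ⟨K1, hK1, h01, h1Z⟩ := exists_compact_between hK hZ.isOpen_compl
    (disjoint_left.1 hKZ)
  obtain ⟨K2, hK2, h12, h2Z⟩ := exists_compact_between hK1 hZ.isOpen_compl h1Z
  obtain ⟨N, a, b, ha, hb, hab, rfl⟩ := exact_pairsK hα hη hK hK1 h01 h12 hαK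
  obtain ⟨d, hd⟩ := exists_distK (n := n) (X := X) hK2
  have hF : ∀ x, ContMDiffAt (𝓡 n) 𝓘(ℝ, Fin N → ℝ × ℝ) ∞
      (fun x => (fun j => (a j x, b j x) : Fin N → ℝ × ℝ)) x := by
    intro x
    exact contMDiffAt_pi_space.2 fun j => ((ha j).prodMk_space (hb j)) x
  refine ⟨K2ᶜ, N, d, univ, fun _ x j => (a j x, b j x), hK2.isClosed.isOpen_compl,
    fun x hx hx2 => h2Z hx2 hx, by rwa [compl_compl], ?_, fun _ _ x hx => ?_, fun x hx v hv => ?_,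
    fun x hx => ?_⟩
  · rw [univ_inter, closure_Ioi]
    exact self_mem_Ici
  · funext j
    obtain ⟨h1, h2⟩ := hab x hx j
    show (a j x, b j x) = (0 : ℝ × ℝ)
    rw [h1, h2]
    rfl
  · obtain ⟨w, hw, hpos⟩ := hT' x v hv
    refine ⟨w, hw, ?_⟩
    have h1 : ∀ j : Fin N, dfdg (d := n) (a j) (b j) x = 0 := by
      intro j
      refine dfdg_zero ?_
      filter_upwards [hK2.isClosed.isOpen_compl.mem_nhds hx] with y hy
      exact (hab y hy j).1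
    have h2 : (ω₀ + ∑ j, dfdg (d := n) (a j) (b j)) x = ω₀ x := by
      rw [Pi.add_apply, Finset.sum_apply, Finset.sum_eq_zero fun j _ => h1 j, add_zero]
    rwa [h2] at hpos
  · have hxK : x ∈ K2 := not_not.1 hx
    obtain ⟨A, hA0, hA, m, ρ₀, hm, hρ₀, hpos⟩ := hT x
    obtain ⟨κ, ρ1, hκ, hρ1, hAd⟩ := hd A hA (by rwa [hA0])
    obtain ⟨ρ2, τ, hρ2, hτ, hmain⟩ := conv_core (C N) ω₀ hF T hA hκ hm hρ₀ hpos
    refine ⟨A, κ, min ρ1 ρ2, τ, hA0, hA, hκ, lt_min hρ1 hρ2, hτ, fun p q hp hq =>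
      hAd p q (hp.trans_le (min_le_left _ _)) (hq.trans_le (min_le_left _ _)),
      fun p hp r _ h0 hr => ?_⟩
    exact hmain p (hp.trans_le (min_le_right _ _)) r h0 (hr.trans_le (min_le_right _ _))

/-- the characterization -/
theorem mainR (n : ℕ) (C : ℕ → ℝ) (hC : ∀ N, 4 * N * CJ n ^ 2 ≤ C N) (X : Type)
    [TopologicalSpace X] [ChartedSpace (E n) X] [IsManifold (𝓡 n) ∞ X]
    [T2Space X] [SecondCountableTopology X] (Z : Set X) (hZ : IsClosed Z)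
    (ω₀ : Form n X 2) (hs : IsSmooth ω₀) (hc : IsClosedForm ω₀) :
    ((∃ σ : Form n X 2, InClassR Z ω₀ σ ∧ Nondeg σ) ↔ CoarseR n C Z ω₀ fun _ _ _ => True) ∧
    ∀ J : End n X, IsAlmostComplex J →
      ((∃ σ : Form n X 2, InClassR Z ω₀ σ ∧ ∀ x, TamesAt σ J x) ↔
        CoarseR n C Z ω₀ fun x v w => w = J x v) := by
  have : LocallyCompactSpace X := ChartedSpace.locallyCompactSpace (E n) X
  refine ⟨⟨?_, ?_⟩, fun J hJ => ⟨?_, ?_⟩⟩
  · rintro ⟨σ, hσ, hnd⟩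
    refine backwardR C hZ hσ (fun x => ?_) fun x v hv => ?_
    · obtain ⟨A, hA0, hA⟩ := exists_param (n := n) x
      exact ⟨A, hA0, hA, pos_top hσ.1 hA ((nondeg_iff σ).1 hnd)⟩
    · obtain ⟨w, hw⟩ := (nondeg_iff σ).1 hnd x v hv
      exact ⟨w, trivial, hw⟩
  · intro h
    obtain ⟨σ, hσ, hpos⟩ := forwardR hC hZ hs hc h
    refine ⟨σ, hσ, (nondeg_iff σ).2 fun x v hv => ?_⟩
    obtain ⟨w, -, hw⟩ := hpos x v hv
    exact ⟨w, hw⟩
  · rintro ⟨σ, hσ, htm⟩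
    refine backwardR C hZ hσ (fun x => ?_) fun x v hv => ?_
    · exact ⟨par n x, par_zero x, par_LD x, pos_J hσ.1 hJ x (htm x)⟩
    · exact ⟨_, rfl, htm x v hv⟩
  · intro h
    obtain ⟨σ, hσ, hpos⟩ := forwardR hC hZ hs hc h
    refine ⟨σ, hσ, fun x v hv => ?_⟩
    obtain ⟨w, rfl, hw⟩ := hpos x v hv
    exact hw

end Pool.Agent.N824.CJ
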