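import Pool.Agent.N824.CJ.PubR
import Pool.Agent.N824.CJ.Bridge
import Pool.Agent.N824.CJ.FinalR

/-!
# Comparison of the definitions over `ES n` with the working definitions, relative version
-/

set_option autoImplicit false
set_option maxSynthPendingDepth 3

open Set Filter Topology Metric MeasureTheory
open scoped Manifold ContDiff

noncomputable section

namespace Pool.Agent.N824.CJP

open Pool.Agent.Y501 Pool.Agent.Y501.SYP

section

variable {d : ℕ} {X : Type} [TopologicalSpace X] [ChartedSpace (ES d) X]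

attribute [local instance] cs
attribute [local instance] mf

theorem inClassRel_iff (Z : Set X) (ω₀ σ : Form (ES d) X 2) :
    InClassRel Z ω₀ σ ↔ CJ.InClassR (n := d) (X := X) Z ω₀ σ := by
  constructor
  · rintro ⟨h1, h2, α, η, K, h3, h4, k1, k2, k3, h5⟩
    exact ⟨(smooth_iff σ).1 h1, (closed_iff σ).1 h2, α, η, K, (smooth_iff α).1 h3,
      (isD_iff α η).1 h4, k1, k2, k3, h5⟩
  · rintro ⟨h1, h2, α, η, K, h3, h4, k1, k2, k3, h5⟩
    exact ⟨(smooth_iff σ).2 h1, (closed_iff σ).2 h2, α, η, K, (smooth_iff α).2 h3,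
      (isD_iff α η).2 h4, k1, k2, k3, h5⟩

theorem coarseRel_iff (C : ℕ → ℝ) (Z : Set X) (ω₀ : Form (ES d) X 2) (T : Rel (ES d) X) :
    HasCoarseRel d (vol d) C Z ω₀ T ↔ CJ.CoarseR (n := d) (X := X) C Z ω₀ T := by
  constructor
  · rintro ⟨U, N, dd, S, f, a1, a2, a3, hS, a4, a5, hf⟩
    refine ⟨U, N, dd, S, f, a1, a2, a3, hS, a4, a5, fun x hx => ?_⟩
    obtain ⟨A, κ, ρ, τ, ⟨h1, h2, h3, h4, h5⟩, h6, h7⟩ := hf x hx
    refine ⟨A, κ, ρ, τ, h1, h2, h3, h4, h6, h5, fun p hp r hr h0 hrρ => ?_⟩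
    obtain ⟨L, δ, k1, k2, k3, k4⟩ := h7 p hp r hr h0 hrρ
    exact ⟨L, δ, k1, k2, k3, k4⟩
  · rintro ⟨U, N, dd, S, f, a1, a2, a3, hS, a4, a5, hf⟩
    refine ⟨U, N, dd, S, f, a1, a2, a3, hS, a4, a5, fun x hx => ?_⟩
    obtain ⟨A, κ, ρ, τ, h1, h2, h3, h4, h6, h5, h7⟩ := hf x hx
    refine ⟨A, κ, ρ, τ, ⟨h1, h2, h3, h4, h5⟩, h6, fun p hp r hr h0 hrρ => ?_⟩
    obtain ⟨L, δ, k1, k2, k3, k4⟩ := h7 p hp r hr h0 hrρ
    exact ⟨L, δ, k1, k2, k3, k4⟩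

/-- the characterization -/
theorem mainRelP (n : ℕ) (C : ℕ → ℝ) (hC : ∀ N, 4 * N * CJ.CJ n ^ 2 ≤ C N) (X : Type)
    [TopologicalSpace X] [ChartedSpace (ES n) X] [IsManifold 𝓘(ℝ, ES n) ∞ X]
    [T2Space X] [SecondCountableTopology X] (Z : Set X) (hZ : IsClosed Z)
    (ω₀ : Form (ES n) X 2) (hs : IsSmooth ω₀) (hc : IsClosedForm ω₀) :
    ((∃ σ : Form (ES n) X 2, InClassRel Z ω₀ σ ∧ Nondeg σ) ↔
      HasCoarseRel n (vol n) C Z ω₀ (allPairs (ES n) X)) ∧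
    ∀ J : End (ES n) X, IsAlmostComplex J →
      ((∃ σ : Form (ES n) X 2, InClassRel Z ω₀ σ ∧ ∀ x, TamesAt σ J x) ↔
        HasCoarseRel n (vol n) C Z ω₀ (complexPairs J)) := by
  obtain ⟨h1, h2⟩ := CJ.mainR n C hC X Z hZ ω₀ ((smooth_iff ω₀).1 hs) ((closed_iff ω₀).1 hc)
  refine ⟨?_, fun J hJ => ?_⟩
  · rw [coarseRel_iff]
    refine Iff.trans ?_ h1
    exact exists_congr fun σ => and_congr (inClassRel_iff Z ω₀ σ) (nondeg_iff σ)
  · rw [coarseRel_iff]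
    refine Iff.trans ?_ (h2 J (ac_of J hJ))
    exact exists_congr fun σ => and_congr (inClassRel_iff Z ω₀ σ) Iff.rfl

end

end Pool.Agent.N824.CJP
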