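import Pool.Agent.N824.CJ.FinalR

/-!
# Smooth maps are affine in the mean: version for a set of tangent vectors
-/

set_option autoImplicit false
set_option maxSynthPendingDepth 3

open Set Filter Topology Metric Function MeasureTheory
open scoped Manifold ContDiff Convolution

set_option linter.unusedSectionVars false

noncomputable section

namespace Pool.Agent.N824.CJ

open Pool.Agent.Y522 Pool.Agent.Y954.SH Pool.Agent.N824.CR Pool.Agent.N824.CN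
open Pool.Agent.Y501.SY (Form IsSmooth IsD IsClosedForm pb dfdg fdg dd SmoothFun End inChart
  IsAlmostComplex TamesAt)

variable {n : ℕ} {X : Type} [TopologicalSpace X] [ChartedSpace (E n) X]

/-- smooth maps are affine in the mean -/
theorem conv_coreV [IsManifold (𝓡 n) ∞ X] {N : ℕ} (C : ℝ) (ω₀ : Form n X 2)
    {F : X → Fin N → ℝ × ℝ} (hF : ∀ x, ContMDiffAt (𝓡 n) 𝓘(ℝ, Fin N → ℝ × ℝ) ∞ F x)
    (V : Vec n X) (T : Rel n X) {A : E n → X} (hA : LD n A 0) {κ : ℝ} (hκ : 1 ≤ κ) {m ρ₀ : ℝ} (hm : 0 < m)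
    (hρ₀ : 0 < ρ₀)
    (hpos : ∀ p, ‖p‖ < ρ₀ → ∀ v : E n, v ≠ 0 → V (A p) (mfderiv (𝓡 n) (𝓡 n) A p v) → ∃ w : E n,
      T (A p) (mfderiv (𝓡 n) (𝓡 n) A p v) (mfderiv (𝓡 n) (𝓡 n) A p w) ∧
      m * (‖v‖ * ‖w‖) <
        pb A (ω₀ + ∑ j, dfdg (d := n) (fun x => (F x j).1) (fun x => (F x j).2)) p ![v, w]) :
    ∃ (ρ : ℝ) (τ : ℝ → ℝ), 0 < ρ ∧ Tendsto τ (𝓝[>] 0) (𝓝 0) ∧
      ∀ p, ‖p‖ < ρ → ∀ r, 0 < r → r < ρ → ∃ (L : E n →L[ℝ] (Fin N → ℝ × ℝ)) (δ : ℝ), 0 ≤ δ ∧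
        ‖L‖ * r ≤ δ * τ r ∧ AM n (fun z => F (A z)) p κ r δ L ∧ QV n N C ω₀ V T A p L κ δ := by
  obtain ⟨h, hh⟩ : ∃ h : E n → Fin N → ℝ × ℝ, h = fun z => F (A z) := ⟨_, rfl⟩
  have hsm : ∀ᶠ p in 𝓝 (0 : E n), LD n A p ∧ ContDiffAt ℝ ∞ h p := by
    filter_upwards [hA.eventually] with p hp
    refine ⟨hp, ?_⟩
    have h1 : ContMDiffAt (𝓡 n) 𝓘(ℝ, Fin N → ℝ × ℝ) ∞ (F ∘ A) p := (hF (A p)).comp p hp.contMDiffAt
    rw [hh]
    exact contMDiffAt_iff_contDiffAt.1 h1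
  obtain ⟨ρ2, hρ2, hb2⟩ := Metric.mem_nhds_iff.1 hsm
  obtain ⟨ρ1, Cq, hρ1, hCq, hd1, hq1⟩ := quad_ballW hsm.self_of_nhds.2 one_pos
  obtain ⟨Bd, hBd⟩ : ∃ Bd, Bd = ‖fderiv ℝ h 0‖ + 1 := ⟨_, rfl⟩
  have hBd0 : 0 ≤ Bd := by rw [hBd]; positivity
  obtain ⟨Cd, hCd⟩ : ∃ Cd, Cd = Cq * κ ^ (2 * n + 4) * VB n + Bd := ⟨_, rfl⟩
  have hVB := VB_nonneg (n := n)
  have hCd0 : 0 ≤ Cd := by rw [hCd]; positivity
  have hsq : Tendsto Real.sqrt (𝓝[>] 0) (𝓝 0) := by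
    have h1 : Tendsto Real.sqrt (𝓝 0) (𝓝 (Real.sqrt 0)) := Real.continuous_sqrt.continuousAt
    rw [Real.sqrt_zero] at h1
    exact h1.mono_left nhdsWithin_le_nhds
  have hlim : Tendsto (fun r : ℝ => |C| * κ ^ (4 * n + 4) * ((Cd * Real.sqrt r) *
      (Bd + Cd * Real.sqrt r))) (𝓝 0) (𝓝 0) := by
    have h1 : Continuous (fun r : ℝ => |C| * κ ^ (4 * n + 4) * ((Cd * Real.sqrt r) *
      (Bd + Cd * Real.sqrt r))) := by fun_prop
    have h2 := h1.tendsto 0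
    simpa using h2
  obtain ⟨ρ3, hρ3, hb3⟩ := Metric.mem_nhds_iff.1 (hlim.eventually_lt_const hm)
  have hκ2 : 0 < 1 + κ ^ 2 := by positivity
  obtain ⟨ρ, hρ⟩ : ∃ ρ, ρ = min (min ρ₀ 1) (min ρ3 (min ρ1 ρ2 / (1 + κ ^ 2))) := ⟨_, rfl⟩
  have hρ0 : 0 < ρ := by
    rw [hρ]
    have : 0 < min ρ1 ρ2 := lt_min hρ1 hρ2
    exact lt_min (lt_min hρ₀ one_pos) (lt_min hρ3 (by positivity))
  have c1 : ρ ≤ ρ₀ := by rw [hρ]; exact (min_le_left _ _).trans (min_le_left _ _)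
  have c2 : ρ ≤ 1 := by rw [hρ]; exact (min_le_left _ _).trans (min_le_right _ _)
  have c3 : ρ ≤ ρ3 := by rw [hρ]; exact (min_le_right _ _).trans (min_le_left _ _)
  have c4 : ρ * (1 + κ ^ 2) ≤ min ρ1 ρ2 := by
    have : ρ ≤ min ρ1 ρ2 / (1 + κ ^ 2) := by
      rw [hρ]; exact (min_le_right _ _).trans (min_le_right _ _)
    rwa [le_div_iff₀ hκ2] at this
  refine ⟨ρ, Real.sqrt, hρ0, hsq, fun p hp r hr hrρ => ?_⟩
  have hball : ∀ q, ‖q - p‖ ≤ κ ^ 2 * r → ‖q‖ < min ρ1 ρ2 := by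
    intro q hq
    have h1 : κ ^ 2 * r ≤ κ ^ 2 * ρ := by gcongr
    calc ‖q‖ = ‖(q - p) + p‖ := by congr 1; abel
      _ ≤ ‖q - p‖ + ‖p‖ := norm_add_le _ _
      _ < ρ * (1 + κ ^ 2) := by nlinarith
      _ ≤ _ := c4
  have hs0 : 0 < Real.sqrt r := Real.sqrt_pos.2 hr
  have hss : Real.sqrt r * Real.sqrt r = r := Real.mul_self_sqrt hr.le
  have hsr : r ≤ Real.sqrt r := by
    have h1 : Real.sqrt r ≤ 1 := Real.sqrt_le_one.2 (by linarith)
    nlinarith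
  have hpp : ‖p‖ < min ρ1 ρ2 := hball p (by simp; positivity)
  have hL : ‖fderiv ℝ h p‖ ≤ Bd := by
    have h1 := hd1 p (by
      rw [sub_zero]
      exact hpp.trans_le (min_le_left _ _))
    rw [hBd]
    calc ‖fderiv ℝ h p‖ = ‖(fderiv ℝ h p - fderiv ℝ h 0) + fderiv ℝ h 0‖ := by congr 1; abel
      _ ≤ _ := (norm_add_le _ _).trans (by linarith)
  refine ⟨fderiv ℝ h p, Cd * Real.sqrt r, by positivity, ?_, ⟨?_, h p, ?_⟩, ?_⟩
  · calc ‖fderiv ℝ h p‖ * r ≤ Cd * r := by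
          gcongr
          rw [hCd]
          have : 0 ≤ Cq * κ ^ (2 * n + 4) * VB n := by positivity
          linarith
      _ = Cd * Real.sqrt r * Real.sqrt r := by rw [mul_assoc, hss]
  · rw [← hh]
    refine ContinuousOn.integrableOn_compact (isCompact_closedBall _ _) fun q hq => ?_
    rw [mem_closedBall, dist_eq_norm] at hq
    exact (hb2 (mem_ball_zero_iff.2 ((hball q hq).trans_le
      (min_le_right _ _)))).2.continuousAt.continuousWithinAt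
  · have hk : 0 < κ ^ 2 * r := by positivity
    have h1 : ∀ q, ‖q - p‖ ≤ κ ^ 2 * r →
        ‖h q - h p - fderiv ℝ h p (q - p)‖ ≤ Cq * (κ ^ 2 * r) * (κ ^ 2 * r) := by
      intro q hq
      refine (hq1 p (κ ^ 2 * r) (fun q hq => ?_) q hq).trans ?_
      · rw [sub_zero]
        exact (hball q hq).trans_le (min_le_left _ _)
      · gcongr
    have h2 : ∫ q in closedBall p (κ ^ 2 * r), ‖h q - h p - fderiv ℝ h p (q - p)‖ ≤
        Cq * (κ ^ 2 * r) * (κ ^ 2 * r) * ((κ ^ 2 * r) ^ n * VB n) := by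
      have h3 : ‖∫ q in closedBall p (κ ^ 2 * r), ‖h q - h p - fderiv ℝ h p (q - p)‖‖ ≤
          Cq * (κ ^ 2 * r) * (κ ^ 2 * r) *
            (volume : Measure (E n)).real (closedBall p (κ ^ 2 * r)) := by
        refine norm_setIntegral_le_of_norm_le_const measure_closedBall_lt_top fun q hq => ?_
        rw [mem_closedBall, dist_eq_norm] at hq
        rw [norm_norm]
        exact h1 q hq
      rw [vol_cb p hk] at h3
      exact (le_abs_self _).trans h3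
    rw [← hh]
    refine h2.trans ?_
    have e1 : Cq * (κ ^ 2 * r) * (κ ^ 2 * r) * ((κ ^ 2 * r) ^ n * VB n) =
        (Cq * κ ^ (2 * n + 4) * VB n) * r * r ^ (n + 1) := by
      rw [mul_pow, ← pow_mul, pow_succ, pow_add]
      ring
    rw [e1]
    have h5 : Cq * κ ^ (2 * n + 4) * VB n ≤ Cd := by rw [hCd]; linarith
    gcongr
  · intro v hv hV
    obtain ⟨w, hT, hw⟩ := hpos p (hp.trans_le c1) v hv hV
    refine ⟨w, hT, ?_⟩
    have hAp := (hb2 (mem_ball_zero_iff.2 (hpp.trans_le (min_le_right _ _)))).1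
    rw [Pool.Agent.Y501.SY.pb_add, Pi.add_apply, ContinuousAlternatingMap.add_apply,
      pb_std hF hAp v w, ← hh] at hw
    refine lt_of_le_of_lt ?_ hw
    have h1 := hb3 (mem_ball_zero_iff.2 (by
      rw [Real.norm_of_nonneg hr.le]
      exact hrρ.trans_le c3))
    have h2 : |C| * κ ^ (4 * n + 4) * (Cd * Real.sqrt r * (Bd + Cd * Real.sqrt r)) < m := h1
    have h3 : C * κ ^ (4 * n + 4) * (Cd * Real.sqrt r * (‖fderiv ℝ h p‖ + Cd * Real.sqrt r)) ≤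
        m := by
      refine le_trans ?_ h2.le
      have := le_abs_self C
      gcongr
    gcongr

end Pool.Agent.N824.CJ
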