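import Pool.Agent.N824.CJ.ConvV

/-!
# Uniform positivity on the vertical vectors of a submersion
-/

set_option autoImplicit false
set_option maxSynthPendingDepth 3

open Set Filter Topology Metric Function MeasureTheory
open scoped Manifold ContDiff Convolution

set_option linter.unusedSectionVars false

noncomputable section

namespace Pool.Agent.N824.CJ

open Pool.Agent.Y522 Pool.Agent.Y954.SH Pool.Agent.N824.CR Pool.Agent.N824.CN
open Pool.Agent.Y501.SY (Form IsSmooth IsD IsClosedForm pb dfdg fdg dd SmoothFun Pair End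
  IsAlmostComplex TamesAt)

variable {n : ℕ} {X : Type} [TopologicalSpace X] [ChartedSpace (E n) X]

/-- a nondegenerate form on a subspace is uniformly nondegenerate -/
theorem unifK {β : E n [⋀^Fin 2]→L[ℝ] ℝ} (K : Submodule ℝ (E n))
    (h : ∀ v ∈ K, v ≠ 0 → ∃ w ∈ K, 0 < β ![v, w]) :
    ∃ m : ℝ, 0 < m ∧ ∀ v ∈ K, v ≠ 0 → ∃ w ∈ K, m * (‖v‖ * ‖w‖) < β ![v, w] := by
  obtain ⟨Λ, hΛ⟩ : ∃ Λ : K →ₗ[ℝ] (K →L[ℝ] ℝ), ∀ v w, Λ v w = β ![(v : E n), (w : E n)] := by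
    refine ⟨?_, ?_⟩
    · refine
        { toFun := fun v => LinearMap.toContinuousLinearMap
            { toFun := fun w => β ![(v : E n), (w : E n)]
              map_add' := fun w w' => ?_
              map_smul' := fun c w => ?_ }
          map_add' := fun v v' => ?_
          map_smul' := fun c v => ?_ }
      · have h1 := β.map_update_add ![(v : E n), (w : E n)] 1 w w'
        rwa [upd1, upd1, upd1] at h1
      · have h1 := β.map_update_smul ![(v : E n), (w : E n)] 1 c w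
        rwa [upd1, upd1] at h1
      · ext w
        have h1 := β.map_update_add ![(v : E n), (w : E n)] 0 v v'
        rwa [upd0, upd0, upd0] at h1
      · ext w
        have h1 := β.map_update_smul ![(v : E n), (w : E n)] 0 c v
        rwa [upd0, upd0] at h1
    · intro v w
      rfl
  have hinj : Injective Λ := by
    rw [← LinearMap.ker_eq_bot, LinearMap.ker_eq_bot']
    intro v hv
    by_contra hv0
    obtain ⟨w, hwK, hw⟩ := h v v.2 (fun h => hv0 (Subtype.ext h))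
    have h1 : Λ v ⟨w, hwK⟩ = β ![(v : E n), w] := hΛ v ⟨w, hwK⟩
    rw [← h1, hv] at hw
    simp at hw
  obtain ⟨c, hc, hcl⟩ := exists_lower Λ hinj
  refine ⟨c / 2, by positivity, fun v hvK hv => ?_⟩
  have hvn : 0 < ‖v‖ := norm_pos_iff.2 hv
  by_contra hcon
  push Not at hcon
  have h1 : ‖Λ ⟨v, hvK⟩‖ ≤ c / 2 * ‖v‖ := by
    refine ContinuousLinearMap.opNorm_le_bound _ (by positivity) fun w => ?_
    rw [Real.norm_eq_abs, abs_le]
    have h2 := hcon w w.2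
    have h3 := hcon (-w) (K.neg_mem w.2)
    have e2 : Λ ⟨v, hvK⟩ w = β ![v, (w : E n)] := hΛ _ _
    have e3 : Λ ⟨v, hvK⟩ (-w) = β ![v, -(w : E n)] := hΛ _ _
    rw [← e2] at h2
    rw [← e3] at h3
    rw [map_neg, norm_neg] at h3
    have e4 : ‖(w : E n)‖ = ‖w‖ := rfl
    rw [e4] at h2 h3
    constructor
    · nlinarith
    · nlinarith
  have h2 := hcl ⟨v, hvK⟩
  have e5 : ‖(⟨v, hvK⟩ : K)‖ = ‖v‖ := rfl
  rw [e5] at h2
  nlinarith

lemma beta_diff (β : E n [⋀^Fin 2]→L[ℝ] ℝ) (v v' w w' : E n) :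
    β ![v', w'] - β ![v, w] ≤ ‖β‖ * (‖v' - v‖ * ‖w‖ + ‖v'‖ * ‖w' - w‖) := by
  have h1 : β ![v', w'] - β ![v, w] = β ![v' - v, w] + β ![v', w' - w] := by
    have k1 := β.map_update_add ![v' - v, w] 0 (v' - v) v
    rw [upd0, upd0, upd0, sub_add_cancel] at k1
    have k2 := β.map_update_add ![v', w' - w] 1 (w' - w) w
    rw [upd1, upd1, upd1, sub_add_cancel] at k2
    linarith
  rw [h1]
  have k1 := (abs_le.1 (alt_bound β (v' - v) w)).2
  have k2 := (abs_le.1 (alt_bound β v' (w' - w))).2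
  linarith

/-- uniform positivity on the kernels of a continuous family of surjective linear maps -/
theorem pos_ker {V' : Type} [NormedAddCommGroup V'] [NormedSpace ℝ V']
    {D : E n → E n →L[ℝ] V'} (hD : ContinuousAt D 0) (hsurj : Surjective (D 0))
    {β : E n → E n [⋀^Fin 2]→L[ℝ] ℝ} (hβ : ContinuousAt β 0)
    (h : ∀ v, D 0 v = 0 → v ≠ 0 → ∃ w, D 0 w = 0 ∧ 0 < β 0 ![v, w]) :
    ∃ m ρ : ℝ, 0 < m ∧ 0 < ρ ∧ ∀ p, ‖p‖ < ρ → ∀ v, v ≠ 0 → D p v = 0 → ∃ w, D p w = 0 ∧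
      m * (‖v‖ * ‖w‖) < β p ![v, w] := by
  have hfin : FiniteDimensional ℝ V' := FiniteDimensional.of_surjective (D 0).toLinearMap hsurj
  obtain ⟨R', hR'⟩ := LinearMap.exists_rightInverse_of_surjective (D 0).toLinearMap
    (LinearMap.range_eq_top.2 hsurj)
  obtain ⟨R, hR⟩ : ∃ R : V' →L[ℝ] E n, R = LinearMap.toContinuousLinearMap R' := ⟨_, rfl⟩
  have hDR : ∀ y, D 0 (R y) = y := fun y => by
    rw [hR]
    exact LinearMap.congr_fun hR' y
  obtain ⟨M, hM⟩ : ∃ M : E n → V' →L[ℝ] V', M = fun p => (D p).comp R := ⟨_, rfl⟩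
  have hM0 : M 0 = 1 := by
    rw [hM]
    ext y
    exact hDR y
  have hMc : ContinuousAt M 0 := by
    rw [hM]
    exact hD.clm_comp continuousAt_const
  have hcomplete : CompleteSpace V' := FiniteDimensional.complete ℝ V'
  obtain ⟨Q, hQ⟩ : ∃ Q : E n → V' →L[ℝ] V', Q = fun p => Ring.inverse (M p) := ⟨_, rfl⟩
  have hQc : ContinuousAt Q 0 := by
    rw [hQ]
    have h1 : ContinuousAt Ring.inverse (M 0) := by
      rw [hM0]
      exact NormedRing.inverse_continuousAt (1 : (V' →L[ℝ] V')ˣ)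
    exact ContinuousAt.comp (g := Ring.inverse) (f := M) h1 hMc
  obtain ⟨Pj, hPj⟩ : ∃ Pj : E n → E n →L[ℝ] E n, Pj = fun p =>
    ContinuousLinearMap.id ℝ (E n) - R.comp ((Q p).comp (D p)) := ⟨_, rfl⟩
  have hPjc : ContinuousAt Pj 0 := by
    rw [hPj]
    exact continuousAt_const.sub (continuousAt_const.clm_comp (hQc.clm_comp hD))
  have hunit : ∀ᶠ p in 𝓝 (0 : E n), IsUnit (M p) := by
    refine hMc.eventually ?_
    rw [hM0]
    exact Units.isOpen.mem_nhds isUnit_one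
  have hPjk : ∀ p, IsUnit (M p) → ∀ w, D p (Pj p w) = 0 := by
    intro p hp w
    have h1 : M p * Q p = 1 := by
      rw [hQ]
      exact Ring.mul_inverse_cancel _ hp
    have h2 : (M p) (Q p (D p w)) = D p w := by
      have := DFunLike.congr_fun h1 (D p w)
      exact this
    have h3 : D p (R (Q p (D p w))) = D p w := by
      rw [hM] at h2
      exact h2
    rw [hPj]
    show D p (w - R (Q p (D p w))) = 0
    rw [map_sub, h3, sub_self]
  have hPji : ∀ p v, D p v = 0 → Pj p v = v := by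
    intro p v hv
    rw [hPj]
    show v - R (Q p (D p v)) = v
    rw [hv, map_zero, map_zero, sub_zero]
  obtain ⟨K, hK⟩ : ∃ K : Submodule ℝ (E n), K = LinearMap.ker (D 0).toLinearMap := ⟨_, rfl⟩
  have hKm : ∀ v, v ∈ K ↔ D 0 v = 0 := fun v => by
    rw [hK]
    rfl
  obtain ⟨c, hc, hcw⟩ := unifK (β := β 0) K fun v hv hv0 => by
    obtain ⟨w, hw, hpos⟩ := h v ((hKm v).1 hv) hv0
    exact ⟨w, (hKm w).2 hw, hpos⟩
  obtain ⟨B, hB⟩ : ∃ B, B = ‖β 0‖ := ⟨_, rfl⟩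
  have hB0 : 0 ≤ B := by rw [hB]; exact norm_nonneg _
  obtain ⟨ε, hε⟩ : ∃ ε : ℝ, ε = min (1 / 2) (c / (32 * (B + 1))) := ⟨_, rfl⟩
  have hε0 : 0 < ε := by
    rw [hε]
    exact lt_min (by norm_num) (by positivity)
  have hε1 : ε ≤ 1 / 2 := by rw [hε]; exact min_le_left _ _
  have hε2 : 4 * B * ε ≤ c / 8 := by
    have h1 : ε ≤ c / (32 * (B + 1)) := by rw [hε]; exact min_le_right _ _
    rw [le_div_iff₀ (by positivity)] at h1
    nlinarith
  have q1 : ∀ᶠ p in 𝓝 (0 : E n), ‖Pj p - Pj 0‖ < ε := by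
    have h1 : Tendsto (fun p => ‖Pj p - Pj 0‖) (𝓝 0) (𝓝 ‖Pj 0 - Pj 0‖) :=
      (hPjc.sub continuousAt_const).norm
    rw [sub_self, norm_zero] at h1
    exact h1.eventually_lt_const hε0
  have q2 : ∀ᶠ p in 𝓝 (0 : E n), ‖β p - β 0‖ < c / 16 := by
    have h1 : Tendsto (fun p => ‖β p - β 0‖) (𝓝 0) (𝓝 ‖β 0 - β 0‖) :=
      (hβ.sub continuousAt_const).norm
    rw [sub_self, norm_zero] at h1
    exact h1.eventually_lt_const (by positivity)
  obtain ⟨ρ, hρ, hb⟩ := Metric.mem_nhds_iff.1 (hunit.and (q1.and q2))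
  have hunit0 : IsUnit (M 0) := by rw [hM0]; exact isUnit_one
  refine ⟨c / 16, ρ, by positivity, hρ, fun p hp v hv hDv => ?_⟩
  obtain ⟨r1, r2, r3⟩ := hb (mem_ball_zero_iff.2 hp)
  obtain ⟨v', hv'⟩ : ∃ v', v' = Pj 0 v := ⟨_, rfl⟩
  have hvn : 0 < ‖v‖ := norm_pos_iff.2 hv
  have a1 : ‖v - v'‖ ≤ ε * ‖v‖ := by
    have h1 : v - v' = (Pj p - Pj 0) v := by
      rw [sub_apply, hPji p v hDv, hv']
    rw [h1]
    exact (ContinuousLinearMap.le_opNorm _ _).trans (by gcongr)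
  have a2 : ‖v'‖ ≤ 2 * ‖v‖ := by
    have h1 : ‖v'‖ ≤ ‖v‖ + ‖v - v'‖ := by
      calc ‖v'‖ = ‖v - (v - v')‖ := by congr 1; abel
        _ ≤ _ := norm_sub_le _ _
    nlinarith
  have a3 : ‖v‖ / 2 ≤ ‖v'‖ := by
    have h1 : ‖v‖ ≤ ‖v'‖ + ‖v - v'‖ := by
      calc ‖v‖ = ‖v' + (v - v')‖ := by congr 1; abel
        _ ≤ _ := norm_add_le _ _
    nlinarith
  have hv'0 : v' ≠ 0 := by
    intro h0
    rw [h0, norm_zero] at a3
    linarith
  have hv'K : v' ∈ K := (hKm v').2 (by rw [hv']; exact hPjk 0 hunit0 v)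
  obtain ⟨w', hw'K, hw'⟩ := hcw v' hv'K hv'0
  have hw'D : D 0 w' = 0 := (hKm w').1 hw'K
  obtain ⟨w, hw⟩ : ∃ w, w = Pj p w' := ⟨_, rfl⟩
  have b1 : ‖w - w'‖ ≤ ε * ‖w'‖ := by
    have h1 : w - w' = (Pj p - Pj 0) w' := by
      rw [sub_apply, hPji 0 w' hw'D, hw]
    rw [h1]
    exact (ContinuousLinearMap.le_opNorm _ _).trans (by gcongr)
  have hw'n := norm_nonneg w'
  have b2 : ‖w‖ ≤ 2 * ‖w'‖ := by
    have h1 : ‖w‖ ≤ ‖w'‖ + ‖w - w'‖ := by
      calc ‖w‖ = ‖w' + (w - w')‖ := by congr 1; abel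
        _ ≤ _ := norm_add_le _ _
    nlinarith
  have hw'0 : 0 < ‖w'‖ := by
    rcases eq_or_lt_of_le hw'n with h0 | h0
    · have h1 : w' = 0 := norm_eq_zero.1 h0.symm
      rw [h1] at hw'
      have h2 : β 0 ![v', (0 : E n)] = 0 := (β 0).map_coord_zero 1 rfl
      rw [h2, norm_zero, mul_zero, mul_zero] at hw'
      exact absurd hw' (lt_irrefl _)
    · exact h0
  refine ⟨w, by rw [hw]; exact hPjk p r1 w', ?_⟩
  have c1 := beta_diff (β 0) v v' w w'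
  rw [← hB] at c1
  have c2 : |(β p - β 0) ![v, w]| ≤ ‖β p - β 0‖ * (‖v‖ * ‖w‖) := alt_bound _ _ _
  have c3 : (β p - β 0) ![v, w] = β p ![v, w] - β 0 ![v, w] := rfl
  rw [c3] at c2
  have c4 := (abs_le.1 c2).1
  have hvw : 0 < ‖v‖ * ‖w'‖ := by positivity
  have d1 : ‖β p - β 0‖ * (‖v‖ * ‖w‖) ≤ c / 8 * (‖v‖ * ‖w'‖) := by
    calc ‖β p - β 0‖ * (‖v‖ * ‖w‖) ≤ c / 16 * (‖v‖ * (2 * ‖w'‖)) := by gcongr
      _ = _ := by ring
  have d2 : B * (‖v' - v‖ * ‖w‖ + ‖v'‖ * ‖w' - w‖) ≤ c / 8 * (‖v‖ * ‖w'‖) := by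
    rw [norm_sub_rev v' v, norm_sub_rev w' w]
    calc B * (‖v - v'‖ * ‖w‖ + ‖v'‖ * ‖w - w'‖) ≤
        B * ((ε * ‖v‖) * (2 * ‖w'‖) + (2 * ‖v‖) * (ε * ‖w'‖)) := by gcongr
      _ = (4 * B * ε) * (‖v‖ * ‖w'‖) := by ring
      _ ≤ _ := by gcongr
  have d3 : c / 2 * (‖v‖ * ‖w'‖) ≤ c * (‖v'‖ * ‖w'‖) := by
    calc c / 2 * (‖v‖ * ‖w'‖) = c * (‖v‖ / 2 * ‖w'‖) := by ring
      _ ≤ _ := by gcongr
  have d4 : c / 16 * (‖v‖ * ‖w‖) ≤ c / 8 * (‖v‖ * ‖w'‖) := by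
    calc c / 16 * (‖v‖ * ‖w‖) ≤ c / 16 * (‖v‖ * (2 * ‖w'‖)) := by gcongr
      _ = _ := by ring
  have d5 : 0 < c * (‖v‖ * ‖w'‖) := by positivity
  nlinarith

end Pool.Agent.N824.CJ
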