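import Pool.Agent.N824.CJ.FinalR
import Pool.Agent.N824.CJ.ConvV
import Pool.Agent.N824.CJ.Vert

/-!
# Fibrewise symplectic forms and maps which are affine in the mean
-/

set_option autoImplicit false
set_option maxSynthPendingDepth 3

open Set Filter Topology Metric Function MeasureTheory
open scoped Manifold ContDiff Convolution

set_option linter.unusedSectionVars false

noncomputable section

namespace Pool.Agent.N824.CJ

open Pool.Agent.Y522 Pool.Agent.Y954.SH Pool.Agent.N824.CR Pool.Agent.N824.CN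
open Pool.Agent.Y501.SY (Form IsSmooth IsD IsClosedForm pb dfdg fdg dd SmoothFun Pair End
  IsAlmostComplex TamesAt)

variable {n : ℕ} {X : Type} [TopologicalSpace X] [ChartedSpace (E n) X]
  {W : Type} [NormedAddCommGroup W] [NormedSpace ℝ W] {B : Type} [TopologicalSpace B]
  [ChartedSpace W B]

/-- the relative coarse condition on the tangent vectors in `V` -/
def CoarseRV (n : ℕ) {X : Type} [TopologicalSpace X] [ChartedSpace (E n) X] (C : ℕ → ℝ)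
    (Z : Set X) (ω₀ : Form n X 2) (V : Vec n X) (T : Rel n X) : Prop :=
  ∃ (U : Set X) (N : ℕ) (d : X → X → ℝ) (S : Set ℝ) (f : ℝ → X → Fin N → ℝ × ℝ),
    IsOpen U ∧ Z ⊆ U ∧ IsCompact Uᶜ ∧ (0 : ℝ) ∈ closure (S ∩ Ioi 0) ∧
    (∀ r ∈ S, ∀ x ∈ U, f r x = 0) ∧ (∀ x ∈ U, PosAt ω₀ V T x) ∧
    ∀ x, x ∉ U → CRegJ n d S f (QV n N (C N) ω₀ V T) x

/-- from the coarse condition to smooth forms -/
theorem forwardRV [T2Space X] [LocallyCompactSpace X] [SecondCountableTopology X]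
    [IsManifold (𝓡 n) ∞ X] {C : ℕ → ℝ}
    (hC : ∀ N, 4 * N * CJ n ^ 2 ≤ C N) {Z : Set X} (hZ : IsClosed Z) {ω₀ : Form n X 2}
    (hs : IsSmooth ω₀) (hc : IsClosedForm ω₀) {V : Vec n X} {T : Rel n X}
    (h : CoarseRV n C Z ω₀ V T) :
    ∃ σ : Form n X 2, InClassR Z ω₀ σ ∧ ∀ x, PosAt σ V T x := by
  obtain ⟨U, N, d, S, f, hU, hZU, hUc, hS, hf0, hω, hf⟩ := h
  obtain ⟨a, b, K, hK, hKZ, ha, hb, hab, hpos⟩ := sympR N (hC N) ω₀ V T d S hS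
    U Z hU hZ hZU hUc f hf0 hω hf
  have hP : Pair (∑ j, fdg (d := n) (a j) (b j)) (∑ j, dfdg (d := n) (a j) (b j)) :=
    Pair.sum _ fun j _ => Pair.gen _ _ (ha j) (hb j)
  obtain ⟨p1, p2, p3, p4⟩ := hP.props Pool.Agent.Y484.SY.t_GEN
  refine ⟨_, ⟨hs.add p2, ?_, _, _, K, p1, p3, hK, hKZ, fun x hx => ?_, rfl⟩, hpos⟩
  · have := Pool.Agent.Y501.SY.IsD.add hc p4 hs p2
    rwa [add_zero] at this
  · rw [Finset.sum_apply]
    refine Finset.sum_eq_zero fun j _ => ?_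
    ext v
    show a j x * dd (d := n) (b j) x (v 0) = 0
    rw [(hab x hx j).1, zero_mul]

/-- from smooth forms to the coarse condition -/
theorem backwardRV [T2Space X] [LocallyCompactSpace X] [SecondCountableTopology X]
    [IsManifold (𝓡 n) ∞ X] (C : ℕ → ℝ) {Z : Set X} (hZ : IsClosed Z)
    {ω₀ σ : Form n X 2} (h : InClassR Z ω₀ σ) {V : Vec n X} {T : Rel n X}
    (hT : ∀ x : X, ∃ A : E n → X, A 0 = x ∧ LD n A 0 ∧ ∃ m ρ : ℝ, 0 < m ∧ 0 < ρ ∧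
      ∀ p, ‖p‖ < ρ → ∀ v : E n, v ≠ 0 → V (A p) (mfderiv (𝓡 n) (𝓡 n) A p v) → ∃ w : E n,
      T (A p) (mfderiv (𝓡 n) (𝓡 n) A p v) (mfderiv (𝓡 n) (𝓡 n) A p w) ∧
      m * (‖v‖ * ‖w‖) < pb A σ p ![v, w])
    (hT' : ∀ x : X, PosAt σ V T x) :
    CoarseRV n C Z ω₀ V T := by
  obtain ⟨-, -, α, η, K, hα, hη, hK, hKZ, hαK, rfl⟩ := h
  obtain ⟨K1, hK1, h01, h1Z⟩ := exists_compact_between hK hZ.isOpen_compl
    (disjoint_left.1 hKZ)
  obtain ⟨K2, hK2, h12, h2Z⟩ := exists_compact_between hK1 hZ.isOpen_compl h1Z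
  obtain ⟨N, a, b, ha, hb, hab, rfl⟩ := exact_pairsK hα hη hK hK1 h01 h12 hαK
  obtain ⟨d, hd⟩ := exists_distK (n := n) (X := X) hK2
  have hF : ∀ x, ContMDiffAt (𝓡 n) 𝓘(ℝ, Fin N → ℝ × ℝ) ∞
      (fun x => (fun j => (a j x, b j x) : Fin N → ℝ × ℝ)) x := by
    intro x
    exact contMDiffAt_pi_space.2 fun j => ((ha j).prodMk_space (hb j)) x
  refine ⟨K2ᶜ, N, d, univ, fun _ x j => (a j x, b j x), hK2.isClosed.isOpen_compl,
    fun x hx hx2 => h2Z hx2 hx, by rwa [compl_compl], ?_, fun _ _ x hx => ?_,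
    fun x hx v hv hV => ?_, fun x hx => ?_⟩
  · rw [univ_inter, closure_Ioi]
    exact self_mem_Ici
  · funext j
    obtain ⟨h1, h2⟩ := hab x hx j
    show (a j x, b j x) = (0 : ℝ × ℝ)
    rw [h1, h2]
    rfl
  · obtain ⟨w, hw, hpos⟩ := hT' x v hv hV
    refine ⟨w, hw, ?_⟩
    have h1 : ∀ j : Fin N, dfdg (d := n) (a j) (b j) x = 0 := by
      intro j
      refine dfdg_zero ?_
      filter_upwards [hK2.isClosed.isOpen_compl.mem_nhds hx] with y hy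
      exact (hab y hy j).1
    have h2 : (ω₀ + ∑ j, dfdg (d := n) (a j) (b j)) x = ω₀ x := by
      rw [Pi.add_apply, Finset.sum_apply, Finset.sum_eq_zero fun j _ => h1 j, add_zero]
    rwa [h2] at hpos
  · have hxK : x ∈ K2 := not_not.1 hx
    obtain ⟨A, hA0, hA, m, ρ₀, hm, hρ₀, hpos⟩ := hT x
    obtain ⟨κ, ρ1, hκ, hρ1, hAd⟩ := hd A hA (by rwa [hA0])
    obtain ⟨ρ2, τ, hρ2, hτ, hmain⟩ := conv_coreV (C N) ω₀ hF V T hA hκ hm hρ₀ hpos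
    refine ⟨A, κ, min ρ1 ρ2, τ, hA0, hA, hκ, lt_min hρ1 hρ2, hτ, fun p q hp hq =>
      hAd p q (hp.trans_le (min_le_left _ _)) (hq.trans_le (min_le_left _ _)),
      fun p hp r _ h0 hr => ?_⟩
    exact hmain p (hp.trans_le (min_le_right _ _)) r h0 (hr.trans_le (min_le_right _ _))

/-- vertical vectors -/
def VertV (W : Type) [NormedAddCommGroup W] [NormedSpace ℝ W] {B : Type} [TopologicalSpace B]
    [ChartedSpace W B] (π : X → B) : Vec n X := fun x v => mfderiv (𝓡 n) 𝓘(ℝ, W) π x v = 0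

/-- pairs of tangent vectors of which the second is vertical -/
def VertT (W : Type) [NormedAddCommGroup W] [NormedSpace ℝ W] {B : Type} [TopologicalSpace B]
    [ChartedSpace W B] (π : X → B) : Rel n X := fun x _ w => mfderiv (𝓡 n) 𝓘(ℝ, W) π x w = 0

theorem vert_local [IsManifold (𝓡 n) ∞ X] [IsManifold 𝓘(ℝ, W) ∞ B] {π : X → B}
    (hπ : ContMDiff (𝓡 n) 𝓘(ℝ, W) ∞ π)
    (hs : ∀ x, Surjective (mfderiv (𝓡 n) 𝓘(ℝ, W) π x)) {A : E n → X} (hA : LD n A 0) :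
    ∃ D : E n → E n →L[ℝ] W, ContinuousAt D 0 ∧ Surjective (D 0) ∧
      ∀ᶠ p in 𝓝 (0 : E n), ∀ v : E n, D p v = 0 ↔
        mfderiv (𝓡 n) 𝓘(ℝ, W) π (A p) (mfderiv (𝓡 n) (𝓡 n) A p v) = 0 := by
  obtain ⟨φ, hφ⟩ : ∃ φ : B → W, φ = extChartAt 𝓘(ℝ, W) (π (A 0)) := ⟨_, rfl⟩
  obtain ⟨g, hg⟩ : ∃ g : E n → W, g = fun z => φ (π (A z)) := ⟨_, rfl⟩
  have hsrc : ∀ᶠ p in 𝓝 (0 : E n), π (A p) ∈ (extChartAt 𝓘(ℝ, W) (π (A 0))).source := by
    have h1 : ContinuousAt (fun p => π (A p)) 0 :=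
      ContinuousAt.comp (g := π) (f := A) (hπ.continuous.continuousAt) hA.contMDiffAt.continuousAt
    exact h1.eventually (extChartAt_source_mem_nhds (I := 𝓘(ℝ, W)) (π (A 0)))
  have key : ∀ p, LD n A p → π (A p) ∈ (extChartAt 𝓘(ℝ, W) (π (A 0))).source →
      ContDiffAt ℝ ∞ g p ∧
      (∀ v : E n, fderiv ℝ g p v = mfderiv 𝓘(ℝ, W) 𝓘(ℝ, W) φ (π (A p))
        (mfderiv (𝓡 n) 𝓘(ℝ, W) π (A p) (mfderiv (𝓡 n) (𝓡 n) A p v))) ∧
      Bijective (mfderiv 𝓘(ℝ, W) 𝓘(ℝ, W) φ (π (A p))) := by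
    intro p hp hsp
    have hφs : ContMDiffAt 𝓘(ℝ, W) 𝓘(ℝ, W) ∞ φ (π (A p)) := by
      rw [hφ]
      refine contMDiffAt_extChartAt' ?_
      rwa [extChartAt_source] at hsp
    have hπA : ContMDiffAt (𝓡 n) 𝓘(ℝ, W) ∞ (π ∘ A) p := (hπ (A p)).comp p hp.contMDiffAt
    have hgs : ContMDiffAt (𝓡 n) 𝓘(ℝ, W) ∞ (φ ∘ (π ∘ A)) p := ContMDiffAt.comp p hφs hπA
    have e1 : g = φ ∘ (π ∘ A) := hg
    refine ⟨?_, fun v => ?_, ?_⟩
    · rw [e1]
      exact contMDiffAt_iff_contDiffAt.1 hgs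
    · have h0 : fderiv ℝ g p v = mfderiv (𝓡 n) 𝓘(ℝ, W) (φ ∘ (π ∘ A)) p v := by
        rw [← mfderiv_eq_fderiv, e1]
        rfl
      have h1 := mfderiv_comp_apply p (hφs.mdifferentiableAt (by simp))
        (hπA.mdifferentiableAt (by simp)) v
      have h2 := mfderiv_comp_apply p ((hπ (A p)).mdifferentiableAt (by simp))
        (hp.contMDiffAt.mdifferentiableAt (by simp)) v
      have h3 : mfderiv (𝓡 n) 𝓘(ℝ, W) (π ∘ A) p v =
        (mfderiv (𝓡 n) 𝓘(ℝ, W) π (A p) (mfderiv (𝓡 n) (𝓡 n) A p v)) := h2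
      refine (h0.trans h1).trans ?_
      exact congrArg (mfderiv 𝓘(ℝ, W) 𝓘(ℝ, W) φ (π (A p))) h3
    · rw [hφ]
      obtain ⟨e, he⟩ := isInvertible_mfderiv_extChartAt (I := 𝓘(ℝ, W)) hsp
      rw [← he]
      exact e.bijective
  have hA0 := hA.eventually
  obtain ⟨k1, k2, k3⟩ := key 0 hA0.self_of_nhds hsrc.self_of_nhds
  refine ⟨fderiv ℝ g, ?_, ?_, ?_⟩
  · exact (k1.fderiv_right (m := 0) (by simp)).continuousAt
  · intro y
    obtain ⟨y1, hy1⟩ := k3.2 y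
    obtain ⟨y2, hy2⟩ := hs (A 0) y1
    obtain ⟨v, hv⟩ : ∃ v : E n, mfderiv (𝓡 n) (𝓡 n) A 0 v = y2 := by
      have h := hA.mfderivToContinuousLinearEquiv_coe (by simp)
      refine ⟨(hA.mfderivToContinuousLinearEquiv (by simp)).symm y2, ?_⟩
      rw [← h]
      exact (hA.mfderivToContinuousLinearEquiv (by simp)).apply_symm_apply y2
    refine ⟨v, ?_⟩
    rw [k2, hv, hy2, hy1]
  · filter_upwards [hA0, hsrc] with p hp hsp v
    obtain ⟨-, j2, j3⟩ := key p hp hsp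
    rw [j2]
    have hz : mfderiv 𝓘(ℝ, W) 𝓘(ℝ, W) φ (π (A p)) 0 = 0 :=
      (mfderiv 𝓘(ℝ, W) 𝓘(ℝ, W) φ (π (A p))).map_zero
    constructor
    · intro h
      exact j3.1 (h.trans hz.symm)
    · intro h
      rw [h]
      exact hz

/-- forms nondegenerate on the fibres are uniformly so near a point -/
theorem pos_vert [IsManifold (𝓡 n) ∞ X] [IsManifold 𝓘(ℝ, W) ∞ B] {π : X → B}
    (hπ : ContMDiff (𝓡 n) 𝓘(ℝ, W) ∞ π)
    (hs : ∀ x, Surjective (mfderiv (𝓡 n) 𝓘(ℝ, W) π x)) {σ : Form n X 2} (hσ : IsSmooth σ)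
    {A : E n → X} (hA : LD n A 0) (h : PosAt σ (VertV W π) (VertT W π) (A 0)) :
    ∃ m ρ : ℝ, 0 < m ∧ 0 < ρ ∧
      ∀ p, ‖p‖ < ρ → ∀ v : E n, v ≠ 0 → VertV W π (A p) (mfderiv (𝓡 n) (𝓡 n) A p v) →
        ∃ w : E n, VertT W π (A p) (mfderiv (𝓡 n) (𝓡 n) A p v) (mfderiv (𝓡 n) (𝓡 n) A p w) ∧
      m * (‖v‖ * ‖w‖) < pb A σ p ![v, w] := by
  obtain ⟨D, hDc, hDs, hD⟩ := vert_local hπ hs hA
  have hD0 := hD.self_of_nhds
  obtain ⟨m, ρ1, hm, hρ1, hmain⟩ := pos_ker hDc hDs (pb_contAt hσ hA) fun v hv hv0 => by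
    have hv' : mfderiv (𝓡 n) (𝓡 n) A 0 v ≠ 0 := by
      intro h1
      apply hv0
      apply hA.mfderiv_injective
      exact h1.trans (ContinuousLinearMap.map_zero _).symm
    obtain ⟨w', hw1, hw'⟩ := h _ hv' ((hD0 v).1 hv)
    obtain ⟨w, rfl⟩ : ∃ w : E n, mfderiv (𝓡 n) (𝓡 n) A 0 w = w' := by
      have h := hA.mfderivToContinuousLinearEquiv_coe (by simp)
      refine ⟨(hA.mfderivToContinuousLinearEquiv (by simp)).symm w', ?_⟩
      rw [← h]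
      exact (hA.mfderivToContinuousLinearEquiv (by simp)).apply_symm_apply w'
    refine ⟨w, (hD0 w).2 hw1, ?_⟩
    have e2 : (fun i => mfderiv (𝓡 n) (𝓡 n) A 0 ((![v, w] : Fin 2 → E n) i)) =
        ![mfderiv (𝓡 n) (𝓡 n) A 0 v, mfderiv (𝓡 n) (𝓡 n) A 0 w] := by
      funext i
      fin_cases i <;> rfl
    rw [← e2] at hw'
    exact hw'
  obtain ⟨ρ2, hρ2, hb2⟩ := Metric.mem_nhds_iff.1 hD
  refine ⟨m, min ρ1 ρ2, hm, lt_min hρ1 hρ2, fun p hp v hv hV => ?_⟩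
  have hDp := hb2 (mem_ball_zero_iff.2 (hp.trans_le (min_le_right _ _)))
  obtain ⟨w, hw1, hw2⟩ := hmain p (hp.trans_le (min_le_left _ _)) v hv ((hDp v).2 hV)
  exact ⟨w, (hDp w).1 hw1, hw2⟩

/-- the characterization -/
theorem mainV (n : ℕ) (C : ℕ → ℝ) (hC : ∀ N, 4 * N * CJ n ^ 2 ≤ C N) (X : Type)
    [TopologicalSpace X] [ChartedSpace (E n) X] [IsManifold (𝓡 n) ∞ X]
    [T2Space X] [SecondCountableTopology X] [IsManifold 𝓘(ℝ, W) ∞ B] (π : X → B)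
    (hπ : ContMDiff (𝓡 n) 𝓘(ℝ, W) ∞ π)
    (hsub : ∀ x, Surjective (mfderiv (𝓡 n) 𝓘(ℝ, W) π x)) (Z : Set X) (hZ : IsClosed Z)
    (ω₀ : Form n X 2) (hs : IsSmooth ω₀) (hc : IsClosedForm ω₀) :
    (∃ σ : Form n X 2, InClassR Z ω₀ σ ∧ ∀ x, PosAt σ (VertV W π) (VertT W π) x) ↔
      CoarseRV n C Z ω₀ (VertV W π) (VertT W π) := by
  have : LocallyCompactSpace X := ChartedSpace.locallyCompactSpace (E n) X
  constructor
  · rintro ⟨σ, hσ, hpos⟩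
    refine backwardRV C hZ hσ (fun x => ?_) hpos
    obtain ⟨A, hA0, hA⟩ := exists_param (n := n) x
    refine ⟨A, hA0, hA, pos_vert hπ hsub hσ.1 hA ?_⟩
    exact hpos _
  · exact fun h => forwardRV hC hZ hs hc h

end Pool.Agent.N824.CJ
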