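import Pool.Agent.N824.CJ.PubF
import Pool.Agent.N824.CJ.BridgeR
import Pool.Agent.N824.CJ.FinalV

/-!
# Comparison of the definitions over `ES n` with the working definitions: fibrewise theorem
-/

set_option autoImplicit false
set_option maxSynthPendingDepth 3

open Set Filter Topology Metric MeasureTheory
open scoped Manifold ContDiff

noncomputable section

namespace Pool.Agent.N824.CJP

open Pool.Agent.Y501 Pool.Agent.Y501.SYP

section

variable {d : ℕ} {X : Type} [TopologicalSpace X] [ChartedSpace (ES d) X]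
  {W : Type} [NormedAddCommGroup W] [NormedSpace ℝ W] {B : Type}
  [TopologicalSpace B] [ChartedSpace W B]

attribute [local instance] cs
attribute [local instance] mf

theorem coarseRelOn_iff (P : Vecs (ES d) X) (C : ℕ → ℝ) (Z : Set X) (ω₀ : Form (ES d) X 2)
    (T : Rel (ES d) X) :
    HasCoarseRelOn P d (vol d) C Z ω₀ T ↔ CJ.CoarseRV (n := d) (X := X) C Z ω₀ P T := by
  constructor
  · rintro ⟨U, N, dd, S, f, a1, a2, a3, hS, a4, a5, hf⟩
    refine ⟨U, N, dd, S, f, a1, a2, a3, hS, a4, a5, fun x hx => ?_⟩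
    obtain ⟨A, κ, ρ, τ, ⟨h1, h2, h3, h4, h5⟩, h6, h7⟩ := hf x hx
    refine ⟨A, κ, ρ, τ, h1, h2, h3, h4, h6, h5, fun p hp r hr h0 hrρ => ?_⟩
    obtain ⟨L, δ, k1, k2, k3, k4⟩ := h7 p hp r hr h0 hrρ
    exact ⟨L, δ, k1, k2, k3, k4⟩
  · rintro ⟨U, N, dd, S, f, a1, a2, a3, hS, a4, a5, hf⟩
    refine ⟨U, N, dd, S, f, a1, a2, a3, hS, a4, a5, fun x hx => ?_⟩
    obtain ⟨A, κ, ρ, τ, h1, h2, h3, h4, h6, h5, h7⟩ := hf x hx
    refine ⟨A, κ, ρ, τ, ⟨h1, h2, h3, h4, h5⟩, h6, fun p hp r hr h0 hrρ => ?_⟩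
    obtain ⟨L, δ, k1, k2, k3, k4⟩ := h7 p hp r hr h0 hrρ
    exact ⟨L, δ, k1, k2, k3, k4⟩

lemma alt_neg (β : (ES d) [⋀^Fin 2]→L[ℝ] ℝ) (v w : ES d) : β ![v, -w] = -β ![v, w] := by
  have k1 := β.map_update_smul ![v, w] 1 (-1 : ℝ) w
  have k2 : Function.update ![v, w] 1 ((-1 : ℝ) • w) = ![v, -w] := by
    funext i
    fin_cases i
    · rfl
    · show (-1 : ℝ) • w = -w
      rw [neg_smul, one_smul]
  have k3 : Function.update ![v, w] 1 w = ![v, w] := by
    funext i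
    fin_cases i <;> rfl
  rw [k2, k3] at k1
  rw [k1]
  simp

theorem fibreNondeg_iff (π : X → B) (σ : Form (ES d) X 2) :
    FibreNondeg W π σ ↔ ∀ x, CJ.PosAt (n := d) (X := X) σ (CJ.VertV (n := d) (X := X) W π)
      (CJ.VertT (n := d) (X := X) W π) x := by
  constructor
  · intro h x v hv hV
    by_contra hcon
    refine hv (h x v hV fun w hw => ?_)
    by_contra hne
    apply hcon
    rcases lt_or_gt_of_ne hne with h1 | h1
    · refine ⟨-w, ?_, ?_⟩
      · show mfderiv 𝓘(ℝ, ES d) 𝓘(ℝ, W) π x (-w) = 0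
        rw [map_neg]
        have : mfderiv 𝓘(ℝ, ES d) 𝓘(ℝ, W) π x w = 0 := hw
        rw [this, neg_zero]
      · have h2 : σ x ![v, -w] = -σ x ![v, w] := alt_neg (σ x) v w
        have h3 : (0 : ℝ) < σ x ![v, -w] := by
          rw [h2]
          linarith
        exact h3
    · exact ⟨w, hw, h1⟩
  · intro h x v hV h0
    by_contra hv
    obtain ⟨w, hw, hpos⟩ := h x v hv hV
    have h1 := h0 w hw
    exact absurd h1 (ne_of_gt hpos)

/-- the characterization -/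
theorem mainFP (n : ℕ) (C : ℕ → ℝ) (hC : ∀ N, 4 * N * CJ.CJ n ^ 2 ≤ C N) (X : Type)
    [TopologicalSpace X] [ChartedSpace (ES n) X] [IsManifold 𝓘(ℝ, ES n) ∞ X]
    [T2Space X] [SecondCountableTopology X] [IsManifold 𝓘(ℝ, W) ∞ B] (π : X → B)
    (hπ : Submersion (V := ES n) W π) (Z : Set X) (hZ : IsClosed Z)
    (ω₀ : Form (ES n) X 2) (hs : IsSmooth ω₀) (hc : IsClosedForm ω₀) :
    (∃ σ : Form (ES n) X 2, InClassRel Z ω₀ σ ∧ FibreNondeg W π σ) ↔
      HasCoarseRelOn (vertVecs W π) n (vol n) C Z ω₀ (vertPairs W π) := by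
  rw [coarseRelOn_iff]
  refine Iff.trans ?_ (CJ.mainV n C hC X π hπ.1 hπ.2 Z hZ ω₀ ((smooth_iff ω₀).1 hs)
    ((closed_iff ω₀).1 hc))
  exact exists_congr fun σ => and_congr (inClassRel_iff Z ω₀ σ) (fibreNondeg_iff π σ)

end

end Pool.Agent.N824.CJP
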