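import Pool.Agent.N824.CJ.ConvV

/-!
# The coarse Thurston-Gompf theorem
-/

set_option autoImplicit false
set_option maxSynthPendingDepth 3

open Set Filter Topology Metric Function MeasureTheory
open scoped Manifold ContDiff Convolution

set_option linter.unusedSectionVars false

noncomputable section

namespace Pool.Agent.N824.CJ

open Pool.Agent.Y522 Pool.Agent.Y954.SH Pool.Agent.N824.CR Pool.Agent.N824.CN
open Pool.Agent.Y501.SY (Form IsSmooth IsD IsClosedForm pb dfdg fdg dd SmoothFun Pair End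
  IsAlmostComplex TamesAt)

variable {n : ℕ} {X : Type} [TopologicalSpace X] [ChartedSpace (E n) X]

/-- the null vectors of `ζ` -/
def NullV (ζ : Form n X 2) (J : End n X) : Vec n X := fun x v => ζ x ![v, J x v] = 0

/-- the coarse condition on the tangent vectors in `V` -/
def CoarseN (n : ℕ) {X : Type} [TopologicalSpace X] [ChartedSpace (E n) X] (C : ℕ → ℝ)
    (ω₀ : Form n X 2) (V : Vec n X) (T : Rel n X) : Prop :=
  ∃ (N : ℕ) (d : X → X → ℝ) (S : Set ℝ) (f : ℝ → X → Fin N → ℝ × ℝ),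
    (0 : ℝ) ∈ closure (S ∩ Ioi 0) ∧ ∀ x, CRegJ n d S f (QV n N (C N) ω₀ V T) x

lemma quad_smul (β : E n [⋀^Fin 2]→L[ℝ] ℝ) (J0 : E n →L[ℝ] E n) (c : ℝ) (v : E n) :
    β ![c • v, J0 (c • v)] = c * (c * β ![v, J0 v]) := by
  rw [map_smul]
  have k1 := β.map_update_smul ![v, c • J0 v] 0 c v
  rw [upd0, upd0] at k1
  have k2 := β.map_update_smul ![v, J0 v] 1 c (J0 v)
  rw [upd1, upd1] at k2
  rw [k1, k2]
  simp

lemma quad_cont (β : E n [⋀^Fin 2]→L[ℝ] ℝ) (J0 : E n →L[ℝ] E n) :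
    Continuous fun v : E n => β ![v, J0 v] := by
  refine β.cont.comp (continuous_pi fun i => ?_)
  fin_cases i
  · exact continuous_id
  · exact J0.continuous

/-- the linear algebra of Thurston's construction -/
lemma lin_t (β γ : E n [⋀^Fin 2]→L[ℝ] ℝ) (J0 : E n →L[ℝ] E n) (h0 : ∀ v, 0 ≤ γ ![v, J0 v])
    (hp : ∀ v, v ≠ 0 → γ ![v, J0 v] = 0 → 0 < β ![v, J0 v]) :
    ∃ t : ℝ, 0 ≤ t ∧ ∀ v, v ≠ 0 → 0 < β ![v, J0 v] + t * γ ![v, J0 v] := by
  obtain ⟨t, ht, hts⟩ : ∃ t : ℝ, 0 ≤ t ∧ ∀ v : E n, ‖v‖ = 1 →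
      0 < β ![v, J0 v] + t * γ ![v, J0 v] := by
    obtain ⟨P, hP⟩ : ∃ P : Set (E n), P = sphere 0 1 ∩ {v | β ![v, J0 v] ≤ 0} := ⟨_, rfl⟩
    have hPc : IsCompact P := by
      rw [hP]
      exact (isCompact_sphere _ _).inter_right (isClosed_le (quad_cont β J0) continuous_const)
    obtain ⟨G, hG⟩ := (isCompact_sphere (0 : E n) 1).exists_bound_of_continuousOn
      (quad_cont β J0).continuousOn
    rcases P.eq_empty_or_nonempty with he | hne
    · refine ⟨0, le_rfl, fun v hv => ?_⟩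
      rw [zero_mul, add_zero]
      by_contra hcon
      push Not at hcon
      have : v ∈ P := by
        rw [hP]
        exact ⟨mem_sphere_zero_iff_norm.2 hv, hcon⟩
      rw [he] at this
      exact this
    · obtain ⟨v0, hv0, hmin⟩ := hPc.exists_isMinOn hne (quad_cont γ J0).continuousOn
      have hv0' := hv0
      rw [hP] at hv0'
      have hv01 : ‖v0‖ = 1 := mem_sphere_zero_iff_norm.1 hv0'.1
      have hpos : 0 < γ ![v0, J0 v0] := by
        refine lt_of_le_of_ne (h0 v0) fun h => ?_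
        have h1 := hp v0 (by rintro rfl; simp at hv01) h.symm
        have h2 : β ![v0, J0 v0] ≤ 0 := hv0'.2
        linarith
      have hG0 : 0 ≤ G := (norm_nonneg _).trans (hG v0 hv0'.1)
      refine ⟨(G + 1) / γ ![v0, J0 v0], by positivity, fun v hv => ?_⟩
      by_cases hvP : v ∈ P
      · have h1 : γ ![v0, J0 v0] ≤ γ ![v, J0 v] := hmin hvP
        have h2 := hG v (mem_sphere_zero_iff_norm.2 hv)
        rw [Real.norm_eq_abs] at h2
        have h3 := (abs_le.1 h2).1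
        have h4 : G + 1 ≤ (G + 1) / γ ![v0, J0 v0] * γ ![v, J0 v] := by
          rw [div_mul_eq_mul_div, le_div_iff₀ hpos]
          gcongr
        linarith
      · have h1 : 0 < β ![v, J0 v] := by
          by_contra hcon
          push Not at hcon
          apply hvP
          rw [hP]
          exact ⟨mem_sphere_zero_iff_norm.2 hv, hcon⟩
        have h2 : 0 ≤ (G + 1) / γ ![v0, J0 v0] * γ ![v, J0 v] :=
          mul_nonneg (by positivity) (h0 v)
        linarith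
  refine ⟨t, ht, fun v hv => ?_⟩
  have hvn : 0 < ‖v‖ := norm_pos_iff.2 hv
  have h1 := hts (‖v‖⁻¹ • v) (by rw [norm_smul, norm_inv, norm_norm, inv_mul_cancel₀ hvn.ne'])
  rw [quad_smul, quad_smul] at h1
  have h2 : ‖v‖⁻¹ * (‖v‖⁻¹ * β ![v, J0 v]) + t * (‖v‖⁻¹ * (‖v‖⁻¹ * γ ![v, J0 v])) =
      (‖v‖⁻¹ * ‖v‖⁻¹) * (β ![v, J0 v] + t * γ ![v, J0 v]) := by ring
  rw [h2] at h1
  exact pos_of_mul_pos_right h1 (by positivity)

/-- positivity on the null vectors -/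
def PosN (σ ζ : Form n X 2) (J : End n X) : Prop :=
  ∀ (x : X) (v : TangentSpace (𝓡 n) x), v ≠ 0 → ζ x ![v, J x v] = 0 → 0 < σ x ![v, J x v]

/-- `ζ` is semipositive -/
def SemiPos (ζ : Form n X 2) (J : End n X) : Prop :=
  ∀ (x : X) (v : TangentSpace (𝓡 n) x), 0 ≤ ζ x ![v, J x v]

theorem point_t {σ ζ : Form n X 2} {J : End n X} (h0 : SemiPos ζ J) (hp : PosN σ ζ J) (x : X) :
    ∃ t : ℝ, 0 ≤ t ∧ TamesAt (σ + t • ζ) J x := by
  obtain ⟨t, ht, h⟩ := lin_t (σ x) (ζ x) (J x) (h0 x) (hp x)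
  exact ⟨t, ht, fun v hv => h v hv⟩

/-- taming is an open condition -/
theorem tame_nhds [IsManifold (𝓡 n) ∞ X] {σ : Form n X 2} (hσ : IsSmooth σ) {J : End n X}
    (hJ : IsAlmostComplex J) {x : X} (h : TamesAt σ J x) : ∀ᶠ y in 𝓝 x, TamesAt σ J y := by
  obtain ⟨m, ρ, hm, hρ, hpos⟩ := pos_J hσ hJ x h
  have hA := par_LD (n := n) x
  have h1 := hA.image_mem_nhds (Filter.inter_mem (ball_mem_nhds (0 : E n) hρ) hA.eventually)
  rw [par_zero] at h1
  filter_upwards [h1] with y hy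
  obtain ⟨p, ⟨hp1, hp2⟩, rfl⟩ := hy
  intro v' hv'
  have hp2' : LD n (par n x) p := hp2
  obtain ⟨v, rfl⟩ : ∃ v : E n, mfderiv (𝓡 n) (𝓡 n) (par n x) p v = v' := by
    have h := hp2'.mfderivToContinuousLinearEquiv_coe (by simp)
    refine ⟨(hp2'.mfderivToContinuousLinearEquiv (by simp)).symm v', ?_⟩
    rw [← h]
    exact (hp2'.mfderivToContinuousLinearEquiv (by simp)).apply_symm_apply v'
  have hv : v ≠ 0 := by
    rintro rfl
    exact hv' (map_zero _)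
  obtain ⟨w, hw1, hw2⟩ := hpos p (mem_ball_zero_iff.1 hp1) v hv
  have h3 : 0 < pb (par n x) σ p ![v, w] :=
    lt_of_le_of_lt (by positivity) hw2
  rw [← hw1]
  have e2 : (fun i => mfderiv (𝓡 n) (𝓡 n) (par n x) p ((![v, w] : Fin 2 → E n) i)) =
      ![mfderiv (𝓡 n) (𝓡 n) (par n x) p v, mfderiv (𝓡 n) (𝓡 n) (par n x) p w] := by
    funext i
    fin_cases i <;> rfl
  rw [← e2]
  exact h3

/-- Thurston's construction -/
theorem thurston [CompactSpace X] [IsManifold (𝓡 n) ∞ X] {σ ζ : Form n X 2} {J : End n X}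
    (hσ : IsSmooth σ) (hζ : IsSmooth ζ) (hJ : IsAlmostComplex J) (h0 : SemiPos ζ J)
    (hp : PosN σ ζ J) : ∃ t₀ : ℝ, ∀ t, t₀ ≤ t → ∀ x, TamesAt (σ + t • ζ) J x := by
  choose t ht0 ht using point_t h0 hp
  have hnh := fun x => tame_nhds (hσ.add (hζ.smul (t x))) hJ (ht x)
  obtain ⟨s, hs⟩ := isCompact_univ.elim_nhds_subcover
    (fun x => {y | TamesAt (σ + t x • ζ) J y}) (fun x _ => hnh x)
  refine ⟨∑ x ∈ s, t x, fun T hT y v hv => ?_⟩
  obtain ⟨x, hxs, hx⟩ := mem_iUnion₂.1 (hs.2 (mem_univ y))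
  have h1 : t x ≤ T := (Finset.single_le_sum (f := t) (fun i _ => ht0 i) hxs).trans hT
  have h2 : 0 < σ y ![v, J y v] + t x * ζ y ![v, J y v] := hx v hv
  show 0 < σ y ![v, J y v] + T * ζ y ![v, J y v]
  have h3 := h0 y v
  nlinarith

/-- from the coarse condition on the null vectors to smooth forms -/
theorem forwardN [T2Space X] [CompactSpace X] [IsManifold (𝓡 n) ∞ X] {C : ℕ → ℝ}
    (hC : ∀ N, 4 * N * CJ n ^ 2 ≤ C N) {ω₀ ζ : Form n X 2} {J : End n X} (hs : IsSmooth ω₀)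
    (hc : IsClosedForm ω₀) (h : CoarseN n C ω₀ (NullV ζ J) fun x v w => w = J x v) :
    ∃ σ : Form n X 2, InClass ω₀ σ ∧ PosN σ ζ J := by
  obtain ⟨N, d, S, f, hS, hf⟩ := h
  have : LocallyCompactSpace X := ChartedSpace.locallyCompactSpace (E n) X
  have : SecondCountableTopology X := ChartedSpace.secondCountable_of_sigmaCompact (E n) X
  obtain ⟨a, b, K, -, -, ha, hb, -, hpos⟩ := sympR N (hC N) ω₀ (NullV ζ J)
    (fun x v w => w = J x v) d S hS ∅ ∅ isOpen_empty isClosed_empty subset_rfl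
    (by rw [compl_empty]; exact isCompact_univ) f (fun _ _ x hx => absurd hx (notMem_empty x))
    (fun x hx => absurd hx (notMem_empty x)) fun x _ => hf x
  have hP : Pair (∑ j, fdg (d := n) (a j) (b j)) (∑ j, dfdg (d := n) (a j) (b j)) :=
    Pair.sum _ fun j _ => Pair.gen _ _ (ha j) (hb j)
  obtain ⟨p1, p2, p3, p4⟩ := hP.props Pool.Agent.Y484.SY.t_GEN
  refine ⟨_, ⟨hs.add p2, ?_, _, _, p1, p3, rfl⟩, fun x v hv hζ => ?_⟩
  · have := Pool.Agent.Y501.SY.IsD.add hc p4 hs p2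
    rwa [add_zero] at this
  · obtain ⟨w, rfl, hw⟩ := hpos x v hv hζ
    exact hw

/-- from smooth forms to the coarse condition on the null vectors -/
theorem backwardN [T2Space X] [CompactSpace X] [IsManifold (𝓡 n) ∞ X] (C : ℕ → ℝ)
    {ω₀ σ ζ : Form n X 2} {J : End n X} (hζs : IsSmooth ζ) (hJ : IsAlmostComplex J)
    (h0 : SemiPos ζ J) (h : InClass ω₀ σ) (hp : PosN σ ζ J) :
    CoarseN n C ω₀ (NullV ζ J) fun x v w => w = J x v := by
  obtain ⟨hσs, -, α, η, hα, hη, rfl⟩ := h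
  obtain ⟨N, a, b, ha, hb, rfl⟩ := exact_pairs hα hη
  obtain ⟨d, hd⟩ := exists_dist (n := n) (X := X)
  have hF : ∀ x, ContMDiffAt (𝓡 n) 𝓘(ℝ, Fin N → ℝ × ℝ) ∞
      (fun x => (fun j => (a j x, b j x) : Fin N → ℝ × ℝ)) x := by
    intro x
    exact contMDiffAt_pi_space.2 fun j => ((ha j).prodMk_space (hb j)) x
  refine ⟨N, d, univ, fun _ x j => (a j x, b j x), ?_, fun x => ?_⟩
  · rw [univ_inter, closure_Ioi]
    exact self_mem_Ici
  · obtain ⟨t, ht, htx⟩ := point_t h0 hp x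
    obtain ⟨m, ρ₀, hm, hρ₀, hpos⟩ := pos_J (hσs.add (hζs.smul t)) hJ x htx
    obtain ⟨κ, ρ1, hκ, hρ1, hAd⟩ := hd (par n x) (par_LD x)
    obtain ⟨ρ2, τ, hρ2, hτ, hmain⟩ := conv_coreV (C N) ω₀ hF (NullV ζ J)
      (fun x v w => w = J x v) (par_LD x) hκ hm hρ₀ (fun p hp v hv hV => by
        obtain ⟨w, hw1, hw2⟩ := hpos p hp v hv
        refine ⟨w, hw1, lt_of_lt_of_eq hw2 ?_⟩
        have e2 : (fun i => mfderiv (𝓡 n) (𝓡 n) (par n x) p ((![v, w] : Fin 2 → E n) i)) =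
            ![mfderiv (𝓡 n) (𝓡 n) (par n x) p v, mfderiv (𝓡 n) (𝓡 n) (par n x) p w] := by
          funext i
          fin_cases i <;> rfl
        have e3 : pb (par n x) ζ p ![v, w] = 0 := by
          have e4 : pb (par n x) ζ p ![v, w] = ζ (par n x p)
              (fun i => mfderiv (𝓡 n) (𝓡 n) (par n x) p ((![v, w] : Fin 2 → E n) i)) := rfl
          rw [e4, e2, hw1]
          exact hV
        have e5 : ∀ θ : Form n X 2, pb (par n x) (θ + t • ζ) p ![v, w] =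
            pb (par n x) θ p ![v, w] + t * pb (par n x) ζ p ![v, w] := fun θ => rfl
        rw [e5, e3, mul_zero, add_zero])
    refine ⟨par n x, κ, min ρ1 ρ2, τ, par_zero x, par_LD x, hκ, lt_min hρ1 hρ2, hτ,
      fun p q hp hq =>
        hAd p q (hp.trans_le (min_le_left _ _)) (hq.trans_le (min_le_left _ _)),
      fun p hp r _ h0 hr => ?_⟩
    exact hmain p (hp.trans_le (min_le_right _ _)) r h0 (hr.trans_le (min_le_right _ _))

/-- the coarse Thurston-Gompf theorem -/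
theorem mainN (n : ℕ) (C : ℕ → ℝ) (hC : ∀ N, 4 * N * CJ n ^ 2 ≤ C N) (X : Type)
    [TopologicalSpace X] [ChartedSpace (E n) X] [IsManifold (𝓡 n) ∞ X] [CompactSpace X]
    [T2Space X] (ω₀ ζ : Form n X 2) (hs : IsSmooth ω₀) (hc : IsClosedForm ω₀) (hζs : IsSmooth ζ)
    (hζc : IsClosedForm ζ) (J : End n X) (hJ : IsAlmostComplex J) (h0 : SemiPos ζ J) :
    ((CoarseN n C ω₀ (NullV ζ J) fun x v w => w = J x v) →
      ∃ t₀ : ℝ, ∀ t, t₀ ≤ t → ∃ σ, InClass (ω₀ + t • ζ) σ ∧ ∀ x, TamesAt σ J x) ∧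
    ((∃ (t : ℝ) (σ : Form n X 2), InClass (ω₀ + t • ζ) σ ∧ ∀ x, TamesAt σ J x) →
      CoarseN n C ω₀ (NullV ζ J) fun x v w => w = J x v) := by
  constructor
  · intro h
    obtain ⟨σ, ⟨hσs, hσc, α, η, hα, hη, rfl⟩, hσ⟩ := forwardN hC hs hc h
    obtain ⟨t₀, ht₀⟩ := thurston hσs hζs hJ h0 hσ
    refine ⟨t₀, fun t ht => ⟨ω₀ + η + t • ζ, ⟨hσs.add (hζs.smul t), ?_, α, η, hα, hη, ?_⟩,
      ht₀ t ht⟩⟩
    · have h1 : IsD (t • ζ) (t • (0 : Form n X 3)) := Pool.Agent.Y501.SY.IsD.smul hζc t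
      rw [smul_zero] at h1
      have := Pool.Agent.Y501.SY.IsD.add hσc h1 hσs (hζs.smul t)
      rwa [add_zero] at this
    · rw [add_right_comm]
  · rintro ⟨t, σ', ⟨hσs, hσc, α, η, hα, hη, rfl⟩, hσ⟩
    have e1 : ω₀ + t • ζ + η + (-t) • ζ = ω₀ + η := by
      rw [neg_smul]
      abel
    refine backwardN C hζs hJ h0 (σ := ω₀ + η) ⟨?_, ?_, α, η, hα, hη, rfl⟩ fun x v hv hζ => ?_
    · rw [← e1]
      exact hσs.add (hζs.smul (-t))
    · rw [← e1]
      have h1 : IsD ((-t) • ζ) ((-t) • (0 : Form n X 3)) := Pool.Agent.Y501.SY.IsD.smul hζc (-t)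
      rw [smul_zero] at h1
      have := Pool.Agent.Y501.SY.IsD.add hσc h1 hσs (hζs.smul (-t))
      rwa [add_zero] at this
    · have h1 := hσ x v hv
      have h2 : (ω₀ + t • ζ + η) x ![v, J x v] = (ω₀ + η) x ![v, J x v] + t * ζ x ![v, J x v] := by
        show ω₀ x ![v, J x v] + t * ζ x ![v, J x v] + η x ![v, J x v] =
          ω₀ x ![v, J x v] + η x ![v, J x v] + t * ζ x ![v, J x v]
        ring
      rw [h2, hζ, mul_zero, add_zero] at h1
      exact h1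

end Pool.Agent.N824.CJ
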