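import Pool.Agent.N824.CJ.PubV
import Pool.Agent.N824.CJ.Bridge
import Pool.Agent.N824.CJ.NullT

/-!
# Comparison of the definitions over `ES n` with the working definitions: Thurston-Gompf theorem
-/

set_option autoImplicit false
set_option maxSynthPendingDepth 3

open Set Filter Topology Metric MeasureTheory
open scoped Manifold ContDiff

noncomputable section

namespace Pool.Agent.N824.CJP

open Pool.Agent.Y501 Pool.Agent.Y501.SYP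

section

variable {d : ℕ} {X : Type} [TopologicalSpace X] [ChartedSpace (ES d) X]

attribute [local instance] cs
attribute [local instance] mf

theorem coarseOn_iff (P : Vecs (ES d) X) (C : ℕ → ℝ) (ω₀ : Form (ES d) X 2) (T : Rel (ES d) X) :
    HasCoarseOn P d (vol d) C ω₀ T ↔ CJ.CoarseN (n := d) (X := X) C ω₀ P T := by
  constructor
  · rintro ⟨N, dd, S, f, hS, hf⟩
    refine ⟨N, dd, S, f, hS, fun x => ?_⟩
    obtain ⟨A, κ, ρ, τ, ⟨h1, h2, h3, h4, h5⟩, h6, h7⟩ := hf x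
    refine ⟨A, κ, ρ, τ, h1, h2, h3, h4, h6, h5, fun p hp r hr h0 hrρ => ?_⟩
    obtain ⟨L, δ, k1, k2, k3, k4⟩ := h7 p hp r hr h0 hrρ
    exact ⟨L, δ, k1, k2, k3, k4⟩
  · rintro ⟨N, dd, S, f, hS, hf⟩
    refine ⟨N, dd, S, f, hS, fun x => ?_⟩
    obtain ⟨A, κ, ρ, τ, h1, h2, h3, h4, h6, h5, h7⟩ := hf x
    refine ⟨A, κ, ρ, τ, ⟨h1, h2, h3, h4, h5⟩, h6, fun p hp r hr h0 hrρ => ?_⟩
    obtain ⟨L, δ, k1, k2, k3, k4⟩ := h7 p hp r hr h0 hrρ
    exact ⟨L, δ, k1, k2, k3, k4⟩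

/-- taming forms are homotopic through nondegenerate forms -/
theorem seg_nondeg {σ τ : Form (ES d) X 2} {J : End (ES d) X} (hσ : ∀ x, TamesAt σ J x)
    (hτ : ∀ x, TamesAt τ J x) {s : ℝ} (h0 : 0 ≤ s) (h1 : s ≤ 1) :
    Nondeg (fun x => (1 - s) • τ x + s • σ x) := by
  intro x v hv
  by_contra hne
  have k1 : (0 : ℝ) < σ x ![v, J x v] := hσ x v hne
  have k2 : (0 : ℝ) < τ x ![v, J x v] := hτ x v hne
  have k3 : (1 - s) * τ x ![v, J x v] + s * σ x ![v, J x v] = 0 := hv (J x v)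
  rcases eq_or_lt_of_le h0 with h | h
  · rw [← h] at k3
    linarith
  · have k4 : 0 < s * σ x ![v, J x v] := by positivity
    have k5 : 0 ≤ (1 - s) * τ x ![v, J x v] := mul_nonneg (by linarith) k2.le
    linarith

/-- the coarse Thurston-Gompf theorem -/
theorem mainNP (n : ℕ) (C : ℕ → ℝ) (hC : ∀ N, 4 * N * CJ.CJ n ^ 2 ≤ C N) (X : Type)
    [TopologicalSpace X] [ChartedSpace (ES n) X] [IsManifold 𝓘(ℝ, ES n) ∞ X] [CompactSpace X]
    [T2Space X] (ω₀ ζ : Form (ES n) X 2) (hs : IsSmooth ω₀) (hc : IsClosedForm ω₀)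
    (hζs : IsSmooth ζ) (hζc : IsClosedForm ζ) (J : End (ES n) X) (hJ : IsAlmostComplex J)
    (h0 : Semipositive ζ J) :
    (HasCoarseOn (nullVecs ζ J) n (vol n) C ω₀ (complexPairs J) →
      ∃ t₀ : ℝ, ∀ t, t₀ ≤ t → ∃ σ, InClass (comb ω₀ t ζ) σ ∧ ∀ x, TamesAt σ J x) ∧
    ((∃ (t : ℝ) (σ : Form (ES n) X 2), InClass (comb ω₀ t ζ) σ ∧ ∀ x, TamesAt σ J x) →
      HasCoarseOn (nullVecs ζ J) n (vol n) C ω₀ (complexPairs J)) := by
  obtain ⟨h1, h2⟩ := CJ.mainN n C hC X ω₀ ζ ((smooth_iff ω₀).1 hs) ((closed_iff ω₀).1 hc)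
    ((smooth_iff ζ).1 hζs) ((closed_iff ζ).1 hζc) J (ac_of J hJ) h0
  constructor
  · intro h
    obtain ⟨t₀, ht₀⟩ := h1 ((coarseOn_iff _ C ω₀ _).1 h)
    refine ⟨t₀, fun t ht => ?_⟩
    obtain ⟨σ, k1, k2⟩ := ht₀ t ht
    exact ⟨σ, (inClass_iff _ σ).2 k1, k2⟩
  · rintro ⟨t, σ, k1, k2⟩
    exact (coarseOn_iff _ C ω₀ _).2 (h2 ⟨t, σ, (inClass_iff _ σ).1 k1, k2⟩)

end

end Pool.Agent.N824.CJP
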