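import Pool.Agent.N824.CJ.FinalV
import Pool.Agent.N824.CJ.NullT

/-!
# Closed forms which are nondegenerate on a hyperplane field, and maps affine in the mean
-/

set_option autoImplicit false
set_option maxSynthPendingDepth 3

open Set Filter Topology Metric Function MeasureTheory
open scoped Manifold ContDiff Convolution

set_option linter.unusedSectionVars false

noncomputable section

namespace Pool.Agent.N824.CJ

open Pool.Agent.Y522 Pool.Agent.Y954.SH Pool.Agent.N824.CR Pool.Agent.N824.CN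
open Pool.Agent.Y501.SY (Form IsSmooth IsD IsClosedForm pb dfdg fdg dd SmoothFun Pair End
  IsAlmostComplex TamesAt)

variable {n : ℕ} {X : Type} [TopologicalSpace X] [ChartedSpace (E n) X]

/-- from the coarse condition on the vectors in `V` to smooth forms, on a closed manifold -/
theorem forwardVT [T2Space X] [CompactSpace X] [IsManifold (𝓡 n) ∞ X] {C : ℕ → ℝ}
    (hC : ∀ N, 4 * N * CJ n ^ 2 ≤ C N) {ω₀ : Form n X 2} (hs : IsSmooth ω₀)
    (hc : IsClosedForm ω₀) {V : Vec n X} {T : Rel n X} (h : CoarseN n C ω₀ V T) :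
    ∃ σ : Form n X 2, InClass ω₀ σ ∧ ∀ x, PosAt σ V T x := by
  obtain ⟨N, d, S, f, hS, hf⟩ := h
  have : LocallyCompactSpace X := ChartedSpace.locallyCompactSpace (E n) X
  have : SecondCountableTopology X := ChartedSpace.secondCountable_of_sigmaCompact (E n) X
  obtain ⟨a, b, K, -, -, ha, hb, -, hpos⟩ := sympR N (hC N) ω₀ V T d S hS ∅ ∅ isOpen_empty
    isClosed_empty subset_rfl (by rw [compl_empty]; exact isCompact_univ) f
    (fun _ _ x hx => absurd hx (notMem_empty x))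
    (fun x hx => absurd hx (notMem_empty x)) fun x _ => hf x
  have hP : Pair (∑ j, fdg (d := n) (a j) (b j)) (∑ j, dfdg (d := n) (a j) (b j)) :=
    Pair.sum _ fun j _ => Pair.gen _ _ (ha j) (hb j)
  obtain ⟨p1, p2, p3, p4⟩ := hP.props Pool.Agent.Y484.SY.t_GEN
  refine ⟨_, ⟨hs.add p2, ?_, _, _, p1, p3, rfl⟩, hpos⟩
  have := Pool.Agent.Y501.SY.IsD.add hc p4 hs p2
  rwa [add_zero] at this

/-- from smooth forms to the coarse condition on the vectors in `V` -/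
theorem backwardVT [T2Space X] [CompactSpace X] [IsManifold (𝓡 n) ∞ X] (C : ℕ → ℝ)
    {ω₀ σ : Form n X 2} (h : InClass ω₀ σ) {V : Vec n X} {T : Rel n X}
    (hT : ∀ x : X, ∃ A : E n → X, A 0 = x ∧ LD n A 0 ∧ ∃ m ρ : ℝ, 0 < m ∧ 0 < ρ ∧
      ∀ p, ‖p‖ < ρ → ∀ v : E n, v ≠ 0 → V (A p) (mfderiv (𝓡 n) (𝓡 n) A p v) → ∃ w : E n,
      T (A p) (mfderiv (𝓡 n) (𝓡 n) A p v) (mfderiv (𝓡 n) (𝓡 n) A p w) ∧
      m * (‖v‖ * ‖w‖) < pb A σ p ![v, w]) :
    CoarseN n C ω₀ V T := by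
  obtain ⟨-, -, α, η, hα, hη, rfl⟩ := h
  obtain ⟨N, a, b, ha, hb, rfl⟩ := exact_pairs hα hη
  obtain ⟨d, hd⟩ := exists_dist (n := n) (X := X)
  have hF : ∀ x, ContMDiffAt (𝓡 n) 𝓘(ℝ, Fin N → ℝ × ℝ) ∞
      (fun x => (fun j => (a j x, b j x) : Fin N → ℝ × ℝ)) x := by
    intro x
    exact contMDiffAt_pi_space.2 fun j => ((ha j).prodMk_space (hb j)) x
  refine ⟨N, d, univ, fun _ x j => (a j x, b j x), ?_, fun x => ?_⟩
  · rw [univ_inter, closure_Ioi]
    exact self_mem_Ici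
  · obtain ⟨A, hA0, hA, m, ρ₀, hm, hρ₀, hpos⟩ := hT x
    obtain ⟨κ, ρ1, hκ, hρ1, hAd⟩ := hd A hA
    obtain ⟨ρ2, τ, hρ2, hτ, hmain⟩ := conv_coreV (C N) ω₀ hF V T hA hκ hm hρ₀ hpos
    refine ⟨A, κ, min ρ1 ρ2, τ, hA0, hA, hκ, lt_min hρ1 hρ2, hτ, fun p q hp hq =>
      hAd p q (hp.trans_le (min_le_left _ _)) (hq.trans_le (min_le_left _ _)),
      fun p hp r _ h0 hr => ?_⟩
    exact hmain p (hp.trans_le (min_le_right _ _)) r h0 (hr.trans_le (min_le_right _ _))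

/-- continuous forms -/
def IsContF {k : ℕ} (α : Form n X k) : Prop :=
  ∀ (U : Set (E n)) (φ : E n → X), IsOpen U → ContMDiffOn (𝓡 n) (𝓡 n) ∞ φ U →
    ContinuousOn (pb φ α) U

/-- the vectors in the kernel of the one-form `α` -/
def KerV (α : Form n X 1) : Vec n X := fun x v => α x ![v] = 0

/-- the pairs the second vector of which is in the kernel of `α` -/
def KerT (α : Form n X 1) : Rel n X := fun x _ w => α x ![w] = 0

/-- a one-form as a linear functional -/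
theorem exists_lin (β : E n [⋀^Fin 1]→L[ℝ] ℝ) :
    ∃ D : E n →L[ℝ] ℝ, ∀ v, D v = β ![v] := by
  refine ⟨LinearMap.toContinuousLinearMap
    { toFun := fun v => β ![v]
      map_add' := fun v v' => ?_
      map_smul' := fun c v => ?_ }, fun v => rfl⟩
  · have h1 := β.map_update_add ![v] 0 v v'
    have u1 : ∀ y : E n, update ![v] 0 y = ![y] := fun y => by
      funext i
      fin_cases i
      rfl
    rwa [u1, u1, u1] at h1
  · have h1 := β.map_update_smul ![v] 0 c v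
    have u1 : ∀ y : E n, update ![v] 0 y = ![y] := fun y => by
      funext i
      fin_cases i
      rfl
    rwa [u1, u1] at h1

theorem ker_local {α : Form n X 1} (hα : IsContF α) {A : E n → X} (hA : LD n A 0)
    (h0 : α (A 0) ≠ 0) :
    ∃ D : E n → E n →L[ℝ] ℝ, ContinuousAt D 0 ∧ Surjective (D 0) ∧
      ∀ p : E n, ∀ v : E n, D p v = 0 ↔ KerV α (A p) (mfderiv (𝓡 n) (𝓡 n) A p v) := by
  choose D hD using fun p => exists_lin (pb A α p)
  have hc : ContinuousAt (pb A α) 0 := by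
    obtain ⟨U, hU, hUo, hpU⟩ := _root_.eventually_nhds_iff.1 hA.eventually
    have hAU : ContMDiffOn (𝓡 n) (𝓡 n) ∞ A U := fun z hz =>
      (hU z hz).contMDiffAt.contMDiffWithinAt
    exact (hα U A hUo hAU).continuousAt (hUo.mem_nhds hpU)
  have hpb : ∀ p v, pb A α p ![v] = α (A p) ![mfderiv (𝓡 n) (𝓡 n) A p v] := by
    intro p v
    have e2 : (fun i => mfderiv (𝓡 n) (𝓡 n) A p ((![v] : Fin 1 → E n) i)) =
        ![mfderiv (𝓡 n) (𝓡 n) A p v] := by
      funext i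
      fin_cases i
      rfl
    rw [← e2]
    rfl
  refine ⟨D, ?_, ?_, fun p v => ?_⟩
  · rw [ContinuousAt, tendsto_iff_norm_sub_tendsto_zero] at hc ⊢
    refine squeeze_zero (fun p => norm_nonneg _) (fun p => ?_) hc
    refine ContinuousLinearMap.opNorm_le_bound _ (norm_nonneg _) fun v => ?_
    have h1 : (D p - D 0) v = (pb A α p - pb A α 0) ![v] := by
      rw [sub_apply, hD, hD]
      rfl
    rw [h1]
    have h2 := (pb A α p - pb A α 0).le_opNorm ![v]
    simpa using h2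
  · obtain ⟨v, hv⟩ : ∃ v : E n, D 0 v ≠ 0 := by
      by_contra hcon
      push Not at hcon
      apply h0
      ext u
      obtain ⟨v, hv⟩ : ∃ v : E n, mfderiv (𝓡 n) (𝓡 n) A 0 v = u 0 := by
        have h := hA.mfderivToContinuousLinearEquiv_coe (by simp)
        refine ⟨(hA.mfderivToContinuousLinearEquiv (by simp)).symm (u 0), ?_⟩
        rw [← h]
        exact (hA.mfderivToContinuousLinearEquiv (by simp)).apply_symm_apply (u 0)
      have h1 : u = ![mfderiv (𝓡 n) (𝓡 n) A 0 v] := by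
        funext i
        fin_cases i
        exact hv.symm
      rw [h1, ← hpb, ← hD, hcon]
      rfl
    intro y
    refine ⟨(y / D 0 v) • v, ?_⟩
    rw [map_smul, smul_eq_mul, div_mul_cancel₀ _ hv]
  · rw [hD, hpb]
    exact Iff.rfl

/-- forms nondegenerate on the hyperplanes are uniformly so near a point -/
theorem pos_kerF [IsManifold (𝓡 n) ∞ X] {α : Form n X 1} (hα : IsContF α) {σ : Form n X 2} (hσ : IsSmooth σ)
    {A : E n → X} (hA : LD n A 0) (h0 : α (A 0) ≠ 0) (h : PosAt σ (KerV α) (KerT α) (A 0)) :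
    ∃ m ρ : ℝ, 0 < m ∧ 0 < ρ ∧
      ∀ p, ‖p‖ < ρ → ∀ v : E n, v ≠ 0 → KerV α (A p) (mfderiv (𝓡 n) (𝓡 n) A p v) →
        ∃ w : E n, KerT α (A p) (mfderiv (𝓡 n) (𝓡 n) A p v) (mfderiv (𝓡 n) (𝓡 n) A p w) ∧
      m * (‖v‖ * ‖w‖) < pb A σ p ![v, w] := by
  obtain ⟨D, hDc, hDs, hD⟩ := ker_local hα hA h0
  obtain ⟨m, ρ1, hm, hρ1, hmain⟩ := pos_ker hDc hDs (pb_contAt hσ hA) fun v hv hv0 => by
    have hv' : mfderiv (𝓡 n) (𝓡 n) A 0 v ≠ 0 := by
      intro h1
      apply hv0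
      apply hA.mfderiv_injective
      exact h1.trans (ContinuousLinearMap.map_zero _).symm
    obtain ⟨w', hw1, hw'⟩ := h _ hv' ((hD 0 v).1 hv)
    obtain ⟨w, rfl⟩ : ∃ w : E n, mfderiv (𝓡 n) (𝓡 n) A 0 w = w' := by
      have h := hA.mfderivToContinuousLinearEquiv_coe (by simp)
      refine ⟨(hA.mfderivToContinuousLinearEquiv (by simp)).symm w', ?_⟩
      rw [← h]
      exact (hA.mfderivToContinuousLinearEquiv (by simp)).apply_symm_apply w'
    refine ⟨w, (hD 0 w).2 hw1, ?_⟩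
    have e2 : (fun i => mfderiv (𝓡 n) (𝓡 n) A 0 ((![v, w] : Fin 2 → E n) i)) =
        ![mfderiv (𝓡 n) (𝓡 n) A 0 v, mfderiv (𝓡 n) (𝓡 n) A 0 w] := by
      funext i
      fin_cases i <;> rfl
    rw [← e2] at hw'
    exact hw'
  refine ⟨m, ρ1, hm, hρ1, fun p hp v hv hV => ?_⟩
  obtain ⟨w, hw1, hw2⟩ := hmain p hp v hv ((hD p v).2 hV)
  exact ⟨w, (hD p w).1 hw1, hw2⟩

/-- the characterization, for closed manifolds -/
theorem mainK (n : ℕ) (C : ℕ → ℝ) (hC : ∀ N, 4 * N * CJ n ^ 2 ≤ C N) (X : Type)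
    [TopologicalSpace X] [ChartedSpace (E n) X] [IsManifold (𝓡 n) ∞ X] [CompactSpace X]
    [T2Space X] (α : Form n X 1) (hα : IsContF α) (h0 : ∀ x, α x ≠ 0)
    (ω₀ : Form n X 2) (hs : IsSmooth ω₀) (hc : IsClosedForm ω₀) :
    (∃ σ : Form n X 2, InClass ω₀ σ ∧ ∀ x, PosAt σ (KerV α) (KerT α) x) ↔
      CoarseN n C ω₀ (KerV α) (KerT α) := by
  constructor
  · rintro ⟨σ, hσ, hpos⟩
    refine backwardVT C hσ fun x => ?_
    obtain ⟨A, hA0, hA⟩ := exists_param (n := n) x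
    refine ⟨A, hA0, hA, pos_kerF hα hσ.1 hA (h0 _) ?_⟩
    exact hpos _
  · exact fun h => forwardVT hC hs hc h

/-- the characterization, relative version -/
theorem mainKR (n : ℕ) (C : ℕ → ℝ) (hC : ∀ N, 4 * N * CJ n ^ 2 ≤ C N) (X : Type)
    [TopologicalSpace X] [ChartedSpace (E n) X] [IsManifold (𝓡 n) ∞ X]
    [T2Space X] [SecondCountableTopology X] (α : Form n X 1) (hα : IsContF α)
    (h0 : ∀ x, α x ≠ 0) (Z : Set X) (hZ : IsClosed Z)
    (ω₀ : Form n X 2) (hs : IsSmooth ω₀) (hc : IsClosedForm ω₀) :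
    (∃ σ : Form n X 2, InClassR Z ω₀ σ ∧ ∀ x, PosAt σ (KerV α) (KerT α) x) ↔
      CoarseRV n C Z ω₀ (KerV α) (KerT α) := by
  have : LocallyCompactSpace X := ChartedSpace.locallyCompactSpace (E n) X
  constructor
  · rintro ⟨σ, hσ, hpos⟩
    refine backwardRV C hZ hσ (fun x => ?_) hpos
    obtain ⟨A, hA0, hA⟩ := exists_param (n := n) x
    refine ⟨A, hA0, hA, pos_kerF hα hσ.1 hA (h0 _) ?_⟩
    exact hpos _
  · exact fun h => forwardRV hC hZ hs hc h

end Pool.Agent.N824.CJ
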