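import Pool.Agent.N824.CJ.PubK
import Pool.Agent.N824.CJ.BridgeF
import Pool.Agent.N824.CJ.BridgeN
import Pool.Agent.N824.CJ.FinalK

/-!
# Comparison of the definitions over `ES n` with the working definitions: hyperplane fields
-/

set_option autoImplicit false
set_option maxSynthPendingDepth 3

open Set Filter Topology Metric MeasureTheory
open scoped Manifold ContDiff

noncomputable section

namespace Pool.Agent.N824.CJP

open Pool.Agent.Y501 Pool.Agent.Y501.SYP

section

variable {d : ℕ} {X : Type} [TopologicalSpace X] [ChartedSpace (ES d) X]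

attribute [local instance] cs
attribute [local instance] mf

theorem nondegOnKer_iff (α : Form (ES d) X 1) (σ : Form (ES d) X 2) :
    NondegOnKer α σ ↔ ∀ x, CJ.PosAt (n := d) (X := X) σ (CJ.KerV (n := d) (X := X) α)
      (CJ.KerT (n := d) (X := X) α) x := by
  constructor
  · intro h x v hv hV
    by_contra hcon
    refine hv (h x v hV fun w hw => ?_)
    by_contra hne
    apply hcon
    rcases lt_or_gt_of_ne hne with h1 | h1
    · refine ⟨-w, ?_, ?_⟩
      · show α x ![-w] = 0
        have h4 : α x ![w] = 0 := hw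
        obtain ⟨D, hD⟩ := CJ.exists_lin (n := d) (α x)
        have h5 : α x ![-w] = D (-w) := (hD (-w)).symm
        have h6 : α x ![w] = D w := (hD w).symm
        have h7 : D (-w) = -(D w) := D.map_neg w
        rw [h5, h7, ← h6, h4, neg_zero]
      · have h2 : σ x ![v, -w] = -σ x ![v, w] := alt_neg (σ x) v w
        have h3 : (0 : ℝ) < σ x ![v, -w] := by
          rw [h2]
          linarith
        exact h3
    · exact ⟨w, hw, h1⟩
  · intro h x v hV h0
    by_contra hv
    obtain ⟨w, hw, hpos⟩ := h x v hv hV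
    have h1 := h0 w hw
    exact absurd h1 (ne_of_gt hpos)

theorem contForm_iff {k : ℕ} (α : Form (ES d) X k) :
    IsContForm α ↔ CJ.IsContF (n := d) (X := X) α := by
  constructor
  · intro h U φ hU hφ
    exact h U φ ⟨hU, hφ⟩
  · intro h U φ hφ
    exact h U φ hφ.1 hφ.2

/-- the characterization, for closed manifolds -/
theorem mainKP (n : ℕ) (C : ℕ → ℝ) (hC : ∀ N, 4 * N * CJ.CJ n ^ 2 ≤ C N) (X : Type)
    [TopologicalSpace X] [ChartedSpace (ES n) X] [IsManifold 𝓘(ℝ, ES n) ∞ X] [CompactSpace X]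
    [T2Space X] (α : Form (ES n) X 1) (hα : IsContForm α) (h0 : ∀ x, α x ≠ 0)
    (ω₀ : Form (ES n) X 2) (hs : IsSmooth ω₀) (hc : IsClosedForm ω₀) :
    (∃ σ : Form (ES n) X 2, InClass ω₀ σ ∧ NondegOnKer α σ) ↔
      HasCoarseOn (kerVecs α) n (vol n) C ω₀ (kerPairs α) := by
  rw [coarseOn_iff]
  refine Iff.trans ?_ (CJ.mainK n C hC X α ((contForm_iff α).1 hα) h0 ω₀ ((smooth_iff ω₀).1 hs)
    ((closed_iff ω₀).1 hc))
  exact exists_congr fun σ => and_congr (inClass_iff ω₀ σ) (nondegOnKer_iff α σ)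

/-- the characterization, relative version -/
theorem mainKRP (n : ℕ) (C : ℕ → ℝ) (hC : ∀ N, 4 * N * CJ.CJ n ^ 2 ≤ C N) (X : Type)
    [TopologicalSpace X] [ChartedSpace (ES n) X] [IsManifold 𝓘(ℝ, ES n) ∞ X]
    [T2Space X] [SecondCountableTopology X] (α : Form (ES n) X 1) (hα : IsContForm α)
    (h0 : ∀ x, α x ≠ 0) (Z : Set X) (hZ : IsClosed Z)
    (ω₀ : Form (ES n) X 2) (hs : IsSmooth ω₀) (hc : IsClosedForm ω₀) :
    (∃ σ : Form (ES n) X 2, InClassRel Z ω₀ σ ∧ NondegOnKer α σ) ↔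
      HasCoarseRelOn (kerVecs α) n (vol n) C Z ω₀ (kerPairs α) := by
  rw [coarseRelOn_iff]
  refine Iff.trans ?_ (CJ.mainKR n C hC X α ((contForm_iff α).1 hα) h0 Z hZ ω₀
    ((smooth_iff ω₀).1 hs) ((closed_iff ω₀).1 hc))
  exact exists_congr fun σ => and_congr (inClassRel_iff Z ω₀ σ) (nondegOnKer_iff α σ)

end

end Pool.Agent.N824.CJP
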