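import Pool.Agent.N824.CJ.Conv

/-!
# Exact two-forms are sums of forms `da ∧ db`
-/

set_option autoImplicit false
set_option maxSynthPendingDepth 3

open Set Filter Topology Metric Function MeasureTheory
open scoped Manifold ContDiff Convolution

set_option linter.unusedSectionVars false

noncomputable section

namespace Pool.Agent.N824.CJ

open Pool.Agent.Y522 Pool.Agent.Y954.SH Pool.Agent.N824.CR Pool.Agent.N824.CN
open Pool.Agent.Y501.SY (Form IsSmooth IsD IsClosedForm pb dfdg fdg dd SmoothFun Pair)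

variable {n : ℕ} {X : Type} [TopologicalSpace X] [ChartedSpace (E n) X]

/-- pairs as finite sums -/
theorem Pair_sum {α : Form n X 1} {η : Form n X 2} (h : Pair α η) :
    ∃ (N : ℕ) (a b : Fin N → X → ℝ), (∀ j, SmoothFun (d := n) (a j)) ∧
      (∀ j, SmoothFun (d := n) (b j)) ∧ α = ∑ j, fdg (d := n) (a j) (b j) ∧
      η = ∑ j, dfdg (d := n) (a j) (b j) := by
  induction h with
  | zero => exact ⟨0, Fin.elim0, Fin.elim0, fun j => j.elim0, fun j => j.elim0, by simp, by simp⟩
  | gen f g hf hg =>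
    exact ⟨1, fun _ => f, fun _ => g, fun _ => hf, fun _ => hg, by simp, by simp⟩
  | add α α' η η' _ _ ih ih' =>
    obtain ⟨N, a, b, ha, hb, h1, h2⟩ := ih
    obtain ⟨N', a', b', ha', hb', h1', h2'⟩ := ih'
    refine ⟨N + N', Fin.append a a', Fin.append b b', fun j => ?_, fun j => ?_, ?_, ?_⟩
    · refine Fin.addCases (fun i => ?_) (fun i => ?_) j
      · rw [Fin.append_left]; exact ha i
      · rw [Fin.append_right]; exact ha' i
    · refine Fin.addCases (fun i => ?_) (fun i => ?_) j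
      · rw [Fin.append_left]; exact hb i
      · rw [Fin.append_right]; exact hb' i
    · rw [Fin.sum_univ_add, h1, h1']
      simp only [Fin.append_left, Fin.append_right]
    · rw [Fin.sum_univ_add, h2, h2']
      simp only [Fin.append_left, Fin.append_right]

/-- uniqueness of the exterior derivative -/
theorem IsD_unique [IsManifold (𝓡 n) ∞ X] {α : Form n X 1} {η η' : Form n X 2}
    (h : IsD α η) (h' : IsD α η') : η = η' := by
  funext x
  obtain ⟨A, rfl, hA⟩ := exists_param (n := n) x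
  obtain ⟨U, hU, hUo, hpU⟩ := _root_.eventually_nhds_iff.1 hA.eventually
  have hAU : ContMDiffOn (𝓡 n) (𝓡 n) ∞ A U := fun z hz =>
    (hU z hz).contMDiffAt.contMDiffWithinAt
  have h1 : pb A η 0 = pb A η' 0 := (h U A hUo hAU 0 hpU).symm.trans (h' U A hUo hAU 0 hpU)
  ext v
  have h2 := hA.mfderivToContinuousLinearEquiv_coe (by simp)
  obtain ⟨u, hu⟩ : ∃ u : Fin 2 → E n, (fun i => mfderiv (𝓡 n) (𝓡 n) A 0 (u i)) = v := by
    refine ⟨fun i => (hA.mfderivToContinuousLinearEquiv (by simp)).symm (v i), ?_⟩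
    funext i
    rw [← h2]
    exact (hA.mfderivToContinuousLinearEquiv (by simp)).apply_symm_apply (v i)
  rw [← hu]
  exact congrArg (fun β => β u) h1

lemma upd_one (v x : E n) : update ![v] 0 x = ![x] := by
  funext i
  fin_cases i
  rfl

/-- expansion in the standard basis -/
lemma one_expand (β : E n [⋀^Fin 1]→L[ℝ] ℝ) (u : E n) :
    β ![u] = ∑ k, β ![(EuclideanSpace.single k 1 : E n)] * u k := by
  obtain ⟨ℓ, hℓ⟩ : ∃ ℓ : E n →ₗ[ℝ] ℝ, ∀ w, ℓ w = β ![w] := by
    refine ⟨{ toFun := fun w => β ![w], map_add' := fun w w' => ?_, map_smul' := fun c w => ?_ },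
      fun w => rfl⟩
    · have h1 := β.map_update_add ![w] 0 w w'
      rwa [upd_one, upd_one, upd_one] at h1
    · have h1 := β.map_update_smul ![w] 0 c w
      rwa [upd_one, upd_one] at h1
  have h1 : u = ∑ k, u k • (EuclideanSpace.single k 1 : E n) := by
    have := (EuclideanSpace.basisFun (Fin n) ℝ).sum_repr u
    simp only [EuclideanSpace.basisFun_apply, EuclideanSpace.basisFun_repr] at this
    exact this.symm
  rw [← hℓ]
  conv_lhs => rw [h1]
  rw [map_sum]
  refine Finset.sum_congr rfl fun k _ => ?_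
  rw [map_smul, hℓ, smul_eq_mul, mul_comm]

/-- a smooth one-form is locally a sum of forms `f dg` -/
theorem local_pair [IsManifold (𝓡 n) ∞ X] [T2Space X] {α : Form n X 1} (hα : IsSmooth α) (x : X) :
    ∃ (α' : Form n X 1) (η' : Form n X 2), Pair α' η' ∧ ∀ᶠ y in 𝓝 x, α' y = α y := by
  obtain ⟨f⟩ : Nonempty (SmoothBumpFunction (𝓡 n) x) := inferInstance
  obtain ⟨c, hc⟩ : ∃ c, c = chartAt (E n) x := ⟨_, rfl⟩
  have hc1 : ContMDiffOn (𝓡 n) (𝓡 n) ∞ c c.source := by
    rw [hc]
    exact contMDiffOn_chart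
  have hc2 : ContMDiffOn (𝓡 n) (𝓡 n) ∞ c.symm c.target := by
    rw [hc]
    exact contMDiffOn_chart_symm
  have hcs : x ∈ c.source := by rw [hc]; exact mem_chart_source _ _
  have hpbs : ContDiffOn ℝ ∞ (pb c.symm α) c.target := hα c.target c.symm c.open_target hc2
  obtain ⟨e, he⟩ : ∃ e : Fin n → E n, e = fun k => EuclideanSpace.single k 1 := ⟨_, rfl⟩
  -- the functions
  have ha : ∀ k : Fin n, ContMDiff (𝓡 n) 𝓘(ℝ, ℝ) ∞
      (fun y => f y • (pb c.symm α (c y)) ![e k]) := by
    intro k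
    refine f.contMDiff_smul ?_
    rw [← hc]
    have h1 : ContDiffOn ℝ ∞ (fun z => (pb c.symm α z) ![e k]) c.target :=
      (ContinuousAlternatingMap.apply ℝ (E n) ℝ ![e k]).contDiff.comp_contDiffOn hpbs
    have h2 : ContMDiffOn (𝓡 n) 𝓘(ℝ, ℝ) ∞ (fun z => (pb c.symm α z) ![e k]) c.target :=
      contMDiffOn_iff_contDiffOn.2 h1
    exact h2.comp hc1 fun y hy => c.map_source hy
  have hb : ∀ k : Fin n, ContMDiff (𝓡 n) 𝓘(ℝ, ℝ) ∞ (fun y => f y • (c y) k) := by
    intro k
    refine f.contMDiff_smul ?_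
    rw [← hc]
    have h1 : ContDiff ℝ ∞ (fun z : E n => z k) := by
      exact (EuclideanSpace.proj (𝕜 := ℝ) k).contDiff
    exact h1.contMDiff.comp_contMDiffOn hc1
  refine ⟨∑ k, fdg (fun y => f y • (pb c.symm α (c y)) ![e k]) (fun y => f y • (c y) k),
    ∑ k, dfdg (fun y => f y • (pb c.symm α (c y)) ![e k]) (fun y => f y • (c y) k),
    Pair.sum _ fun k _ => Pair.gen _ _ (ha k) (hb k), ?_⟩
  filter_upwards [f.eventuallyEq_one.eventually_nhds, c.open_source.mem_nhds hcs] with y hy hys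
  obtain ⟨q, hq, rfl⟩ : ∃ q, q ∈ c.target ∧ c.symm q = y := ⟨c y, c.map_source hys, c.left_inv hys⟩
  have hd2 : MDifferentiableAt (𝓡 n) (𝓡 n) c.symm q :=
    ((hc2 q hq).contMDiffAt (c.open_target.mem_nhds hq)).mdifferentiableAt (by simp)
  have hd1 : MDifferentiableAt (𝓡 n) (𝓡 n) c (c.symm q) :=
    ((hc1 _ hys).contMDiffAt (c.open_source.mem_nhds hys)).mdifferentiableAt (by simp)
  have hcomp : ∀ u : TangentSpace (𝓡 n) (c.symm q), mfderiv (𝓡 n) (𝓡 n) c.symm q
      (mfderiv (𝓡 n) (𝓡 n) c (c.symm q) u) = u := by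
    intro u
    have h1 : HasMFDerivAt (𝓡 n) (𝓡 n) c.symm (c (c.symm q))
        (mfderiv (𝓡 n) (𝓡 n) c.symm q) := by
      rw [c.right_inv hq]
      exact hd2.hasMFDerivAt
    have h2 := HasMFDerivAt.comp (c.symm q) h1 hd1.hasMFDerivAt
    have h3 : HasMFDerivAt (𝓡 n) (𝓡 n) (c.symm ∘ c) (c.symm q)
        (ContinuousLinearMap.id ℝ (TangentSpace (𝓡 n) (c.symm q))) := by
      refine (hasMFDerivAt_id (c.symm q)).congr_of_eventuallyEq ?_
      filter_upwards [c.open_source.mem_nhds hys] with y hy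
      exact c.left_inv hy
    have h4 := h2.mfderiv.symm.trans h3.mfderiv
    exact congrArg (fun L => L u) h4
  have hcsymm : ContinuousAt c.symm q := c.continuousAt_symm hq
  have hdb : ∀ (k : Fin n) (u : E n), dd (d := n) (fun y => f y • (c y) k) (c.symm q)
      (mfderiv (𝓡 n) (𝓡 n) c.symm q u) = u k := by
    intro k u
    rw [Pool.Agent.Y484.SY.dd_comp c.open_target hc2 (hb k) hq]
    have h1 : ((fun y => f y • (c y) k) ∘ c.symm) =ᶠ[𝓝 q] fun z : E n => z k := by
      filter_upwards [hcsymm.eventually hy, c.open_target.mem_nhds hq] with z hz hzt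
      show f (c.symm z) • (c (c.symm z)) k = z k
      rw [c.right_inv hzt, hz]
      simp
    rw [h1.fderiv_eq]
    have h3 : fderiv ℝ (fun z : E n => z k) q = EuclideanSpace.proj (𝕜 := ℝ) k :=
      (EuclideanSpace.proj (𝕜 := ℝ) k : E n →L[ℝ] ℝ).fderiv
    rw [h3]
    rfl
  have hf1 : f (c.symm q) = 1 := hy.self_of_nhds
  ext v
  obtain ⟨u, hu⟩ : ∃ u : E n, mfderiv (𝓡 n) (𝓡 n) c.symm q u = v 0 := ⟨_, hcomp (v 0)⟩
  have hv : (fun i => mfderiv (𝓡 n) (𝓡 n) c.symm q ((![u] : Fin 1 → E n) i)) = v := by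
    funext i
    fin_cases i
    exact hu
  have e1 : (∑ k, fdg (d := n) (fun y => f y • (pb c.symm α (c y)) ![e k])
      (fun y => f y • (c y) k)) (c.symm q) v =
      ∑ k, (f (c.symm q) • (pb c.symm α (c (c.symm q))) ![e k]) *
        dd (d := n) (fun y => f y • (c y) k) (c.symm q) (v 0) := by
    rw [Finset.sum_apply, ContinuousAlternatingMap.sum_apply]
    rfl
  have e2 : α (c.symm q) v = pb c.symm α q ![u] := by
    rw [← hv]
    rfl
  rw [e1, e2, one_expand]
  refine Finset.sum_congr rfl fun k _ => ?_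
  rw [hf1, one_smul, c.right_inv hq, ← hu, hdb, he]

/-- a smooth one-form on a closed manifold is a sum of forms `f dg` -/
theorem global_pair [IsManifold (𝓡 n) ∞ X] [T2Space X] [CompactSpace X] {α : Form n X 1}
    (hα : IsSmooth α) : ∃ η : Form n X 2, Pair α η := by
  classical
  choose α' η' hP hev using fun x => local_pair hα x
  have hV : ∀ x, ∃ V : Set X, IsOpen V ∧ x ∈ V ∧ ∀ y ∈ V, α' x y = α y := by
    intro x
    obtain ⟨V, hV, hVo, hx⟩ := _root_.eventually_nhds_iff.1 (hev x)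
    exact ⟨V, hVo, hx, hV⟩
  choose V hVo hVx hVα using hV
  obtain ⟨t, ht⟩ := isCompact_univ.elim_finite_subcover V hVo
    (fun x _ => mem_iUnion.2 ⟨x, hVx x⟩)
  have ht' : (univ : Set X) ⊆ ⋃ i : t, V i := by
    intro x hx
    obtain ⟨i, hi⟩ := mem_iUnion.1 (ht hx)
    obtain ⟨hi1, hi2⟩ := mem_iUnion.1 hi
    exact mem_iUnion.2 ⟨⟨i, hi1⟩, hi2⟩
  obtain ⟨f, hf⟩ := SmoothPartitionOfUnity.exists_isSubordinate (𝓡 n) isClosed_univ
    (fun i : t => V i) (fun i => hVo i) ht'
  have hsm := fun i : t => (hP i).smulFun (u := fun x => f i x) (f i).contMDiff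
  choose α'' η'' hP'' h1 h2 using hsm
  refine ⟨∑ i, η'' i, ?_⟩
  have hαs : α = ∑ i, α'' i := by
    funext x
    ext v
    rw [Finset.sum_apply, ContinuousAlternatingMap.sum_apply]
    have hv : ![v 0] = v := by
      funext i
      fin_cases i
      rfl
    have h3 : ∀ i : t, α'' i x v = f i x * α x v := by
      intro i
      have h4 := h1 i x (v 0)
      rw [hv] at h4
      rw [h4]
      by_cases hx : x ∈ V i
      · rw [hVα i x hx]
      · have h5 : f i x = 0 := by
          by_contra h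
          exact hx (hf i (subset_tsupport _ h))
        rw [h5, zero_mul, zero_mul]
    simp only [h3]
    rw [← Finset.sum_mul]
    have h6 : ∑ i, f i x = 1 := by
      rw [← finsum_eq_sum_of_fintype]
      exact f.sum_eq_one (mem_univ x)
    rw [h6, one_mul]
  rw [hαs]
  exact Pair.sum _ fun i _ => hP'' i

/-- an exact two-form on a closed manifold is a sum of forms `da ∧ db` -/
theorem exact_pairs [IsManifold (𝓡 n) ∞ X] [T2Space X] [CompactSpace X] {α : Form n X 1}
    {η : Form n X 2} (hα : IsSmooth α) (hη : IsD α η) :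
    ∃ (N : ℕ) (a b : Fin N → X → ℝ), (∀ j, SmoothFun (d := n) (a j)) ∧
      (∀ j, SmoothFun (d := n) (b j)) ∧ η = ∑ j, dfdg (d := n) (a j) (b j) := by
  obtain ⟨η', hP⟩ := global_pair hα
  have h1 := (hP.props Pool.Agent.Y484.SY.t_GEN).2.2.1
  rw [IsD_unique hη h1]
  obtain ⟨N, a, b, ha, hb, -, h2⟩ := Pair_sum hP
  exact ⟨N, a, b, ha, hb, h2⟩

end Pool.Agent.N824.CJ
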