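import Pool.Agent.N824.CJ.Loc

/-!
# Smoothing of families of maps which are affine in the mean
-/

set_option autoImplicit false
set_option maxSynthPendingDepth 3

open Set Filter Topology Metric Function MeasureTheory
open scoped Manifold ContDiff Convolution

set_option linter.unusedSectionVars false

noncomputable section

namespace Pool.Agent.N824.CJ

open Pool.Agent.Y522 Pool.Agent.Y954.SH Pool.Agent.N824.CR Pool.Agent.N824.CN

variable {n : ℕ} {W : Type} [NormedAddCommGroup W] [NormedSpace ℝ W] [FiniteDimensional ℝ W]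
  {X : Type} [TopologicalSpace X] [ChartedSpace (E n) X]

/-- the maps `F r` are affine in the mean near `x`, at the scales of `S`, with linear parts
constrained by `Q` -/
def CRegJ (n : ℕ) {X : Type} [TopologicalSpace X] [ChartedSpace (E n) X]
    {W : Type} [NormedAddCommGroup W] [NormedSpace ℝ W]
    (d : X → X → ℝ) (S : Set ℝ) (F : ℝ → X → W)
    (Q : (E n → X) → E n → (E n →L[ℝ] W) → ℝ → ℝ → Prop) (x : X) : Prop :=
  ∃ (A : E n → X) (κ ρ : ℝ) (τ : ℝ → ℝ), A 0 = x ∧ LD n A 0 ∧ 1 ≤ κ ∧ 0 < ρ ∧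
    Tendsto τ (𝓝[>] 0) (𝓝 0) ∧
    (∀ p q, ‖p‖ < ρ → ‖q‖ < ρ →
      d (A p) (A q) ≤ κ * ‖p - q‖ ∧ ‖p - q‖ ≤ κ * d (A p) (A q)) ∧
    ∀ p, ‖p‖ < ρ → ∀ r ∈ S, 0 < r → r < ρ →
      ∃ (L : E n →L[ℝ] W) (δ : ℝ), 0 ≤ δ ∧ ‖L‖ * r ≤ δ * τ r ∧
        AM n (fun z => F r (A z)) p κ r δ L ∧ Q A p L κ δ

theorem CRegJ.exists_cht {d : X → X → ℝ} {S : Set ℝ} {F : ℝ → X → W}
    {Q : (E n → X) → E n → (E n →L[ℝ] W) → ℝ → ℝ → Prop} {x : X}
    (h : CRegJ n d S F Q x) :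
    ∃ (A : E n → X) (B : X → E n) (R κ : ℝ) (τ : ℝ → ℝ),
      x ∈ A '' ball 0 R ∧ IsCht n d A B R κ ∧ Tendsto τ (𝓝[>] 0) (𝓝 0) ∧
      (∀ r ∈ S, 0 < r → r < R → IntegrableOn (fun z => F r (A z)) (closedBall 0 R)) ∧
      ∀ p, ‖p‖ < R → ∀ r ∈ S, 0 < r → r < R →
        ∃ (L : E n →L[ℝ] W) (δ : ℝ), 0 ≤ δ ∧ ‖L‖ * r ≤ δ * τ r ∧
          AM n (fun z => F r (A z)) p κ r δ L ∧ Q A p L κ δ := by
  classical
  obtain ⟨A, κ, ρ, τ, hA0, hA, hκ, hρ, hτ, hd, hAA⟩ := h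
  obtain ⟨u, hu, hinj⟩ := hA.eventually_injOn
  obtain ⟨r1, hr1, hball⟩ := (nhds_basis_closedBall (x := (0 : E n))).mem_iff.mp
    (Filter.inter_mem hu hA.eventually)
  have hinj' : InjOn A (closedBall 0 r1) := hinj.mono fun z hz => (hball hz).1
  have hlt : ∀ z : E n, ‖z‖ ≤ min r1 (ρ / 2) → ‖z‖ < ρ := fun z hz => by
    have := hz.trans (min_le_right _ _)
    linarith
  refine ⟨A, invFunOn A (closedBall 0 r1), min r1 (ρ / 2), κ, τ, ?_, ?_, hτ, ?_, ?_⟩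
  · refine ⟨0, ?_, hA0⟩
    rw [mem_ball_zero_iff, norm_zero]
    exact lt_min hr1 (by linarith)
  · have hle : ∀ z : E n, ‖z‖ ≤ min r1 (ρ / 2) → z ∈ closedBall (0 : E n) r1 := fun z hz => by
      rw [mem_closedBall_zero_iff]
      exact hz.trans (min_le_left _ _)
    exact {
      pos := lt_min hr1 (by linarith)
      one := hκ
      ld := fun z hz => (hball (hle z hz)).2
      left := fun z hz => hinj'.leftInvOn_invFunOn (hle z hz)
      up := fun p q hp hq => (hd p q (hlt p hp) (hlt q hq)).1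
      low := fun p q hp hq => (hd p q (hlt p hp) (hlt q hq)).2 }
  · intro r hr h0 hrR
    refine LocallyIntegrableOn.integrableOn_isCompact ?_ (isCompact_closedBall _ _)
    intro p hp
    rw [mem_closedBall_zero_iff] at hp
    have hrρ : r < ρ := by
      have := hrR.trans_le (min_le_right _ _)
      linarith
    obtain ⟨L, δ, -, -, ⟨hint, -⟩, -⟩ := hAA p (hlt p hp) r hr h0 hrρ
    refine ⟨closedBall p (κ ^ 2 * r), mem_nhdsWithin_of_mem_nhds ?_, hint⟩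
    exact closedBall_mem_nhds p (by positivity)
  · intro p hp r hr h0 hrR
    refine hAA p (hlt p hp.le) r hr h0 ?_
    have := hrR.trans_le (min_le_right _ _)
    linarith

/-- the smooth map `F` has a differential at `x` which is close to a linear map allowed by `Q` -/
def RegJ (n : ℕ) {X : Type} [TopologicalSpace X] [ChartedSpace (E n) X]
    {W : Type} [NormedAddCommGroup W] [NormedSpace ℝ W]
    (Q : (E n → X) → E n → (E n →L[ℝ] W) → ℝ → ℝ → Prop) (F : X → W) (x : X) : Prop :=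
  ∃ (A : E n → X) (p : E n) (L : E n →L[ℝ] W) (κ δ : ℝ), A p = x ∧ LD n A p ∧ 1 ≤ κ ∧ 0 ≤ δ ∧
    Q A p L κ δ ∧ ‖fderiv ℝ (fun z => F (A z)) p - L‖ ≤ CJ n * κ ^ (2 * n + 2) * δ

/-- smoothing of coarse jets -/
theorem globJ [T2Space X] [CompactSpace X] [IsManifold (𝓡 n) ∞ X] (F : ℝ → X → W)
    (d : X → X → ℝ) (Q : (E n → X) → E n → (E n →L[ℝ] W) → ℝ → ℝ → Prop)
    (S : Set ℝ) (hS : (0 : ℝ) ∈ closure (S ∩ Ioi 0)) (hF : ∀ x, CRegJ n d S F Q x) :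
    ∃ F' : X → W, (∀ x, ContMDiffAt (𝓡 n) 𝓘(ℝ, W) ∞ F' x) ∧ ∀ x, RegJ n Q F' x := by
  classical
  have hch := fun x => (hF x).exists_cht
  choose A B R κ τ hxA hcht hτ hint hcm using hch
  obtain ⟨t, ht⟩ := isCompact_univ.elim_finite_subcover (fun x : X => A x '' ball 0 (R x))
    (fun x => (hcht x).isOpen) (fun x hx => mem_iUnion.2 ⟨x, hxA x⟩)
  have ht' : (univ : Set X) ⊆ ⋃ i : t, A i '' ball 0 (R i) := by
    intro x hx
    obtain ⟨i, hi⟩ := mem_iUnion.1 (ht hx)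
    obtain ⟨hi1, hi2⟩ := mem_iUnion.1 hi
    exact mem_iUnion.2 ⟨⟨i, hi1⟩, hi2⟩
  haveI : SigmaCompactSpace X := inferInstance
  obtain ⟨f, hf⟩ := SmoothPartitionOfUnity.exists_isSubordinate (𝓡 n) isClosed_univ
    (fun i : t => A i '' ball 0 (R i)) (fun i => (hcht i).isOpen) ht'
  have hfam : FamJ n t d F S (fun i => A i) (fun i => B i) (fun i => R i)
      (fun i => κ i) (fun i x => f i x) :=
    { cht := fun i => hcht i
      iF := fun i => hint i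
      sm := fun i => (f i).contMDiff
      nn := fun i x => f.nonneg i x
      one := fun x => by
        rw [← finsum_eq_sum_of_fintype]
        exact f.sum_eq_one (mem_univ x)
      sup := fun i => hf i }
  obtain ⟨G, hG⟩ : ∃ G : ℝ → X → W, G = fun r x => GJ (F r)
    (fun i : t => A i) (fun i => B i)
    (fun i => R i) (fun i x => f i x) r x := ⟨_, rfl⟩
  have hloc : ∀ x0 ∈ (univ : Set X), ∀ᶠ z : ℝ × X in 𝓝[S ∩ Ioi 0] (0 : ℝ) ×ˢ 𝓝 x0,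
      ContMDiffAt (𝓡 n) 𝓘(ℝ, W) ∞ (G z.1) z.2 ∧ RegJ n Q (G z.1) z.2 := by
    intro x0 _
    obtain ⟨i1, hi1, hev⟩ := hfam.loc x0
    have l0 : ∀ᶠ z : ℝ × X in 𝓝[S ∩ Ioi 0] (0 : ℝ) ×ˢ 𝓝 x0, z.1 ∈ S ∩ Ioi 0 := by
      have : ∀ᶠ r in 𝓝[S ∩ Ioi 0] (0 : ℝ), r ∈ S ∩ Ioi 0 := self_mem_nhdsWithin
      exact this.prod_inl _
    filter_upwards [hev (τ i1) (hτ i1), l0] with z hz hz0
    obtain ⟨z1, z2, z3, z4⟩ := hz
    rw [hG]
    obtain ⟨L, δ, hδ, hL, hAM, hQ⟩ := hcm i1 (B i1 z.2) ((hcht i1).mem z2) z.1 hz0.1 hz0.2 z1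
    exact ⟨z3.self_of_nhds, A i1, B i1 z.2, L, κ i1, δ, (hcht i1).right z2,
      (hcht i1).ld _ ((hcht i1).mem z2).le, (hcht i1).one, hδ, hQ, z4 δ L hδ hL hAM⟩
  have hne : (𝓝[S ∩ Ioi 0] (0 : ℝ)).NeBot := mem_closure_iff_nhdsWithin_neBot.1 hS
  have hall : ∀ᶠ r in 𝓝[S ∩ Ioi 0] (0 : ℝ), ∀ x ∈ (univ : Set X),
      ContMDiffAt (𝓡 n) 𝓘(ℝ, W) ∞ (G r) x ∧ RegJ n Q (G r) x := by
    have h1 : {z : ℝ × X | ContMDiffAt (𝓡 n) 𝓘(ℝ, W) ∞ (G z.1) z.2 ∧ RegJ n Q (G z.1) z.2} ∈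
        𝓝[S ∩ Ioi 0] (0 : ℝ) ×ˢ 𝓝ˢ (univ : Set X) :=
      isCompact_univ.mem_prod_nhdsSet_of_forall hloc
    obtain ⟨u, hu, v, hv, huv⟩ := Filter.mem_prod_iff.1 h1
    filter_upwards [hu] with r hr x hx
    exact huv (mk_mem_prod hr (subset_of_mem_nhdsSet hv hx))
  obtain ⟨r, hr⟩ := hall.exists
  exact ⟨G r, fun x => (hr x (mem_univ x)).1, fun x => (hr x (mem_univ x)).2⟩

end Pool.Agent.N824.CJ
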