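import Pool.Agent.N824.CJ.FinalS

/-!
# Local estimates for families of maps which are affine in the mean: relative version
-/

set_option autoImplicit false
set_option maxSynthPendingDepth 3

open Set Filter Topology Metric Function MeasureTheory
open scoped Manifold ContDiff Convolution

set_option linter.unusedSectionVars false

noncomputable section

namespace Pool.Agent.N824.CJ

open Pool.Agent.Y522 Pool.Agent.Y954.SH Pool.Agent.N824.CR Pool.Agent.N824.CN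

variable {n : ℕ} {W : Type} [NormedAddCommGroup W] [NormedSpace ℝ W] [FiniteDimensional ℝ W]

variable {X : Type} [TopologicalSpace X] [ChartedSpace (E n) X]

/-- data of a finite family of charts -/
structure FamK (n : ℕ) {X : Type} [TopologicalSpace X] [ChartedSpace (E n) X]
    {W : Type} [NormedAddCommGroup W] [NormedSpace ℝ W]
    (ι : Type) [Fintype ι] (d : X → X → ℝ) (F : ℝ → X → W) (S : Set ℝ)
    (A : ι → E n → X) (B : ι → X → E n) (R κ : ι → ℝ) (χ : ι → X → ℝ) : Prop where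
  cht : ∀ i, IsCht n d (A i) (B i) (R i) (κ i)
  iF : ∀ i, ∀ r ∈ S, 0 < r → r < R i → IntegrableOn (fun z => F r (A i z)) (closedBall 0 (R i))
  sm : ∀ i, ContMDiff (𝓡 n) 𝓘(ℝ, ℝ) ∞ (χ i)
  nn : ∀ i x, 0 ≤ χ i x
  le : ∀ x, ∑ i, χ i x ≤ 1
  sup : ∀ i, tsupport (χ i) ⊆ A i '' ball 0 (R i)

section

variable {ι : Type} [Fintype ι] {d : X → X → ℝ}
  {F : ℝ → X → W} {S : Set ℝ} {A : ι → E n → X}
  {B : ι → X → E n} {R κ : ι → ℝ} {χ : ι → X → ℝ}

theorem FamK.contDiffAt (hf : FamK n ι d F S A B R κ χ) (j : ι) {i : ι}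
    {z : E n} (hz : ‖z‖ ≤ R i) : ContDiffAt ℝ ∞ (fun y => χ j (A i y)) z := by
  have h1 := ((hf.cht i).ld z hz).contMDiffAt
  have h2 : ContMDiffAt (𝓡 n) 𝓘(ℝ, ℝ) ∞ (χ j ∘ A i) z :=
    ((hf.sm j).contMDiffAt).comp z h1
  exact contMDiffAt_iff_contDiffAt.1 h2

/-- the local claim -/
theorem FamK.loc (hf : FamK n ι d F S A B R κ χ) {x0 : X}
    (hone : ∀ᶠ x in 𝓝 x0, ∑ i, χ i x = 1) :
    ∃ i1, x0 ∈ A i1 '' ball 0 (R i1) ∧ ∀ τ : ℝ → ℝ, Tendsto τ (𝓝[>] 0) (𝓝 0) →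
      ∀ᶠ z : ℝ × X in 𝓝[S ∩ Ioi 0] (0 : ℝ) ×ˢ 𝓝 x0,
      z.1 < R i1 ∧ z.2 ∈ A i1 '' ball 0 (R i1) ∧
      (∀ᶠ x in 𝓝 z.2, ContMDiffAt (𝓡 n) 𝓘(ℝ, W) ∞ (GJ (F z.1) A B R χ z.1) x) ∧
      ∀ (δ : ℝ) (L : E n →L[ℝ] W), 0 ≤ δ → ‖L‖ * z.1 ≤ δ * τ z.1 →
        AM n (fun y => F z.1 (A i1 y)) (B i1 z.2) (κ i1) z.1 δ L →
        ‖fderiv ℝ (fun y => GJ (F z.1) A B R χ z.1 (A i1 y)) (B i1 z.2) - L‖ ≤
          CJ n * κ i1 ^ (2 * n + 2) * δ := by
  classical
  obtain ⟨I, hI⟩ : ∃ I : Finset ι, ∀ i, i ∈ I ↔ x0 ∈ tsupport (χ i) :=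
    ⟨Finset.univ.filter fun i => x0 ∈ tsupport (χ i), fun i => by simp⟩
  have hIne : I.Nonempty := by
    have h1 := hone.self_of_nhds
    obtain ⟨i, -, hi⟩ := Finset.exists_ne_zero_of_sum_ne_zero (by rw [h1]; exact one_ne_zero)
    exact ⟨i, (hI i).2 (subset_tsupport _ hi)⟩
  obtain ⟨i1, hi1, hmax⟩ := Finset.exists_max_image I (fun i => κ i) hIne
  have hz : ∀ᶠ x in 𝓝 x0, ∀ i, i ∉ I → χ i x = 0 := by
    refine Filter.eventually_all.2 fun i => ?_
    by_cases hi : i ∈ I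
    · exact Eventually.of_forall fun x h => absurd hi h
    · have h1 : x0 ∉ tsupport (χ i) := fun h => hi ((hI i).2 h)
      have h2 : χ i =ᶠ[𝓝 x0] 0 := notMem_tsupport_iff_eventuallyEq.1 h1
      filter_upwards [h2] with x hx _
      exact hx
  have hsum : ∀ᶠ x in 𝓝 x0, (∑ i ∈ I, χ i x = 1) ∧
        ∀ r, ∑ i ∈ I, χ i x • Ml n (fun z => F r (A i z)) (R i) r (B i x) =
          GJ (F r) A B R χ r x := by
    filter_upwards [hz, hone] with x hx hx1
    have e1 : ∑ i ∈ I, χ i x = ∑ i, χ i x :=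
      Finset.sum_subset (Finset.subset_univ I) fun i _ hi => hx i hi
    refine ⟨e1.trans hx1, fun r => ?_⟩
    unfold GJ
    refine Finset.sum_subset (Finset.subset_univ I) fun i _ hi => ?_
    rw [hx i hi, zero_smul]
  have hW : ∀ i ∈ I, x0 ∈ A i '' ball 0 (R i) := fun i hi => hf.sup i ((hI i).1 hi)
  have hW1 := hW i1 hi1
  -- transitions from the reference chart
  have htr : ∀ i : ι, ∃ ρ : ℝ, 0 < ρ ∧ (i ∈ I → ∀ p, ‖p - B i1 x0‖ < ρ → ‖p‖ < R i1 ∧
      A i1 p ∈ A i '' ball 0 (R i) ∧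
        LD n (fun z => B i (A i1 z)) p ∧
        ‖fderiv ℝ (fun z => B i (A i1 z)) p‖ ≤ κ i1 * κ i) := by
    intro i
    by_cases hi : i ∈ I
    · obtain ⟨ρ, h1, h2, h3⟩ := (hf.cht i1).trans (hf.cht i) hW1 (hW i hi) one_pos
      refine ⟨ρ, h1, fun _ p hp => ?_⟩
      obtain ⟨b1, b2, b3, b4, b5⟩ := h2 p hp
      exact ⟨b1, b2, b3, b5⟩
    · exact ⟨1, one_pos, fun h => absurd h hi⟩
  choose ρ hρ0 hρ using htr
  -- transitions to the reference chart
  have htr' : ∀ i : ι, ∃ ρ C : ℝ, 0 < ρ ∧ 0 ≤ C ∧ (i ∈ I → (∀ p, ‖p - B i x0‖ < ρ → ‖p‖ < R i ∧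
      A i p ∈ A i1 '' ball 0 (R i1) ∧
        LD n (fun z => B i1 (A i z)) p) ∧
      (∀ p q, ‖p - B i x0‖ < ρ → ‖q - B i x0‖ < ρ →
        ‖B i1 (A i q) - B i1 (A i p)‖ ≤ κ i * κ i1 * ‖q - p‖) ∧
      ∀ p r, (∀ q, ‖q - p‖ ≤ r → ‖q - B i x0‖ < ρ) →
      ∀ q q', ‖q - p‖ ≤ r → ‖q' - p‖ ≤ r →
        ‖B i1 (A i q') - B i1 (A i q) - fderiv ℝ (fun z => B i1 (A i z)) p (q' - q)‖ ≤
          C * r * ‖q' - q‖) := by
    intro i
    by_cases hi : i ∈ I
    · obtain ⟨ρ, h1, h2, h3⟩ := (hf.cht i).trans (hf.cht i1) (hW i hi) hW1 one_pos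
      have h0 : ‖B i x0 - B i x0‖ < ρ := by rwa [sub_self, norm_zero]
      obtain ⟨ρq, C, h4, h5, h6⟩ := quad_ball (h2 _ h0).2.2.1.contDiffAt
      refine ⟨min ρ ρq, C, lt_min h1 h4, h5, fun _ => ⟨fun p hp => ?_, fun p q hp hq => ?_,
        fun p r hpr q q' hq hq' => ?_⟩⟩
      · obtain ⟨b1, b2, b3, -, -⟩ := h2 p (hp.trans_le (min_le_left _ _))
        exact ⟨b1, b2, b3⟩
      · exact (h3 p q (hp.trans_le (min_le_left _ _)) (hq.trans_le (min_le_left _ _))).2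
      · exact h6 p r (fun q hq => (hpr q hq).trans_le (min_le_right _ _)) q q' hq hq'
    · exact ⟨1, 0, one_pos, le_rfl, fun h => absurd h hi⟩
  choose ρ' Cq hρ'0 hCq hρ' using htr'
  -- the bound of the derivatives of the weights
  obtain ⟨D, hD⟩ : ∃ D : ℝ, D = ∑ o : ι,
      (‖fderiv ℝ (fun y => χ o (A i1 y)) (B i1 x0)‖ + 1) := ⟨_, rfl⟩
  have hD0 : 0 ≤ D := by rw [hD]; positivity
  have hDe : ∀ᶠ p in 𝓝 (B i1 x0), ∀ o : ι,
      ‖fderiv ℝ (fun y => χ o (A i1 y)) p‖ ≤ D := by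
    refine Filter.eventually_all.2 fun o => ?_
    have h1 := hf.contDiffAt o (i := i1) ((hf.cht i1).mem hW1).le
    have h2 : ContinuousAt (fderiv ℝ (fun y => χ o (A i1 y))) (B i1 x0) :=
      (h1.fderiv_right (m := 0) (by simp)).continuousAt
    have h3 : ‖fderiv ℝ (fun y => χ o (A i1 y)) (B i1 x0)‖ <
        ‖fderiv ℝ (fun y => χ o (A i1 y)) (B i1 x0)‖ + 1 := by linarith
    filter_upwards [h2.norm.eventually_lt_const h3] with p hp
    refine hp.le.trans ?_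
    rw [hD]
    exact Finset.single_le_sum
      (f := fun o => ‖fderiv ℝ (fun y => χ o (A i1 y)) (B i1 x0)‖ + 1)
      (fun o _ => by positivity) (Finset.mem_univ o)
  obtain ⟨Cs, hCs⟩ : ∃ Cs : ℝ, Cs = ∑ i, Cq i := ⟨_, rfl⟩
  have hCs0 : 0 ≤ Cs := by rw [hCs]; exact Finset.sum_nonneg fun i _ => hCq i
  have hCsi : ∀ i, Cq i ≤ Cs := fun i => by
    rw [hCs]
    exact Finset.single_le_sum (fun i _ => hCq i) (Finset.mem_univ i)
  refine ⟨i1, hW1, fun τ hτ => ?_⟩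
  -- limits
  obtain ⟨l, hl⟩ : ∃ l : Filter (ℝ × X), l = 𝓝[S ∩ Ioi 0] (0 : ℝ) ×ˢ 𝓝 x0 := ⟨_, rfl⟩
  rw [← hl]
  have l1 : Tendsto (fun z : ℝ × X => z.1) l (𝓝 0) := by
    rw [hl]
    exact tendsto_fst.mono_right nhdsWithin_le_nhds
  have l1' : Tendsto (fun z : ℝ × X => z.1) l (𝓝[>] 0) := by
    rw [hl]
    exact tendsto_fst.mono_right (nhdsWithin_mono _ inter_subset_right)
  have l0 : ∀ᶠ z : ℝ × X in l, z.1 ∈ S ∩ Ioi 0 := by
    rw [hl]
    have : ∀ᶠ r in 𝓝[S ∩ Ioi 0] (0 : ℝ), r ∈ S ∩ Ioi 0 := self_mem_nhdsWithin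
    exact this.prod_inl _
  have lH : Tendsto (fun z : ℝ × X => τ z.1) l (𝓝 0) := hτ.comp l1'
  have l2 : Tendsto (fun z : ℝ × X => z.2) l (𝓝 x0) := by
    rw [hl]
    exact tendsto_snd
  have lB : ∀ i ∈ I, Tendsto (fun z : ℝ × X => B i z.2) l (𝓝 (B i x0)) := fun i hi =>
    ((hf.cht i).ldB (hW i hi)).continuousAt.tendsto.comp l2
  have q1 : ∀ᶠ z in l, ∀ i ∈ I, ‖B i1 z.2 - B i1 x0‖ < ρ i := by
    refine (Finset.eventually_all I).2 fun i _ => ?_
    have h1 : Tendsto (fun z : ℝ × X => ‖B i1 z.2 - B i1 x0‖) l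
        (𝓝 (‖B i1 x0 - B i1 x0‖)) := ((lB i1 hi1).sub_const _).norm
    rw [sub_self, norm_zero] at h1
    exact h1.eventually_lt_const (hρ0 i)
  have q1' : ∀ᶠ z in l, ∀ i ∈ I, ‖B i z.2 - B i x0‖ + z.1 < ρ' i := by
    refine (Finset.eventually_all I).2 fun i hi => ?_
    have h1 : Tendsto (fun z : ℝ × X => ‖B i z.2 - B i x0‖ + z.1) l
        (𝓝 (‖B i x0 - B i x0‖ + 0)) :=
      (((lB i hi).sub_const _).norm).add l1
    rw [sub_self, norm_zero, add_zero] at h1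
    exact h1.eventually_lt_const (hρ'0 i)
  have q2 : ∀ᶠ z in l, ∀ i ∈ I, ‖B i z.2‖ + z.1 < R i := by
    refine (Finset.eventually_all I).2 fun i hi => ?_
    have h1 : Tendsto (fun z : ℝ × X => ‖B i z.2‖ + z.1) l (𝓝 (‖B i x0‖ + 0)) :=
      ((lB i hi).norm).add l1
    rw [add_zero] at h1
    exact h1.eventually_lt_const ((hf.cht i).mem (hW i hi))
  have q3 : ∀ᶠ z in l, ∀ i ∈ I, z.2 ∈ A i '' ball 0 (R i) := by
    refine (Finset.eventually_all I).2 fun i hi => ?_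
    exact l2.eventually ((hf.cht i).isOpen.mem_nhds (hW i hi))
  have small : ∀ (c b : ℝ) (f : ℝ × X → ℝ), Tendsto f l (𝓝 0) → 0 < b →
      ∀ᶠ z in l, c * f z < b := by
    intro c b f hf0 hb
    have h1 : Tendsto (fun z : ℝ × X => c * f z) l (𝓝 (c * 0)) := hf0.const_mul _
    rw [mul_zero] at h1
    exact h1.eventually_lt_const hb
  have q4 := small (κ i1 ^ 2 * (MD n * (Cs * VB n)) +
    I.card * (D * (MK n * (κ i1 ^ 2 * VB n)))) (1 / 2) _ lH (by norm_num)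
  have q4' := small (I.card * (D * (MK n * κ i1 ^ (2 * n)))) (1 / 2) _ l1 (by norm_num)
  have q5 := l2.eventually hsum.eventually_nhds
  have q6 := (lB i1 hi1).eventually hDe
  have q9 : ∀ᶠ z in l, ∀ i ∈ I, z.1 < R i :=
    (Finset.eventually_all I).2 fun i _ => l1.eventually_lt_const (hf.cht i).pos
  filter_upwards [l0, q1, q1', q2, q3, q4, q4', q5, q6, q9] with z z0' z1 z1' z2 z3 z4 z4' z5 z6 z9
  obtain ⟨r, x⟩ := z
  simp only at z0' z1 z1' z2 z3 z4 z4' z5 z6 z9 ⊢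
  obtain ⟨zS, z0⟩ := z0'
  replace z0 : 0 < r := z0
  have hx1 := z3 i1 hi1
  obtain ⟨p, hp⟩ : ∃ p, p = B i1 x := ⟨_, rfl⟩
  have hAp : A i1 p = x := by rw [hp]; exact (hf.cht i1).right hx1
  have hpR : ‖p‖ < R i1 := by rw [hp]; exact (hf.cht i1).mem hx1
  rw [← hp] at z1 z6
  have hAc : ContinuousAt (A i1) p := ((hf.cht i1).ld p hpR.le).continuousAt
  have hκ1 := (hf.cht i1).one
  have hκ2 : 1 ≤ κ i1 ^ 2 := one_le_pow₀ hκ1
  obtain ⟨G, hG⟩ : ∃ G : X → W, G = F r := ⟨_, rfl⟩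
  have hiF : ∀ i ∈ I, IntegrableOn (fun w => G (A i w)) (closedBall 0 (R i)) := fun i hi => by
    rw [hG]
    exact hf.iF i r zS z0 (z9 i hi)
  -- the patched map
  obtain ⟨fs, hfs⟩ : ∃ fs : E n → W, fs = fun y => ∑ i ∈ I, χ i (A i1 y) •
      Ml n (fun w => G (A i w)) (R i) r (B i (A i1 y)) := ⟨_, rfl⟩
  have z5' : ∀ᶠ y in 𝓝 p, (∑ i ∈ I, χ i (A i1 y) = 1) ∧
      ∑ i ∈ I, χ i (A i1 y) • Ml n (fun w => G (A i w)) (R i) r (B i (A i1 y)) =
        GJ G A B R χ r (A i1 y) := by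
    rw [← hAp] at z5
    filter_upwards [hAc.eventually z5] with y hy
    refine ⟨hy.1, ?_⟩
    rw [hG]
    exact hy.2 r
  have hsm : ∀ᶠ y in 𝓝 p, ∀ i ∈ I, ContDiffAt ℝ ∞ (fun y => χ i (A i1 y)) y ∧
      ContDiffAt ℝ ∞ (fun y => Ml n (fun w => G (A i w)) (R i) r (B i (A i1 y))) y := by
    have w1 : ∀ᶠ y : E n in 𝓝 p, ‖y‖ < R i1 :=
      (isOpen_lt continuous_norm continuous_const).mem_nhds hpR
    have w2 : ∀ᶠ y in 𝓝 p, ∀ i ∈ I, ‖y - B i1 x0‖ < ρ i := by
      refine (Finset.eventually_all I).2 fun i hi => ?_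
      have : Continuous fun q : E n => ‖q - B i1 x0‖ := by fun_prop
      exact (isOpen_lt this continuous_const).mem_nhds (z1 i hi)
    filter_upwards [w1, w2] with y y1 y2
    intro i hi
    exact ⟨hf.contDiffAt i y1.le, (Ml_smooth (hiF i hi) z0).contDiffAt.comp y
      ((hρ i hi) y (y2 i hi)).2.2.1.contDiffAt⟩
  have hsmp := hsm.self_of_nhds
  have hfsm : ∀ᶠ y in 𝓝 p, ContDiffAt ℝ ∞ fs y := by
    filter_upwards [hsm] with y hy
    rw [hfs]
    exact ContDiffAt.sum fun o ho => (hy o ho).1.smul (hy o ho).2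
  refine ⟨z9 i1 hi1, hx1, ?_, ?_⟩
  · -- smoothness
    have hsmB : ∀ᶠ x' in 𝓝 x, ContDiffAt ℝ ∞ fs (B i1 x') := by
      have h1 : ContinuousAt (B i1) x := ((hf.cht i1).ldB hx1).continuousAt
      have h2 : Tendsto (B i1) (𝓝 x) (𝓝 p) := by
        have h3 : Tendsto (B i1) (𝓝 x) (𝓝 (B i1 x)) := h1
        rwa [← hp] at h3
      exact h2.eventually hfsm
    have hmem : ∀ᶠ x' in 𝓝 x, x' ∈ A i1 '' ball 0 (R i1) := (hf.cht i1).isOpen.mem_nhds hx1
    have heq : ∀ᶠ x' in 𝓝 x, fs (B i1 x') = GJ G A B R χ r x' := by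
      have h1 : ContinuousAt (B i1) x := ((hf.cht i1).ldB hx1).continuousAt
      have h2 : Tendsto (B i1) (𝓝 x) (𝓝 p) := by
        have h3 : Tendsto (B i1) (𝓝 x) (𝓝 (B i1 x)) := h1
        rwa [← hp] at h3
      filter_upwards [h2.eventually z5', hmem] with x' h3 h4
      rw [hfs]
      beta_reduce
      rw [h3.2, (hf.cht i1).right h4]
    filter_upwards [hsmB, hmem, heq.eventually_nhds] with x' h1 h2 h3
    have h4 : ContMDiffAt (𝓡 n) 𝓘(ℝ, W) ∞ (fs ∘ B i1) x' :=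
      (contMDiffAt_iff_contDiffAt.2 h1).comp x' ((hf.cht i1).ldB h2).contMDiffAt
    refine h4.congr_of_eventuallyEq ?_
    filter_upwards [h3] with x'' h5
    rw [← hG]
    exact h5.symm
  · rintro δ L hδ hLτ ⟨hint, c, hc⟩
    rw [← hp, ← hG] at *
    -- estimates for the patches
    have hest : ∀ i ∈ I,
        ‖fderiv ℝ (fun y => Ml n (fun w => G (A i w)) (R i) r (B i (A i1 y))) p - L‖ ≤
          κ i1 ^ 2 * (MD n * (κ i1 ^ (2 * n) * δ + ‖L‖ * (Cs * r) * VB n)) ∧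
        ‖Ml n (fun w => G (A i w)) (R i) r (B i (A i1 p)) - c‖ ≤
          MK n * (r * (κ i1 ^ (2 * n) * δ + ‖L‖ * κ i1 ^ 2 * VB n)) := by
      intro i hi
      have hr1 := hρ i hi
      obtain ⟨hs1, hs2, hs3⟩ := hρ' i hi
      have hκi : κ i ≤ κ i1 := hmax i hi
      have hκi1 := (hf.cht i).one
      have hκκ : κ i * κ i1 ≤ κ i1 ^ 2 := by nlinarith
      have hbx : B i (A i1 p) = B i x := by rw [hAp]
      obtain ⟨b1, b2, b3, b4⟩ := hr1 p (z1 i hi)
      have hsρ : ∀ s, ‖s - B i (A i1 p)‖ ≤ r → ‖s - B i x0‖ < ρ' i := by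
        intro s hs
        rw [hbx] at hs
        calc ‖s - B i x0‖ = ‖(s - B i x) + (B i x - B i x0)‖ := by congr 1; abel
          _ ≤ ‖s - B i x‖ + ‖B i x - B i x0‖ := norm_add_le _ _
          _ < ρ' i := by linarith [z1' i hi]
      have hs0 : ‖B i (A i1 p) - B i x0‖ < ρ' i := hsρ _ (by simpa using z0.le)
      obtain ⟨c1, c2, c3⟩ := hs1 _ hs0
      have hback : B i1 (A i (B i (A i1 p))) = p := by
        rw [(hf.cht i).right b2, (hf.cht i1).left p hpR.le]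
      have hid : ∀ u, (fderiv ℝ (fun z => B i1 (A i z)) (B i (A i1 p)))
          (fderiv ℝ (fun z => B i (A i1 z)) p u) = u := by
        intro u
        have d1 : HasFDerivAt (fun z => B i (A i1 z)) (fderiv ℝ (fun z => B i (A i1 z)) p) p :=
          (b3.contDiffAt.differentiableAt (by simp)).hasFDerivAt
        have d2 : HasFDerivAt (fun z => B i1 (A i z))
            (fderiv ℝ (fun z => B i1 (A i z)) (B i (A i1 p))) (B i (A i1 p)) :=
          (c3.contDiffAt.differentiableAt (by simp)).hasFDerivAt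
        have d3 := HasFDerivAt.comp p d2 d1
        have d4 : HasFDerivAt ((fun z => B i1 (A i z)) ∘ fun z => B i (A i1 z))
            (ContinuousLinearMap.id ℝ (E n)) p := by
          refine (hasFDerivAt_id p).congr_of_eventuallyEq ?_
          have w1 : ∀ᶠ y : E n in 𝓝 p, ‖y‖ < R i1 :=
            (isOpen_lt continuous_norm continuous_const).mem_nhds hpR
          have w2 : ∀ᶠ y in 𝓝 p, ‖y - B i1 x0‖ < ρ i := by
            have : Continuous fun q : E n => ‖q - B i1 x0‖ := by fun_prop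
            exact (isOpen_lt this continuous_const).mem_nhds (z1 i hi)
          filter_upwards [w1, w2] with y y1 y2
          show B i1 (A i (B i (A i1 y))) = y
          rw [(hf.cht i).right (hr1 y y2).2.1, (hf.cht i1).left y y1.le]
        have d5 := d3.unique d4
        have d6 := congrArg (fun L : E n →L[ℝ] E n => L u) d5
        simpa using d6
      have key := estJ (n := n) (h1 := fun w => G (A i1 w)) (h2 := fun w => G (A i w))
        (φ := fun y => B i (A i1 y)) (ψ := fun y => B i1 (A i y)) (p := p)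
        (r := r) (κ := κ i1) (δ := δ) (η := Cs * r) (R2 := R i) (L := L)
        (T := fderiv ℝ (fun z => B i1 (A i z)) (B i (A i1 p))) (c := c) z0 hback
        (fun s hs => by
          show B i (A i1 (B i1 (A i s))) = s
          rw [(hf.cht i1).right (hs1 s (hsρ s hs)).2.1,
            (hf.cht i).left s (hs1 s (hsρ s hs)).1.le])
        (fun s hs => by
          show G (A i1 (B i1 (A i s))) = G (A i s)
          rw [(hf.cht i1).right (hs1 s (hsρ s hs)).2.1])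
        (fun s hs => by
          rw [mem_closedBall, dist_eq_norm] at hs
          exact (hs1 s (hsρ s hs)).2.2.continuousAt.continuousWithinAt)
        (fun s hs => by
          have h1 := hs2 _ s hs0 (hsρ s hs)
          rw [hback] at h1
          refine h1.trans ?_
          have hs' : ‖s - B i (A i1 p)‖ ≤ r := hs
          gcongr)
        (fun s hs => by
          have h1 := hs3 (B i (A i1 p)) r hsρ (B i (A i1 p)) s (by simpa using z0.le) hs
          rw [hback] at h1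
          refine h1.trans ?_
          have hs' : ‖s - B i (A i1 p)‖ ≤ r := hs
          have := hCsi i
          have := hCq i
          gcongr)
        (fun s s' hs hs' => by
          show ‖s - s'‖ ≤ κ i1 ^ 2 * ‖B i1 (A i s) - B i1 (A i s')‖
          obtain ⟨g1, g2, -⟩ := hs1 s (hsρ s hs)
          obtain ⟨g1', g2', -⟩ := hs1 s' (hsρ s' hs')
          have k1 := (hf.cht i).low s s' g1.le g1'.le
          have k2 := (hf.cht i1).up (B i1 (A i s)) (B i1 (A i s')) ((hf.cht i1).mem g2).le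
            ((hf.cht i1).mem g2').le
          rw [(hf.cht i1).right g2, (hf.cht i1).right g2'] at k2
          calc ‖s - s'‖ ≤ κ i * d (A i s) (A i s') := k1
            _ ≤ κ i * (κ i1 * ‖B i1 (A i s) - B i1 (A i s')‖) := by gcongr
            _ = (κ i * κ i1) * ‖B i1 (A i s) - B i1 (A i s')‖ := by ring
            _ ≤ _ := by gcongr)
        (b3.contDiffAt.differentiableAt (by simp)) (b4.trans (by linarith)) hid
        (hiF i hi) (by
          show ‖B i (A i1 p)‖ + r ≤ R i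
          rw [hbx]
          exact (z2 i hi).le) hint hc
      exact key
    have h1 := patchJ I (fun o y => χ o (A i1 y))
      (fun i y => Ml n (fun w => G (A i w)) (R i) r (B i (A i1 y))) p L c _ D _
      (fun o ho => (hsmp o ho).1.differentiableAt (by simp))
      (fun o ho => (hsmp o ho).2.differentiableAt (by simp))
      (fun o ho => hf.nn o _)
      (by
        filter_upwards [z5'] with y hy
        exact hy.1)
      (fun i hi => (hest i hi).1) (fun i hi => (hest i hi).2) (fun o _ => z6 o) hD0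
    rw [← hfs] at h1
    have h2 : (fun y => GJ G A B R χ r (A i1 y)) =ᶠ[𝓝 p] fs := by
      filter_upwards [z5'] with y hy
      rw [hfs]
      exact hy.2.symm
    rw [h2.fderiv_eq]
    refine h1.trans ?_
    have hMD := MD_nonneg (n := n)
    have hMK := MK_nonneg (n := n)
    have hVB := VB_nonneg (n := n)
    have e1 : κ i1 ^ 2 * (MD n * (κ i1 ^ (2 * n) * δ + ‖L‖ * (Cs * r) * VB n)) +
        I.card * (D * (MK n * (r * (κ i1 ^ (2 * n) * δ + ‖L‖ * κ i1 ^ 2 * VB n)))) =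
        MD n * (κ i1 ^ 2 * κ i1 ^ (2 * n)) * δ +
        ((κ i1 ^ 2 * (MD n * (Cs * VB n)) +
          I.card * (D * (MK n * (κ i1 ^ 2 * VB n)))) * (‖L‖ * r) +
        (I.card * (D * (MK n * κ i1 ^ (2 * n))) * r) * δ) := by ring
    have e2 : κ i1 ^ (2 * n + 2) = κ i1 ^ 2 * κ i1 ^ (2 * n) := by rw [pow_add, mul_comm]
    have e3 : 1 ≤ κ i1 ^ (2 * n + 2) := one_le_pow₀ hκ1
    rw [e1, ← e2]
    have e4 : (κ i1 ^ 2 * (MD n * (Cs * VB n)) +
          I.card * (D * (MK n * (κ i1 ^ 2 * VB n)))) * (‖L‖ * r) ≤ 1 / 2 * δ := by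
      calc _ ≤ (κ i1 ^ 2 * (MD n * (Cs * VB n)) +
          I.card * (D * (MK n * (κ i1 ^ 2 * VB n)))) * (δ * τ r) := by gcongr
        _ = ((κ i1 ^ 2 * (MD n * (Cs * VB n)) +
          I.card * (D * (MK n * (κ i1 ^ 2 * VB n)))) * τ r) * δ := by ring
        _ ≤ _ := by gcongr
    have e5 : (I.card * (D * (MK n * κ i1 ^ (2 * n))) * r) * δ ≤ 1 / 2 * δ := by gcongr
    unfold CJ
    nlinarith

/-- where the maps vanish -/
theorem FamK.zero (hf : FamK n ι d F S A B R κ χ) {x0 : X} {U : Set X} (hU : IsOpen U)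
    (hx0 : x0 ∈ U) (hF : ∀ r ∈ S, ∀ x ∈ U, F r x = 0) :
    ∀ᶠ z : ℝ × X in 𝓝[S ∩ Ioi 0] (0 : ℝ) ×ˢ 𝓝 x0, ∀ᶠ x in 𝓝 z.2,
      GJ (F z.1) A B R χ z.1 x = 0 := by
  classical
  obtain ⟨l, hl⟩ : ∃ l : Filter (ℝ × X), l = 𝓝[S ∩ Ioi 0] (0 : ℝ) ×ˢ 𝓝 x0 := ⟨_, rfl⟩
  rw [← hl]
  have l1 : Tendsto (fun z : ℝ × X => z.1) l (𝓝 0) := by
    rw [hl]
    exact tendsto_fst.mono_right nhdsWithin_le_nhds
  have l0 : ∀ᶠ z : ℝ × X in l, z.1 ∈ S ∩ Ioi 0 := by
    rw [hl]
    have : ∀ᶠ r in 𝓝[S ∩ Ioi 0] (0 : ℝ), r ∈ S ∩ Ioi 0 := self_mem_nhdsWithin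
    exact this.prod_inl _
  have l2 : Tendsto (fun z : ℝ × X => z.2) l (𝓝 x0) := by
    rw [hl]
    exact tendsto_snd
  -- each patch vanishes
  have hi : ∀ i : ι, ∃ ρ : ℝ, 0 < ρ ∧ ∀ᶠ x in 𝓝 x0, ∀ r ∈ S, 0 < r → r < ρ →
      χ i x • Ml n (fun z => F r (A i z)) (R i) r (B i x) = 0 := by
    intro i
    by_cases hi : x0 ∈ tsupport (χ i)
    · have hW := hf.sup i hi
      have hb := (hf.cht i).mem hW
      have hAV : A i ⁻¹' U ∈ 𝓝 (B i x0) := by
        refine ((hf.cht i).ld _ hb.le).continuousAt.preimage_mem_nhds ?_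
        rw [(hf.cht i).right hW]
        exact hU.mem_nhds hx0
      obtain ⟨ρv, hρv, hbv⟩ := Metric.mem_nhds_iff.1 hAV
      have hg : 0 < R i - ‖B i x0‖ := by linarith
      refine ⟨min (R i) (min (ρv / 2) ((R i - ‖B i x0‖) / 2)), by
        have := (hf.cht i).pos
        positivity, ?_⟩
      have hBc : ContinuousAt (B i) x0 := ((hf.cht i).ldB hW).continuousAt
      have e1 : ∀ᶠ x in 𝓝 x0, ‖B i x - B i x0‖ < min (ρv / 2) ((R i - ‖B i x0‖) / 2) := by
        have h1 : Tendsto (fun x => ‖B i x - B i x0‖) (𝓝 x0) (𝓝 ‖B i x0 - B i x0‖) :=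
          (hBc.sub continuousAt_const).norm
        rw [sub_self, norm_zero] at h1
        exact h1.eventually_lt_const (by positivity)
      filter_upwards [e1] with x hx r hr h0 hrρ
      have k1 : r < R i := hrρ.trans_le (min_le_left _ _)
      have k2 : r < ρv / 2 := hrρ.trans_le ((min_le_right _ _).trans (min_le_left _ _))
      have k3 : r < (R i - ‖B i x0‖) / 2 :=
        hrρ.trans_le ((min_le_right _ _).trans (min_le_right _ _))
      have k4 : ‖B i x - B i x0‖ < ρv / 2 := hx.trans_le (min_le_left _ _)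
      have k5 : ‖B i x - B i x0‖ < (R i - ‖B i x0‖) / 2 := hx.trans_le (min_le_right _ _)
      have hn : ‖B i x‖ + r ≤ R i := by
        have : ‖B i x‖ ≤ ‖B i x - B i x0‖ + ‖B i x0‖ := by
          calc ‖B i x‖ = ‖(B i x - B i x0) + B i x0‖ := by congr 1; abel
            _ ≤ _ := norm_add_le _ _
        linarith
      have h2 := Ml_cmean (p := B i x) (0 : W) (hf.iF i r hr h0 k1) h0 hn
      have h3 : ∫ s in closedBall (B i x) r, ‖F r (A i s) - 0‖ = 0 := by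
        have h4 : ∀ s ∈ closedBall (B i x) r, ‖F r (A i s) - 0‖ = 0 := by
          intro s hs
          rw [mem_closedBall, dist_eq_norm] at hs
          have h5 : s ∈ ball (B i x0) ρv := by
            rw [mem_ball, dist_eq_norm]
            calc ‖s - B i x0‖ = ‖(s - B i x) + (B i x - B i x0)‖ := by congr 1; abel
              _ ≤ ‖s - B i x‖ + ‖B i x - B i x0‖ := norm_add_le _ _
              _ < ρv := by linarith
          rw [hF r hr _ (hbv h5), sub_zero, norm_zero]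
        rw [setIntegral_congr_fun measurableSet_closedBall h4]
        simp
      rw [h3, mul_zero, sub_zero] at h2
      rw [norm_le_zero_iff.1 h2, smul_zero]
    · refine ⟨1, one_pos, ?_⟩
      filter_upwards [notMem_tsupport_iff_eventuallyEq.1 hi] with x hx r _ _ _
      have hx' : χ i x = 0 := hx
      rw [hx', zero_smul]
  choose ρ hρ hev using hi
  have q1 : ∀ᶠ z in l, ∀ i, z.1 < ρ i :=
    Filter.eventually_all.2 fun i => l1.eventually_lt_const (hρ i)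
  have q2 : ∀ᶠ z in l, ∀ᶠ x in 𝓝 z.2, ∀ i, ∀ r ∈ S, 0 < r → r < ρ i →
      χ i x • Ml n (fun z => F r (A i z)) (R i) r (B i x) = 0 :=
    l2.eventually (Filter.eventually_all.2 hev).eventually_nhds
  filter_upwards [l0, q1, q2] with z z0 z1 z2
  filter_upwards [z2] with x hx
  unfold GJ
  exact Finset.sum_eq_zero fun i _ => hx i z.1 z0.1 z0.2 (z1 i)

end

end Pool.Agent.N824.CJ
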