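import Pool.Agent.N824.CN.Loc

/-!
# Mollification of maps which are affine in the mean
-/

set_option autoImplicit false
set_option maxSynthPendingDepth 3

open Set Filter Topology Metric Function MeasureTheory
open scoped Manifold ContDiff Convolution

set_option linter.unusedSectionVars false

noncomputable section

namespace Pool.Agent.N824.CJ

open Pool.Agent.Y522 Pool.Agent.Y954.SH Pool.Agent.N824.CR Pool.Agent.N824.CN

variable {n : ℕ} {W : Type} [NormedAddCommGroup W] [NormedSpace ℝ W] [FiniteDimensional ℝ W]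

/-- bound of the derivative of the kernel -/
def MD (n : ℕ) : ℝ := ⨆ t : E n, ‖fderiv ℝ (K n) t‖

lemma le_MD (t : E n) : ‖fderiv ℝ (K n) t‖ ≤ MD n := by
  obtain ⟨C, hC⟩ := ((K_cpt (n := n)).fderiv ℝ).exists_bound_of_continuous K_d_cont
  exact le_ciSup (f := fun t : E n => ‖fderiv ℝ (K n) t‖) ⟨C, by rintro _ ⟨t, rfl⟩; exact hC t⟩ t

lemma MD_nonneg : 0 ≤ MD n := (norm_nonneg _).trans (le_MD (n := n) 0)

/-- bound of the kernel -/
def MK (n : ℕ) : ℝ := ⨆ t : E n, ‖K n t‖

lemma le_MK (t : E n) : ‖K n t‖ ≤ MK n := by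
  obtain ⟨C, hC⟩ := (K_cpt (n := n)).exists_bound_of_continuous K_smooth.continuous
  exact le_ciSup (f := fun t : E n => ‖K n t‖) ⟨C, by rintro _ ⟨t, rfl⟩; exact hC t⟩ t

lemma MK_nonneg : 0 ≤ MK n := (norm_nonneg _).trans (le_MK (n := n) 0)

lemma Kd_cont (w : E n) : Continuous (fun t : E n => fderiv ℝ (K n) t w) :=
  K_d_cont.clm_apply continuous_const

lemma Kd_int (w : E n) : Integrable (fun t : E n => fderiv ℝ (K n) t w) :=
  (Kd_cont w).integrable_of_hasCompactSupport (K_cpt.fderiv_apply ℝ w)

/-- the moment of the derivative of the kernel -/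
lemma K_d_lin (M : E n →L[ℝ] W) (w : E n) : ∫ t, fderiv ℝ (K n) t w • M t = -M w := by
  have hd : ∀ x : E n, fderiv ℝ (fun t : E n => M t) x = M := fun x => M.fderiv
  have i1 : Integrable fun x : E n => fderiv ℝ (K n) x w • M x :=
    ((Kd_cont w).smul M.continuous).integrable_of_hasCompactSupport
      ((K_cpt.fderiv_apply ℝ w).smul_right)
  have i2 : Integrable fun x : E n => K n x • fderiv ℝ (fun t : E n => M t) x w := by
    simp only [hd]
    exact K_integrable.smul_const _
  have i3 : Integrable fun x : E n => K n x • M x :=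
    (K_smooth.continuous.smul M.continuous).integrable_of_hasCompactSupport K_cpt.smul_right
  have h := integral_smul_fderiv_eq_neg_fderiv_smul_of_integrable
    (f := K n) (g := fun t : E n => M t) (v := w) (μ := volume) i1 i2 i3
    (fun x _ => K_smooth.contDiffAt.differentiableAt (by simp))
    (fun x _ => M.differentiableAt)
  simp only [hd] at h
  rw [integral_smul_const, K_int, one_smul] at h
  rw [h, neg_neg]

/-- the derivative of the mollification -/
lemma Ml_dv {G : E n → W} {R r : ℝ} {p w : E n}
    (hG : IntegrableOn G (closedBall 0 R)) (hr : 0 < r) :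
    fderiv ℝ (Ml n G R r) p w =
      r⁻¹ • ∫ t, fderiv ℝ (K n) t w • kk n G R r (r⁻¹ • p - t) := by
  have hki := kk_int hG hr
  have hk := hki.locallyIntegrable
  have h1 := HasCompactSupport.hasFDerivAt_convolution_right (LW W) (K_cpt (n := n)) hk
    (K_smooth.of_le (by simp)) (r⁻¹ • p)
  have h2 : HasFDerivAt (Ml n G R r)
      ((((kk n G R r) ⋆[(LW W).precompR (E n), volume] fderiv ℝ (K n)) (r⁻¹ • p)).comp
        (r⁻¹ • ContinuousLinearMap.id ℝ (E n))) p := by
    have h3 : HasFDerivAt (fun z : E n => r⁻¹ • z) (r⁻¹ • ContinuousLinearMap.id ℝ (E n)) p :=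
      (hasFDerivAt_id p).const_smul r⁻¹
    exact h1.comp p h3
  rw [h2.fderiv]
  have h4 : ((((kk n G R r) ⋆[(LW W).precompR (E n), volume] fderiv ℝ (K n)) (r⁻¹ • p)).comp
        (r⁻¹ • ContinuousLinearMap.id ℝ (E n))) w =
      r⁻¹ • (((kk n G R r) ⋆[(LW W).precompR (E n), volume] fderiv ℝ (K n)) (r⁻¹ • p)) w := by
    simp
  rw [h4, convolution_precompR_apply (LW W) hk (K_cpt.fderiv ℝ) K_d_cont, convolution_eq_swap]
  congr 1

lemma kd_int {G : E n → W} {R r : ℝ} (p w : E n)
    (hG : IntegrableOn G (closedBall 0 R)) (hr : 0 < r) :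
    Integrable fun t => fderiv ℝ (K n) t w • kk n G R r (r⁻¹ • p - t) := by
  obtain ⟨Cb, hCb⟩ : ∃ Cb : ℝ, ∀ t : E n, ‖fderiv ℝ (K n) t w‖ ≤ Cb :=
    (K_cpt.fderiv_apply ℝ w).exists_bound_of_continuous (Kd_cont w)
  exact ((kk_int hG hr).comp_sub_left (r⁻¹ • p)).bdd_smul Cb
    (Kd_cont w).aestronglyMeasurable (Eventually.of_forall hCb)

lemma finrank_E : Module.finrank ℝ (E n) = n := finrank_euclideanSpace_fin

lemma integral_ball {r : ℝ} (hr : 0 < r) (p : E n) (F : E n → ℝ) :
    ∫ t, F (p - r • t) = (r ^ n)⁻¹ * ∫ s, F s := by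
  have h1 := Measure.integral_comp_smul (volume : Measure (E n)) (fun y => F (p - y)) r
  beta_reduce at h1
  rw [h1, finrank_E, abs_of_pos (by positivity), smul_eq_mul]
  congr 1
  exact integral_sub_left_eq_self F volume p

/-- the derivative of the mollification of a map which is affine in the mean -/
theorem Ml_dmean {G : E n → W} {R r : ℝ} {p : E n} (c : W) (M : E n →L[ℝ] W) (w : E n)
    (hG : IntegrableOn G (closedBall 0 R)) (hr : 0 < r) (hp : ‖p‖ + r ≤ R) :
    ‖fderiv ℝ (Ml n G R r) p w - M w‖ ≤
      ‖w‖ * MD n * (r ^ (n + 1))⁻¹ * ∫ s in closedBall p r, ‖G s - c - M (s - p)‖ := by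
  have hsub : closedBall p r ⊆ closedBall 0 R := by
    intro s hs
    rw [mem_closedBall, dist_eq_norm] at hs
    rw [mem_closedBall_zero_iff]
    calc ‖s‖ = ‖(s - p) + p‖ := by congr 1; abel
      _ ≤ ‖s - p‖ + ‖p‖ := norm_add_le _ _
      _ ≤ R := by linarith
  have e1 : fderiv ℝ (Ml n G R r) p w - M w =
      r⁻¹ • ∫ t, fderiv ℝ (K n) t w • (kk n G R r (r⁻¹ • p - t) - (c - r • M t)) := by
    have i1 := kd_int p w hG hr
    have i2 : Integrable fun t : E n => fderiv ℝ (K n) t w • (c - r • M t) :=
      ((Kd_cont w).smul (continuous_const.sub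
        (continuous_const.smul M.continuous))).integrable_of_hasCompactSupport
        ((K_cpt.fderiv_apply ℝ w).smul_right)
    have i3 : Integrable fun t : E n => fderiv ℝ (K n) t w • c := (Kd_int w).smul_const _
    have i4 : Integrable fun t : E n => r • (fderiv ℝ (K n) t w • M t) := by
      refine Integrable.smul r ?_
      exact ((Kd_cont w).smul M.continuous).integrable_of_hasCompactSupport
        ((K_cpt.fderiv_apply ℝ w).smul_right)
    have e2 : ∫ t, fderiv ℝ (K n) t w • (c - r • M t) = r • M w := by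
      have : ∀ t : E n, fderiv ℝ (K n) t w • (c - r • M t) =
          fderiv ℝ (K n) t w • c - r • (fderiv ℝ (K n) t w • M t) := fun t => by
        rw [smul_sub, smul_comm]
      simp only [this]
      rw [integral_sub i3 i4, integral_smul_const, K_d_int, zero_smul, integral_smul, K_d_lin,
        smul_neg, zero_sub, neg_neg]
    simp only [smul_sub]
    have e3 : ∀ t : E n, fderiv ℝ (K n) t w • kk n G R r (r⁻¹ • p - t) -
        (fderiv ℝ (K n) t w • c - fderiv ℝ (K n) t w • r • M t) =
        fderiv ℝ (K n) t w • kk n G R r (r⁻¹ • p - t) - fderiv ℝ (K n) t w • (c - r • M t) :=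
      fun t => by rw [smul_sub (fderiv ℝ (K n) t w) c]
    simp only [e3]
    rw [integral_sub i1 i2, e2, smul_sub, smul_smul, inv_mul_cancel₀ hr.ne', one_smul,
      ← Ml_dv hG hr]
  rw [e1, norm_smul, Real.norm_of_nonneg (inv_nonneg.2 hr.le)]
  have hgi : IntegrableOn (fun s => ‖G s - c - M (s - p)‖) (closedBall p r) := by
    refine Integrable.norm (Integrable.sub ((hG.mono_set hsub).sub ?_) ?_)
    · exact integrableOn_const (by exact measure_closedBall_lt_top.ne)
    · refine (Continuous.continuousOn ?_).integrableOn_compact (isCompact_closedBall p r)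
      exact M.continuous.comp (continuous_id.sub continuous_const)
  obtain ⟨F, hF⟩ : ∃ F : E n → ℝ, F = (closedBall p r).indicator
    (fun s => ‖G s - c - M (s - p)‖) := ⟨_, rfl⟩
  have hFi : Integrable F := by
    rw [hF, integrable_indicator_iff measurableSet_closedBall]
    exact hgi
  have hFc : Integrable fun t : E n => F (p - r • t) := by
    have h1 : Integrable fun y : E n => F (p - y) := hFi.comp_sub_left p
    exact h1.comp_smul hr.ne'
  have e4 : ∫ s in closedBall p r, ‖G s - c - M (s - p)‖ = ∫ s, F s := by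
    rw [hF, integral_indicator measurableSet_closedBall]
  have e5 := integral_ball hr p F
  have key : ‖∫ t, fderiv ℝ (K n) t w • (kk n G R r (r⁻¹ • p - t) - (c - r • M t))‖ ≤
      ∫ t, (‖w‖ * MD n) * F (p - r • t) := by
    refine norm_integral_le_of_norm_le (hFc.const_mul _) (Eventually.of_forall fun t => ?_)
    rw [norm_smul]
    rcases le_or_gt ‖t‖ 1 with ht | ht
    · rw [Pool.Agent.N824.CN.kk_eq hr hp ht]
      have h1 : ‖fderiv ℝ (K n) t w‖ ≤ ‖w‖ * MD n := by
        rw [mul_comm]
        refine (ContinuousLinearMap.le_opNorm _ _).trans ?_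
        gcongr
        exact le_MD t
      have h2 : p - r • t ∈ closedBall p r := by
        rw [mem_closedBall, dist_eq_norm, sub_sub_cancel_left, norm_neg, norm_smul,
          Real.norm_of_nonneg hr.le]
        nlinarith
      have h3 : F (p - r • t) = ‖G (p - r • t) - (c - r • M t)‖ := by
        rw [hF, indicator_of_mem h2]
        congr 1
        rw [sub_sub_cancel_left, map_neg, map_smul]
        abel
      rw [h3]
      have := norm_nonneg w
      have := MD_nonneg (n := n)
      gcongr
    · rw [K_d_zero ht]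
      have h5 : 0 ≤ F (p - r • t) := by
        rw [hF]
        exact indicator_nonneg (fun s _ => norm_nonneg _) _
      have := norm_nonneg w
      have := MD_nonneg (n := n)
      simp
      positivity
  rw [integral_const_mul, e5, ← e4] at key
  calc r⁻¹ * ‖∫ t, fderiv ℝ (K n) t w • (kk n G R r (r⁻¹ • p - t) - (c - r • M t))‖ ≤
      r⁻¹ * (‖w‖ * MD n * ((r ^ n)⁻¹ * ∫ s in closedBall p r, ‖G s - c - M (s - p)‖)) := by
        gcongr
    _ = _ := by
        rw [pow_succ, mul_inv]
        ring

/-- the mollification of a map which is almost constant in the mean -/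
theorem Ml_cmean {G : E n → W} {R r : ℝ} {p : E n} (c : W)
    (hG : IntegrableOn G (closedBall 0 R)) (hr : 0 < r) (hp : ‖p‖ + r ≤ R) :
    ‖Ml n G R r p - c‖ ≤
      MK n * (r ^ n)⁻¹ * ∫ s in closedBall p r, ‖G s - c‖ := by
  have hsub : closedBall p r ⊆ closedBall 0 R := by
    intro s hs
    rw [mem_closedBall, dist_eq_norm] at hs
    rw [mem_closedBall_zero_iff]
    calc ‖s‖ = ‖(s - p) + p‖ := by congr 1; abel
      _ ≤ ‖s - p‖ + ‖p‖ := norm_add_le _ _
      _ ≤ R := by linarith
  have hk := (kk_int hG hr).locallyIntegrable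
  have hki : Integrable (K n) := K_integrable
  have hc1 : ConvolutionExistsAt (K n) (kk n G R r) (r⁻¹ • p) (LW W).flip volume :=
      (K_cpt.convolutionExists_left _ K_smooth.continuous hk) _
  have hc1' : Integrable (fun t => K n t • kk n G R r (r⁻¹ • p - t)) := by
    refine hc1.congr (Eventually.of_forall fun t => ?_)
    show (LW W) (kk n G R r (r⁻¹ • p - t)) (K n t) = _
    rw [LW_apply]
  have h1 : c = ∫ t, K n t • c := by
    rw [integral_smul_const, K_int, one_smul]
  have h2 : Ml n G R r p - c = ∫ t, K n t • (kk n G R r (r⁻¹ • p - t) - c) := by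
    unfold Pool.Agent.N824.CN.Ml
    rw [convolution_eq_swap]
    simp only [LW_apply]
    conv_lhs => rw [h1]
    rw [← integral_sub hc1' (hki.smul_const _)]
    refine integral_congr_ae (Eventually.of_forall fun t => ?_)
    simp only [smul_sub]
  rw [h2]
  have hgi : IntegrableOn (fun s => ‖G s - c‖) (closedBall p r) := by
    refine Integrable.norm ((hG.mono_set hsub).sub ?_)
    exact integrableOn_const (by exact measure_closedBall_lt_top.ne)
  obtain ⟨F, hF⟩ : ∃ F : E n → ℝ, F = (closedBall p r).indicator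
    (fun s => ‖G s - c‖) := ⟨_, rfl⟩
  have hFi : Integrable F := by
    rw [hF, integrable_indicator_iff measurableSet_closedBall]
    exact hgi
  have hFc : Integrable fun t : E n => F (p - r • t) := by
    have h1 : Integrable fun y : E n => F (p - y) := hFi.comp_sub_left p
    exact h1.comp_smul hr.ne'
  have e4 : ∫ s in closedBall p r, ‖G s - c‖ = ∫ s, F s := by
    rw [hF, integral_indicator measurableSet_closedBall]
  have e5 := integral_ball hr p F
  have key : ‖∫ t, K n t • (kk n G R r (r⁻¹ • p - t) - c)‖ ≤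
      ∫ t, MK n * F (p - r • t) := by
    refine norm_integral_le_of_norm_le (hFc.const_mul _) (Eventually.of_forall fun t => ?_)
    rw [norm_smul]
    rcases le_or_gt ‖t‖ 1 with ht | ht
    · rw [Pool.Agent.N824.CN.kk_eq hr hp ht]
      have h2 : p - r • t ∈ closedBall p r := by
        rw [mem_closedBall, dist_eq_norm, sub_sub_cancel_left, norm_neg, norm_smul,
          Real.norm_of_nonneg hr.le]
        nlinarith
      have h3 : F (p - r • t) = ‖G (p - r • t) - c‖ := by
        rw [hF, indicator_of_mem h2]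
      rw [h3]
      have := MK_nonneg (n := n)
      gcongr
      exact le_MK t
    · rw [K_zero ht.le]
      have h5 : 0 ≤ F (p - r • t) := by
        rw [hF]
        exact indicator_nonneg (fun s _ => norm_nonneg _) _
      have := MK_nonneg (n := n)
      simp
      positivity
  rw [integral_const_mul, e5, ← e4] at key
  refine key.trans (le_of_eq ?_)
  ring

theorem vol_image_le {k : NNReal} {φ : E n → E n} {s : Set (E n)} (h : LipschitzOnWith k φ s) :
    volume (φ '' s) ≤ (k : ENNReal) ^ n * volume s := by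
  have h1 := Measure.isAddLeftInvariant_eq_smul (volume : Measure (E n)) μH[n]
  have h2 := h.hausdorffMeasure_image_le (d := n) (Nat.cast_nonneg n)
  rw [h1, Measure.smul_apply, Measure.smul_apply, ENNReal.smul_def, ENNReal.smul_def, smul_eq_mul,
    smul_eq_mul]
  rw [ENNReal.rpow_natCast] at h2
  calc _ ≤ _ := mul_le_mul_right h2 _
    _ = _ := by ring

/-- change of variables -/
theorem cov {ψ φ : E n → E n} {a p : E n} {r r' : ℝ} {k : NNReal} (g : E n → ℝ)
    (hψ : ContinuousOn ψ (closedBall a r))
    (hmap : ∀ s ∈ closedBall a r, ψ s ∈ closedBall p r' ∧ φ (ψ s) = s)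
    (hφ : LipschitzOnWith k φ (ψ '' closedBall a r))
    (hg : IntegrableOn g (closedBall p r')) (hg0 : ∀ q, 0 ≤ g q) :
    IntegrableOn (fun s => g (ψ s)) (closedBall a r) ∧
    ∫ s in closedBall a r, g (ψ s) ≤ k ^ n * ∫ q in closedBall p r', g q := by
  have hm : AEMeasurable ψ (volume.restrict (closedBall a r)) :=
    hψ.aemeasurable measurableSet_closedBall
  have hle : Measure.map ψ (volume.restrict (closedBall a r)) ≤
      ((k : ENNReal) ^ n) • volume.restrict (closedBall p r') := by
    refine Measure.le_iff.2 fun s hs => ?_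
    rw [Measure.map_apply_of_aemeasurable hm hs, Measure.smul_apply, smul_eq_mul,
      Measure.restrict_apply hs, Measure.restrict_apply' measurableSet_closedBall]
    have h1 : ψ ⁻¹' s ∩ closedBall a r ⊆
        φ '' (s ∩ closedBall p r' ∩ ψ '' closedBall a r) := by
      rintro y ⟨hy1, hy2⟩
      exact ⟨ψ y, ⟨⟨hy1, (hmap y hy2).1⟩, mem_image_of_mem ψ hy2⟩, (hmap y hy2).2⟩
    refine (measure_mono h1).trans ((vol_image_le (hφ.mono inter_subset_right)).trans ?_)
    exact mul_le_mul_right (measure_mono inter_subset_left) _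
  have hgk : Integrable g (((k : ENNReal) ^ n) • volume.restrict (closedBall p r')) :=
    Integrable.smul_measure hg (by simp)
  have hgm : Integrable g (Measure.map ψ (volume.restrict (closedBall a r))) :=
    hgk.mono_measure hle
  refine ⟨hgm.comp_aemeasurable hm, ?_⟩
  have e1 : ∫ s in closedBall a r, g (ψ s) =
      ∫ q, g q ∂(Measure.map ψ (volume.restrict (closedBall a r))) :=
    (integral_map hm hgm.1).symm
  rw [e1]
  refine (integral_mono_measure hle (Eventually.of_forall hg0) hgk).trans (le_of_eq ?_)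
  rw [integral_smul_measure]
  simp

end Pool.Agent.N824.CJ
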