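import Pool.Agent.Y501.SY.Pub

/-!
# Coarse maps: the definitions used in the statements

`V` is the model space, with a measure `μ` (Lebesgue measure).
-/

set_option autoImplicit false

open Set Filter Topology Metric MeasureTheory
open scoped Manifold ContDiff

noncomputable section

namespace Pool.Agent.N824.CJP

open Pool.Agent.Y501.SYP

/-- Lebesgue measure on Euclidean space -/
def vol (n : ℕ) : Measure (ES n) := (volume : Measure (EuclideanSpace ℝ (Fin n)))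

/-- `(ℝ²)^N` -/
abbrev Tgt (N : ℕ) : Type := Fin N → ℝ × ℝ

section

variable {V : Type} [NormedAddCommGroup V] [NormedSpace ℝ V] [MeasurableSpace V]
  {X : Type} [TopologicalSpace X] [ChartedSpace V X]

/-- the pull-back of the form `∑ j, dx j ∧ dy j` on `(ℝ²)^N` by a linear map -/
def std {N : ℕ} (L : V →L[ℝ] Tgt N) (v w : V) : ℝ :=
  ∑ j, ((L v j).1 * (L w j).2 - (L w j).1 * (L v j).2)

/-- `h` is integrable on the ball of radius `R` about `p` and its distance to an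
affine map with linear part `L` has integral at most `b` over this ball. -/
def AffineInMean (μ : Measure V) {N : ℕ} (h : V → Tgt N) (p : V) (R b : ℝ)
    (L : V →L[ℝ] Tgt N) : Prop :=
  IntegrableOn h (closedBall p R) μ ∧ ∃ c : Tgt N,
    ∫ q in closedBall p R, ‖h q - c - L (q - p)‖ ∂μ ≤ b

variable (V X) in
/-- relations between tangent vectors -/
abbrev Rel : Type := (x : X) → TangentSpace 𝓘(ℝ, V) x → TangentSpace 𝓘(ℝ, V) x → Prop

/-- For every `v ≠ 0` there is `w` such that the images of `v` and `w` under the differential of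
`A` at `p` are related by `T` and `A^*ω₀ + L^*(∑ dx ∧ dy)` is larger than `m ‖v‖ ‖w‖` on
`(v, w)`. -/
def Robust (m : ℝ) {N : ℕ} (ω₀ : Form V X 2) (T : Rel V X) (A : V → X) (p : V)
    (L : V →L[ℝ] Tgt N) : Prop :=
  ∀ v : V, v ≠ 0 → ∃ w : V,
    T (A p) (mfderiv 𝓘(ℝ, V) 𝓘(ℝ, V) A p v) (mfderiv 𝓘(ℝ, V) 𝓘(ℝ, V) A p w) ∧
    m * (‖v‖ * ‖w‖) < pb A ω₀ p ![v, w] + std L v w

/-- `A` is a smooth parametrization near `x = A 0` which is `κ`-bi-Lipschitz for `d` on the ball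
of radius `ρ`. -/
def GoodParam (d : X → X → ℝ) (A : V → X) (κ ρ : ℝ) (x : X) : Prop :=
  A 0 = x ∧ IsLocalDiffeomorphAt 𝓘(ℝ, V) 𝓘(ℝ, V) ∞ A 0 ∧ 1 ≤ κ ∧ 0 < ρ ∧
    ∀ p q, ‖p‖ < ρ → ‖q‖ < ρ →
      d (A p) (A q) ≤ κ * ‖p - q‖ ∧ ‖p - q‖ ≤ κ * d (A p) (A q)

/-- The coarse condition at the point `x`: there is a parametrization `A` near `x` which is
`κ`-bi-Lipschitz for `d`, such that for `p` near `0` and all small scales `r` in `S` the map
`f r ∘ A` is in the mean `δ r`-close to an affine map on the ball of radius `κ² r` about `p`,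
with a robust linear part `L`; here `‖L‖ r ≤ δ τ(r)`, where `τ` tends to `0`. -/
def CoarseAt (n : ℕ) (μ : Measure V) (C : ℝ) {N : ℕ} (ω₀ : Form V X 2) (T : Rel V X)
    (d : X → X → ℝ) (S : Set ℝ) (f : ℝ → X → Tgt N) (x : X) : Prop :=
  ∃ (A : V → X) (κ ρ : ℝ) (τ : ℝ → ℝ), GoodParam d A κ ρ x ∧ Tendsto τ (𝓝[>] 0) (𝓝 0) ∧
    ∀ p, ‖p‖ < ρ → ∀ r ∈ S, 0 < r → r < ρ →
      ∃ (L : V →L[ℝ] Tgt N) (δ : ℝ), 0 ≤ δ ∧ ‖L‖ * r ≤ δ * τ r ∧
        AffineInMean μ (fun z => f r (A z)) p (κ ^ 2 * r) (δ * r ^ (n + 1)) L ∧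
        Robust (C * κ ^ (4 * n + 4) * (δ * (‖L‖ + δ))) ω₀ T A p L

/-- there are maps `f r`, for `r` in a set of scales accumulating at `0`, with the coarse
condition at all points -/
def HasCoarse (n : ℕ) (μ : Measure V) (C : ℕ → ℝ) (ω₀ : Form V X 2) (T : Rel V X) : Prop :=
  ∃ (N : ℕ) (d : X → X → ℝ) (S : Set ℝ) (f : ℝ → X → Tgt N),
    (0 : ℝ) ∈ closure (S ∩ Ioi 0) ∧ ∀ x, CoarseAt n μ (C N) ω₀ T d S f x

/-- `σ` is a smooth closed form in the class of `ω₀`. -/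
def InClass (ω₀ σ : Form V X 2) : Prop :=
  IsSmooth σ ∧ IsClosedForm σ ∧ ∃ (α : Form V X 1) (η : Form V X 2), IsSmooth α ∧ IsD α η ∧
    σ = addF ω₀ η

/-- nondegenerate forms -/
def Nondeg (σ : Form V X 2) : Prop :=
  ∀ (x : X) (v : TangentSpace 𝓘(ℝ, V) x), (∀ w : TangentSpace 𝓘(ℝ, V) x, σ x ![v, w] = 0) → v = 0

/-- all pairs -/
def allPairs (V X : Type) [NormedAddCommGroup V] [NormedSpace ℝ V] [TopologicalSpace X]
    [ChartedSpace V X] : Rel V X := fun _ _ _ => True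

/-- the pairs `(v, J v)` -/
def complexPairs (J : End V X) : Rel V X := fun x v w => w = J x v

end

end Pool.Agent.N824.CJP
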