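import Pool.Agent.N824.CJ.PubV

/-!
# Coarse maps: the definitions used in the statements, for the fibres of a submersion
-/

set_option autoImplicit false

open Set Filter Topology Metric MeasureTheory Function
open scoped Manifold ContDiff

noncomputable section

namespace Pool.Agent.N824.CJP

open Pool.Agent.Y501.SYP

section

variable {V : Type} [NormedAddCommGroup V] [NormedSpace ℝ V] {X : Type} [TopologicalSpace X]
  [ChartedSpace V X] (W : Type) [NormedAddCommGroup W] [NormedSpace ℝ W] {B : Type}
  [TopologicalSpace B] [ChartedSpace W B]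

/-- `π` is a smooth submersion -/
def Submersion (π : X → B) : Prop :=
  ContMDiff 𝓘(ℝ, V) 𝓘(ℝ, W) ∞ π ∧ ∀ x, Surjective (mfderiv 𝓘(ℝ, V) 𝓘(ℝ, W) π x)

/-- the vectors tangent to the fibres of `π` -/
def vertVecs (π : X → B) : Vecs V X := fun x v => mfderiv 𝓘(ℝ, V) 𝓘(ℝ, W) π x v = 0

/-- the pairs of tangent vectors the second of which is tangent to the fibre of `π` -/
def vertPairs (π : X → B) : Rel V X := fun x _ w => mfderiv 𝓘(ℝ, V) 𝓘(ℝ, W) π x w = 0

/-- the restrictions of `σ` to the fibres of `π` are nondegenerate -/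
def FibreNondeg (π : X → B) (σ : Form V X 2) : Prop :=
  ∀ (x : X) (v : TangentSpace 𝓘(ℝ, V) x), vertVecs W π x v →
    (∀ w : TangentSpace 𝓘(ℝ, V) x, vertVecs W π x w → σ x ![v, w] = 0) → v = 0

end

end Pool.Agent.N824.CJP
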