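import Pool.Agent.N824.CJ.PubV

/-!
# Coarse maps: the definitions used in the statements, for hyperplane fields
-/

set_option autoImplicit false

open Set Filter Topology Metric MeasureTheory Function
open scoped Manifold ContDiff

noncomputable section

namespace Pool.Agent.N824.CJP

open Pool.Agent.Y501.SYP

section

variable {V : Type} [NormedAddCommGroup V] [NormedSpace ℝ V] {X : Type} [TopologicalSpace X]
  [ChartedSpace V X]

/-- A form is continuous if its pull-back by every smooth map from an open subset of the model
space is continuous. -/
def IsContForm {k : ℕ} (α : Form V X k) : Prop :=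
  ∀ (U : Set V) (φ : V → X), SmoothParam U φ → ContinuousOn (pb φ α) U

/-- the vectors in the kernel of the one-form `α` -/
def kerVecs (α : Form V X 1) : Vecs V X := fun x v => α x ![v] = 0

/-- the pairs of tangent vectors the second of which is in the kernel of the one-form `α` -/
def kerPairs (α : Form V X 1) : Rel V X := fun x _ w => α x ![w] = 0

/-- the two-form `σ` is nondegenerate on the kernel of `α`, at every point -/
def NondegOnKer (α : Form V X 1) (σ : Form V X 2) : Prop :=
  ∀ (x : X) (v : TangentSpace 𝓘(ℝ, V) x), kerVecs α x v →
    (∀ w : TangentSpace 𝓘(ℝ, V) x, kerVecs α x w → σ x ![v, w] = 0) → v = 0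

end

end Pool.Agent.N824.CJP
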