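import Pool.Agent.N824.CJ.Pub

/-!
# Coarse maps: the definitions used in the statements, relative version
-/

set_option autoImplicit false

open Set Filter Topology Metric MeasureTheory
open scoped Manifold ContDiff

noncomputable section

namespace Pool.Agent.N824.CJP

open Pool.Agent.Y501.SYP

section

variable {V : Type} [NormedAddCommGroup V] [NormedSpace ℝ V] [MeasurableSpace V]
  {X : Type} [TopologicalSpace X] [ChartedSpace V X]

/-- `σ` is a smooth closed form which differs from `ω₀` by the derivative of a smooth one-form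
vanishing outside a compact set `K` disjoint from `Z`. -/
def InClassRel (Z : Set X) (ω₀ σ : Form V X 2) : Prop :=
  IsSmooth σ ∧ IsClosedForm σ ∧ ∃ (α : Form V X 1) (η : Form V X 2) (K : Set X),
    IsSmooth α ∧ IsD α η ∧ IsCompact K ∧ Disjoint K Z ∧ (∀ x, x ∉ K → α x = 0) ∧ σ = addF ω₀ η

/-- `β` is nondegenerate (respectively positive on the pairs given by the relation `T`) at all
points of `U`. -/
def PositiveOn (U : Set X) (β : Form V X 2) (T : Rel V X) : Prop :=
  ∀ x ∈ U, ∀ v : TangentSpace 𝓘(ℝ, V) x, v ≠ 0 → ∃ w : TangentSpace 𝓘(ℝ, V) x, T x v w ∧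
    0 < β x ![v, w]

/-- There are an open set `U` containing `Z`, with compact complement, where `ω₀` is already
nondegenerate (positive), and maps `f r`, for `r` in a set of scales accumulating at `0`, which
vanish on `U` and satisfy the coarse condition at all points outside `U`. -/
def HasCoarseRel (n : ℕ) (μ : Measure V) (C : ℕ → ℝ) (Z : Set X) (ω₀ : Form V X 2)
    (T : Rel V X) : Prop :=
  ∃ (U : Set X) (N : ℕ) (d : X → X → ℝ) (S : Set ℝ) (f : ℝ → X → Tgt N),
    IsOpen U ∧ Z ⊆ U ∧ IsCompact Uᶜ ∧ (0 : ℝ) ∈ closure (S ∩ Ioi 0) ∧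
    (∀ r ∈ S, ∀ x ∈ U, f r x = 0) ∧ PositiveOn U ω₀ T ∧
    ∀ x, x ∉ U → CoarseAt n μ (C N) ω₀ T d S f x

end

end Pool.Agent.N824.CJP
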