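import Pool.Agent.N824.CJ.PubR

/-!
# Coarse maps: the definitions used in the statements, for a set of tangent vectors
-/

set_option autoImplicit false

open Set Filter Topology Metric MeasureTheory
open scoped Manifold ContDiff

noncomputable section

namespace Pool.Agent.N824.CJP

open Pool.Agent.Y501.SYP

section

variable {V : Type} [NormedAddCommGroup V] [NormedSpace ℝ V] [MeasurableSpace V]
  {X : Type} [TopologicalSpace X] [ChartedSpace V X]

variable (V X) in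
/-- sets of tangent vectors -/
abbrev Vecs : Type := (x : X) → TangentSpace 𝓘(ℝ, V) x → Prop

/-- For every `v ≠ 0` the image of which under the differential of `A` at `p` is in `P`, there is
`w` such that the images of `v` and `w` are related by `T` and `A^*ω₀ + L^*(∑ dx ∧ dy)` is larger
than `m ‖v‖ ‖w‖` on `(v, w)`. -/
def RobustOn (P : Vecs V X) (m : ℝ) {N : ℕ} (ω₀ : Form V X 2) (T : Rel V X) (A : V → X) (p : V)
    (L : V →L[ℝ] Tgt N) : Prop :=
  ∀ v : V, v ≠ 0 → P (A p) (mfderiv 𝓘(ℝ, V) 𝓘(ℝ, V) A p v) → ∃ w : V,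
    T (A p) (mfderiv 𝓘(ℝ, V) 𝓘(ℝ, V) A p v) (mfderiv 𝓘(ℝ, V) 𝓘(ℝ, V) A p w) ∧
    m * (‖v‖ * ‖w‖) < pb A ω₀ p ![v, w] + std L v w

/-- The coarse condition at the point `x`, on the tangent vectors in `P`: there is a parametrization
`A` near `x` which is `κ`-bi-Lipschitz for `d`, such that for `p` near `0` and all small scales `r`
in `S` the map `f r ∘ A` is in the mean `δ r`-close to an affine map on the ball of radius `κ² r`
about `p`, with a linear part `L` which is robust on the vectors in `P`; here `‖L‖ r ≤ δ τ(r)`, where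
`τ` tends to `0`. -/
def CoarseAtOn (P : Vecs V X) (n : ℕ) (μ : Measure V) (C : ℝ) {N : ℕ} (ω₀ : Form V X 2)
    (T : Rel V X) (d : X → X → ℝ) (S : Set ℝ) (f : ℝ → X → Tgt N) (x : X) : Prop :=
  ∃ (A : V → X) (κ ρ : ℝ) (τ : ℝ → ℝ), GoodParam d A κ ρ x ∧ Tendsto τ (𝓝[>] 0) (𝓝 0) ∧
    ∀ p, ‖p‖ < ρ → ∀ r ∈ S, 0 < r → r < ρ →
      ∃ (L : V →L[ℝ] Tgt N) (δ : ℝ), 0 ≤ δ ∧ ‖L‖ * r ≤ δ * τ r ∧
        AffineInMean μ (fun z => f r (A z)) p (κ ^ 2 * r) (δ * r ^ (n + 1)) L ∧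
        RobustOn P (C * κ ^ (4 * n + 4) * (δ * (‖L‖ + δ))) ω₀ T A p L

/-- there are maps `f r`, for `r` in a set of scales accumulating at `0`, with the coarse
condition, on the tangent vectors in `P`, at all points -/
def HasCoarseOn (P : Vecs V X) (n : ℕ) (μ : Measure V) (C : ℕ → ℝ) (ω₀ : Form V X 2)
    (T : Rel V X) : Prop :=
  ∃ (N : ℕ) (d : X → X → ℝ) (S : Set ℝ) (f : ℝ → X → Tgt N),
    (0 : ℝ) ∈ closure (S ∩ Ioi 0) ∧ ∀ x, CoarseAtOn P n μ (C N) ω₀ T d S f x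

/-- There are an open set `U` containing `Z`, with compact complement, where `ω₀` is already
positive on the vectors in `P`, and maps `f r`, for `r` in a set of scales accumulating at `0`,
which vanish on `U` and satisfy the coarse condition, on the vectors in `P`, at all points outside
`U`. -/
def HasCoarseRelOn (P : Vecs V X) (n : ℕ) (μ : Measure V) (C : ℕ → ℝ) (Z : Set X)
    (ω₀ : Form V X 2) (T : Rel V X) : Prop :=
  ∃ (U : Set X) (N : ℕ) (d : X → X → ℝ) (S : Set ℝ) (f : ℝ → X → Tgt N),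
    IsOpen U ∧ Z ⊆ U ∧ IsCompact Uᶜ ∧ (0 : ℝ) ∈ closure (S ∩ Ioi 0) ∧
    (∀ r ∈ S, ∀ x ∈ U, f r x = 0) ∧
    (∀ x ∈ U, ∀ v : TangentSpace 𝓘(ℝ, V) x, v ≠ 0 → P x v → ∃ w : TangentSpace 𝓘(ℝ, V) x,
      T x v w ∧ 0 < ω₀ x ![v, w]) ∧
    ∀ x, x ∉ U → CoarseAtOn P n μ (C N) ω₀ T d S f x

/-- the null vectors of the form `ζ`: `ζ(v, J v) = 0` -/
def nullVecs (ζ : Form V X 2) (J : End V X) : Vecs V X := fun x v => qd ζ J x v = 0

/-- `ζ(v, J v) ≥ 0` for all `v` -/
def Semipositive (ζ : Form V X 2) (J : End V X) : Prop :=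
  ∀ (x : X) (v : TangentSpace 𝓘(ℝ, V) x), 0 ≤ qd ζ J x v

end

end Pool.Agent.N824.CJP
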