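import Pool.Agent.N824.CJ.Glob
import Pool.Agent.Y484.SY.Gen
import Pool.Agent.Y501.SY.PairL

/-!
# Symplectic forms from maps which are affine in the mean
-/

set_option autoImplicit false
set_option maxSynthPendingDepth 3

open Set Filter Topology Metric Function MeasureTheory
open scoped Manifold ContDiff Convolution

set_option linter.unusedSectionVars false

noncomputable section

namespace Pool.Agent.N824.CJ

open Pool.Agent.Y522 Pool.Agent.Y954.SH Pool.Agent.N824.CR Pool.Agent.N824.CN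
open Pool.Agent.Y501.SY (Form IsSmooth IsD IsClosedForm pb dfdg fdg dd SmoothFun)

variable {n : ℕ} {X : Type} [TopologicalSpace X] [ChartedSpace (E n) X]

/-- the pull-back of the form `∑ j, dx j ∧ dy j` by a linear map -/
def stdF {n N : ℕ} (L : E n →L[ℝ] (Fin N → ℝ × ℝ)) (v w : E n) : ℝ :=
  ∑ j, ((L v j).1 * (L w j).2 - (L w j).1 * (L v j).2)

/-- pairs of tangent vectors -/
abbrev Rel (n : ℕ) (X : Type) [TopologicalSpace X] [ChartedSpace (E n) X] : Type :=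
  (x : X) → TangentSpace (𝓡 n) x → TangentSpace (𝓡 n) x → Prop

/-- For every `v ≠ 0` there is `w` such that the images of `v` and `w` are related by `T`, and the
form `A^*ω₀ + L^*(∑ dx ∧ dy)` at `p` is larger than a margin on `(v, w)`. -/
def QS (n N : ℕ) (C : ℝ) {X : Type} [TopologicalSpace X] [ChartedSpace (E n) X]
    (ω₀ : Form n X 2) (T : Rel n X) (A : E n → X) (p : E n) (L : E n →L[ℝ] (Fin N → ℝ × ℝ))
    (κ δ : ℝ) : Prop :=
  ∀ v : E n, v ≠ 0 → ∃ w : E n,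
    T (A p) (mfderiv (𝓡 n) (𝓡 n) A p v) (mfderiv (𝓡 n) (𝓡 n) A p w) ∧
    C * κ ^ (4 * n + 4) * (δ * (‖L‖ + δ)) * (‖v‖ * ‖w‖) < pb A ω₀ p ![v, w] + stdF L v w

lemma stdF_close {N : ℕ} {L L' : E n →L[ℝ] (Fin N → ℝ × ℝ)} {e : ℝ} (h : ‖L' - L‖ ≤ e)
    (v w : E n) : stdF L v w - 2 * N * (e * (2 * ‖L‖ + e)) * (‖v‖ * ‖w‖) ≤ stdF L' v w := by
  have he : 0 ≤ e := (norm_nonneg _).trans h
  have hc : ∀ (j : Fin N) (u : E n), |(L u j).1| ≤ ‖L‖ * ‖u‖ ∧ |(L u j).2| ≤ ‖L‖ * ‖u‖ ∧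
      |(L' u j).1 - (L u j).1| ≤ e * ‖u‖ ∧ |(L' u j).2 - (L u j).2| ≤ e * ‖u‖ := by
    intro j u
    have h1 : ‖L u j‖ ≤ ‖L‖ * ‖u‖ := (norm_le_pi_norm (L u) j).trans (L.le_opNorm u)
    have h2 : ‖(L' u - L u) j‖ ≤ e * ‖u‖ := by
      refine (norm_le_pi_norm (L' u - L u) j).trans ?_
      have := (L' - L).le_opNorm u
      rw [sub_apply] at this
      exact this.trans (by gcongr)
    refine ⟨(norm_fst_le _).trans h1, (norm_snd_le _).trans h1, ?_, ?_⟩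
    · exact (norm_fst_le ((L' u - L u) j)).trans h2
    · exact (norm_snd_le ((L' u - L u) j)).trans h2
  have key : ∀ a b a' b' α β ε₁ ε₂ : ℝ, |a| ≤ α → |b| ≤ β → |a' - a| ≤ ε₁ → |b' - b| ≤ ε₂ →
      |a' * b' - a * b| ≤ ε₁ * (β + ε₂) + α * ε₂ := by
    intro a b a' b' α β ε₁ ε₂ ha hb ha' hb'
    have e1 : a' * b' - a * b = (a' - a) * (b + (b' - b)) + a * (b' - b) := by ring
    rw [e1]
    refine (abs_add_le _ _).trans ?_
    rw [abs_mul, abs_mul]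
    have h0 : 0 ≤ ε₁ := (abs_nonneg _).trans ha'
    have h0' : 0 ≤ α := (abs_nonneg _).trans ha
    gcongr
    exact (abs_add_le _ _).trans (add_le_add hb hb')
  have hs : |stdF L' v w - stdF L v w| ≤
      ∑ _j : Fin N, 2 * (e * (2 * ‖L‖ + e)) * (‖v‖ * ‖w‖) := by
    unfold stdF
    rw [← Finset.sum_sub_distrib]
    refine (Finset.abs_sum_le_sum_abs _ _).trans (Finset.sum_le_sum fun j _ => ?_)
    obtain ⟨v1, v2, v3, v4⟩ := hc j v
    obtain ⟨w1, w2, w3, w4⟩ := hc j w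
    have k1 := key _ _ _ _ _ _ _ _ v1 w2 v3 w4
    have k2 := key _ _ _ _ _ _ _ _ w1 v2 w3 v4
    have e1 : (L' v j).1 * (L' w j).2 - (L' w j).1 * (L' v j).2 -
        ((L v j).1 * (L w j).2 - (L w j).1 * (L v j).2) =
        ((L' v j).1 * (L' w j).2 - (L v j).1 * (L w j).2) -
        ((L' w j).1 * (L' v j).2 - (L w j).1 * (L v j).2) := by ring
    rw [e1]
    refine (abs_sub _ _).trans ?_
    calc _ ≤ _ := add_le_add k1 k2
      _ = _ := by ring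
  rw [Finset.sum_const, Finset.card_univ, Fintype.card_fin, nsmul_eq_mul] at hs
  have := (abs_le.1 hs).1
  nlinarith

lemma CJ_one : 1 ≤ CJ n := by
  unfold CJ
  have := MD_nonneg (n := n)
  linarith

theorem pb_sum {ι : Type} (s : Finset ι) (A : E n → X) (σ : ι → Form n X 2) (p : E n) :
    pb A (∑ i ∈ s, σ i) p = ∑ i ∈ s, pb A (σ i) p := by
  classical
  induction s using Finset.induction_on with
  | empty => simp [Pool.Agent.Y501.SY.pb_zero]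
  | insert a s ha ih =>
    rw [Finset.sum_insert ha, Finset.sum_insert ha, Pool.Agent.Y501.SY.pb_add, Pi.add_apply, ih]

/-- the pull-back of `∑ da ∧ db` -/
theorem pb_std [IsManifold (𝓡 n) ∞ X] {N : ℕ} {F : X → Fin N → ℝ × ℝ}
    (hF : ∀ x, ContMDiffAt (𝓡 n) 𝓘(ℝ, Fin N → ℝ × ℝ) ∞ F x) {A : E n → X} {p : E n}
    (hA : LD n A p) (v w : E n) :
    pb A (∑ j, dfdg (d := n) (fun x => (F x j).1) (fun x => (F x j).2)) p ![v, w] =
      stdF (fderiv ℝ (fun z => F (A z)) p) v w := by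
  obtain ⟨U, hU, hUo, hpU⟩ := _root_.eventually_nhds_iff.1 hA.eventually
  have hAU : ContMDiffOn (𝓡 n) (𝓡 n) ∞ A U := fun z hz =>
    (hU z hz).contMDiffAt.contMDiffWithinAt
  have hFA : DifferentiableAt ℝ (fun z => F (A z)) p := by
    have h1 : ContMDiffAt (𝓡 n) 𝓘(ℝ, Fin N → ℝ × ℝ) ∞ (F ∘ A) p :=
      (hF (A p)).comp p hA.contMDiffAt
    exact (contMDiffAt_iff_contDiffAt.1 h1).differentiableAt (by simp)
  rw [pb_sum]
  unfold stdF
  rw [ContinuousAlternatingMap.sum_apply]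
  refine Finset.sum_congr rfl fun j _ => ?_
  have hj : HasFDerivAt (fun z => F (A z) j)
      ((ContinuousLinearMap.proj (R := ℝ) (φ := fun _ : Fin N => ℝ × ℝ) j).comp
        (fderiv ℝ (fun z => F (A z)) p)) p :=
    (ContinuousLinearMap.proj (R := ℝ) (φ := fun _ : Fin N => ℝ × ℝ) j).hasFDerivAt.comp p
      hFA.hasFDerivAt
  have h1 := hj.fst.fderiv
  have h2 := hj.snd.fderiv
  have hFc : ContMDiff (𝓡 n) 𝓘(ℝ, Fin N → ℝ × ℝ) ∞ F := fun x => hF x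
  have s1 : SmoothFun (d := n) (fun x => (F x j).1) :=
    ((ContinuousLinearMap.fst ℝ ℝ ℝ).comp
      (ContinuousLinearMap.proj (R := ℝ) (φ := fun _ : Fin N => ℝ × ℝ) j)).contDiff.contMDiff.comp
      hFc
  have s2 : SmoothFun (d := n) (fun x => (F x j).2) :=
    ((ContinuousLinearMap.snd ℝ ℝ ℝ).comp
      (ContinuousLinearMap.proj (R := ℝ) (φ := fun _ : Fin N => ℝ × ℝ) j)).contDiff.contMDiff.comp
      hFc
  rw [Pool.Agent.Y484.SY.pb_dfdg hUo hAU s1 s2 hpU, Pool.Agent.Y501.SY.wedge_apply]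
  have h1' : fderiv ℝ ((fun x => (F x j).1) ∘ A) p = _ := h1
  have h2' : fderiv ℝ ((fun x => (F x j).2) ∘ A) p = _ := h2
  rw [h1', h2']
  rfl

theorem sympF [T2Space X] [CompactSpace X] [IsManifold (𝓡 n) ∞ X] (N : ℕ)
    (ω₀ : Form n X 2) (T : Rel n X) (d : X → X → ℝ) (S : Set ℝ)
    (hS : (0 : ℝ) ∈ closure (S ∩ Ioi 0)) (f : ℝ → X → Fin N → ℝ × ℝ)
    (hf : ∀ x, CRegJ n d S f (QS n N (4 * N * CJ n ^ 2) ω₀ T) x) :
    ∃ a b : Fin N → X → ℝ, (∀ j, SmoothFun (d := n) (a j)) ∧ (∀ j, SmoothFun (d := n) (b j)) ∧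
      ∀ (x : X) (v : TangentSpace (𝓡 n) x), v ≠ 0 → ∃ w : TangentSpace (𝓡 n) x, T x v w ∧
        0 < (ω₀ + ∑ j, dfdg (d := n) (a j) (b j)) x ![v, w] := by
  obtain ⟨F, hF, hreg⟩ := globJ f d _ S hS hf
  have hFc : ContMDiff (𝓡 n) 𝓘(ℝ, Fin N → ℝ × ℝ) ∞ F := fun x => hF x
  refine ⟨fun j x => (F x j).1, fun j x => (F x j).2, fun j => ?_, fun j => ?_, ?_⟩
  · exact ((ContinuousLinearMap.fst ℝ ℝ ℝ).comp
      (ContinuousLinearMap.proj (R := ℝ) (φ := fun _ : Fin N => ℝ × ℝ) j)).contDiff.contMDiff.comp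
      hFc
  · exact ((ContinuousLinearMap.snd ℝ ℝ ℝ).comp
      (ContinuousLinearMap.proj (R := ℝ) (φ := fun _ : Fin N => ℝ × ℝ) j)).contDiff.contMDiff.comp
      hFc
  · intro x v' hv'
    obtain ⟨A, p, L, κ, δ, rfl, hA, hκ, hδ, hQ, hcl⟩ := hreg x
    obtain ⟨v, rfl⟩ : ∃ v : E n, mfderiv (𝓡 n) (𝓡 n) A p v = v' := by
      have h := hA.mfderivToContinuousLinearEquiv_coe (by simp)
      refine ⟨(hA.mfderivToContinuousLinearEquiv (by simp)).symm v', ?_⟩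
      rw [← h]
      exact (hA.mfderivToContinuousLinearEquiv (by simp)).apply_symm_apply v'
    have hv : v ≠ 0 := by
      rintro rfl
      exact hv' (map_zero _)
    obtain ⟨w, hT, hw⟩ := hQ v hv
    refine ⟨mfderiv (𝓡 n) (𝓡 n) A p w, hT, ?_⟩
    have e1 : (ω₀ + ∑ j, dfdg (d := n) (fun x => (F x j).1) (fun x => (F x j).2)) (A p)
        ![mfderiv (𝓡 n) (𝓡 n) A p v, mfderiv (𝓡 n) (𝓡 n) A p w] =
        pb A ω₀ p ![v, w] + stdF (fderiv ℝ (fun z => F (A z)) p) v w := by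
      rw [← pb_std hF hA v w]
      have e2 : (fun i => mfderiv (𝓡 n) (𝓡 n) A p ((![v, w] : Fin 2 → E n) i)) =
          ![mfderiv (𝓡 n) (𝓡 n) A p v, mfderiv (𝓡 n) (𝓡 n) A p w] := by
        funext i
        fin_cases i <;> rfl
      rw [← e2]
      rfl
    rw [e1]
    have h1 := stdF_close hcl v w
    obtain ⟨k, hk⟩ : ∃ k, k = CJ n * κ ^ (2 * n + 2) := ⟨_, rfl⟩
    have hk1 : 1 ≤ k := by
      rw [hk]
      have h2 : 1 ≤ κ ^ (2 * n + 2) := one_le_pow₀ hκ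
      have h3 := CJ_one (n := n)
      nlinarith
    rw [← hk] at h1
    have e3 : 4 * (N : ℝ) * CJ n ^ 2 * κ ^ (4 * n + 4) = 4 * N * k ^ 2 := by
      rw [hk, mul_pow, ← pow_mul]
      have : (2 * n + 2) * 2 = 4 * n + 4 := by ring
      rw [this]
      ring
    rw [e3] at hw
    have hL := norm_nonneg L
    have h4 : k * δ * (2 * ‖L‖ + k * δ) ≤ 2 * (k ^ 2 * (δ * (‖L‖ + δ))) := by
      have h5 : k * δ * (2 * ‖L‖ + k * δ) = 2 * (k * (δ * ‖L‖)) + k ^ 2 * (δ * δ) := by ring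
      have h6 : k * (δ * ‖L‖) ≤ k ^ 2 * (δ * ‖L‖) := by
        have : k ≤ k ^ 2 := by nlinarith
        gcongr
      have h7 : 0 ≤ k ^ 2 * (δ * δ) := by positivity
      have h8 : 2 * (k ^ 2 * (δ * (‖L‖ + δ))) = 2 * (k ^ 2 * (δ * ‖L‖)) + 2 * (k ^ 2 * (δ * δ)) := by
        ring
      linarith
    have h9 : 2 * N * (k * δ * (2 * ‖L‖ + k * δ)) * (‖v‖ * ‖w‖) ≤
        4 * N * k ^ 2 * (δ * (‖L‖ + δ)) * (‖v‖ * ‖w‖) := by
      have : (4 : ℝ) * N * k ^ 2 * (δ * (‖L‖ + δ)) = 2 * N * (2 * (k ^ 2 * (δ * (‖L‖ + δ)))) := by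
        ring
      rw [this]
      gcongr
    linarith

end Pool.Agent.N824.CJ
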